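import Pool.Agent.W898.VR.Fml

/-!
# If `W` is derivable then all of Visser's rules are admissible
-/

set_option autoImplicit false

namespace Pool.Agent.W898.VR

open Form

theorem subst_subst (σ τ : ℕ → Form) (a : Form) :
    (a.subst τ).subst σ = a.subst (fun i => (τ i).subst σ) := by
  induction a with
  | var i => rfl
  | bot => rfl
  | con a b iha ihb => simp only [subst, iha, ihb]
  | dis a b iha ihb => simp only [subst, iha, ihb]
  | imp a b iha ihb => simp only [subst, iha, ihb]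

theorem Logic.sub {A a : Form} (h : Logic A a) (σ : ℕ → Form) : Logic A (a.subst σ) := by
  induction h with
  | inst τ => rw [subst_subst]; exact Logic.inst _
  | k a b => exact Logic.k _ _
  | s a b c => exact Logic.s _ _ _
  | andL a b => exact Logic.andL _ _
  | andR a b => exact Logic.andR _ _
  | andI a b => exact Logic.andI _ _
  | orL a b => exact Logic.orL _ _
  | orR a b => exact Logic.orR _ _
  | orE a b c => exact Logic.orE _ _ _
  | botE a => exact Logic.botE _
  | mp a b _ _ ih1 ih2 => exact Logic.mp _ _ ih1 ih2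

theorem subst_bigAnd (σ : ℕ → Form) (f : ℕ → Form) (n : ℕ) :
    (bigAnd f n).subst σ = bigAnd (fun i => (f i).subst σ) n := by
  induction n with
  | zero => rfl
  | succ n ih => rw [bigAnd, subst, ih, bigAnd]

theorem subst_bigOr (σ : ℕ → Form) (f : ℕ → Form) (n : ℕ) :
    (bigOr f n).subst σ = bigOr (fun i => (f i).subst σ) n := by
  induction n with
  | zero => rfl
  | succ n ih => rw [bigOr, subst, ih, bigOr]

theorem frc_bigAnd {W : Type*} [Preorder W] (V : ℕ → W → Prop) {f : ℕ → Form} {n : ℕ} {w : W} :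
    frc V (bigAnd f n) w ↔ ∀ i ≤ n, frc V (f i) w := by
  induction n with
  | zero =>
    constructor
    · intro h i hi
      have : i = 0 := by omega
      rw [this]; exact h
    · exact fun h => h 0 le_rfl
  | succ n ih =>
    rw [bigAnd, frc, ih]
    constructor
    · rintro ⟨h1, h2⟩ i hi
      rcases Nat.lt_or_eq_of_le hi with h | h
      · exact h1 i (by omega)
      · rw [h]; exact h2
    · exact fun h => ⟨fun i hi => h i (by omega), h (n + 1) le_rfl⟩

theorem frc_bigOr {W : Type*} [Preorder W] (V : ℕ → W → Prop) {f : ℕ → Form} {n : ℕ} {w : W} :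
    frc V (bigOr f n) w ↔ ∃ i ≤ n, frc V (f i) w := by
  induction n with
  | zero =>
    constructor
    · exact fun h => ⟨0, le_rfl, h⟩
    · rintro ⟨i, hi, h⟩
      have : i = 0 := by omega
      rwa [this] at h
  | succ n ih =>
    rw [bigOr, frc, ih]
    constructor
    · rintro (⟨i, hi, h⟩ | h)
      · exact ⟨i, by omega, h⟩
      · exact ⟨n + 1, le_rfl, h⟩
    · rintro ⟨i, hi, h⟩
      rcases Nat.lt_or_eq_of_le hi with h' | h'
      · exact Or.inl ⟨i, by omega, h⟩
      · rw [h'] at h; exact Or.inr h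

/-- the worlds: the prime theories and two new points -/
inductive NW {A : Form} (k0 : PT A) (ks : ℕ → PT A) (N : ℕ) : Type
  | old : PT A → NW k0 ks N
  | kp : NW k0 ks N
  | rt : NW k0 ks N

namespace NW

variable {A : Form} {k0 : PT A} {ks : ℕ → PT A} {N : ℕ}

/-- the order -/
def le : NW k0 ks N → NW k0 ks N → Prop
  | old S, old T => S ≤ T
  | old _, kp => False
  | old _, rt => False
  | kp, old T => ∃ i ≤ N, ks i ≤ T
  | kp, kp => True
  | kp, rt => False
  | rt, old T => k0 ≤ T ∨ ∃ i ≤ N, ks i ≤ T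
  | rt, kp => True
  | rt, rt => True

instance : Preorder (NW k0 ks N) where
  le := le
  le_refl w := by
    rcases w with S | _ | _
    · exact le_refl S
    · trivial
    · trivial
  le_trans w1 w2 w3 h1 h2 := by
    rcases w1 with S | _ | _ <;> rcases w2 with T | _ | _ <;> rcases w3 with U | _ | _ <;>
      first
      | exact (h1 : False).elim
      | exact (h2 : False).elim
      | trivial
      | exact le_trans (α := PT A) h1 h2
      | exact h1
      | exact h2
      | skip
    · obtain ⟨i, hi, h⟩ := h1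
      exact ⟨i, hi, le_trans h h2⟩
    · rcases h1 with h | ⟨i, hi, h⟩
      · exact Or.inl (le_trans h h2)
      · exact Or.inr ⟨i, hi, le_trans h h2⟩
    · exact Or.inr h2

/-- the valuation -/
def V : ℕ → NW k0 ks N → Prop
  | i, old T => var i ∈ T.s
  | _, _ => False

theorem V_val : Val (V (k0 := k0) (ks := ks) (N := N)) := by
  intro i w w' h hw
  rcases w with S | _ | _
  · rcases w' with T | _ | _
    · exact (h : S ≤ T) hw
    · exact (h : False).elim
    · exact (h : False).elim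
  · exact hw.elim
  · exact hw.elim

theorem truth (T : PT A) (a : Form) :
    frc (V (k0 := k0) (ks := ks) (N := N)) a (old T) ↔ a ∈ T.s := by
  induction a generalizing T with
  | var i => rfl
  | bot => exact ⟨fun h => h.elim, fun h => (T.cons h).elim⟩
  | con a b iha ihb => rw [PT.mem_and, frc, iha, ihb]
  | dis a b iha ihb => rw [PT.mem_or, frc, iha, ihb]
  | imp a b iha ihb =>
    rw [PT.mem_imp, frc]
    constructor
    · intro h T' hT ha
      exact (ihb T').1 (h (old T') hT ((iha T').2 ha))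
    · intro h w' hw ha
      rcases w' with T' | _ | _
      · exact (ihb T').2 (h T' hw ((iha T').1 ha))
      · exact (hw : False).elim
      · exact (hw : False).elim

/-- every prime theory above `k0` is compatible with the new point -/
def Cmp (k0 : PT A) (ks : ℕ → PT A) (N : ℕ) : Prop :=
  ∀ y : PT A, k0 ≤ y → ∃ i ≤ N, ∃ U : PT A, y ≤ U ∧ ks i ≤ U

theorem newpt (hk : ∀ i ≤ N, k0 ≤ ks i) (hC : Cmp k0 ks N) {w z z' : NW k0 ks N}
    (hw : ∀ T, w ≠ old T) (hz : w ≤ z) (hz' : w ≤ z') (hinc : ∀ u, z ≤ u → z' ≤ u → False) :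
    ∃ Z, z = old Z ∧ (old k0 : NW k0 ks N) ≤ z := by
  rcases z with Z | _ | _
  · refine ⟨Z, rfl, ?_⟩
    rcases w with T | _ | _
    · exact (hw T rfl).elim
    · obtain ⟨i, hi, h⟩ := hz
      exact (le_trans (hk i hi) h : k0 ≤ Z)
    · rcases hz with h | ⟨i, hi, h⟩
      · exact h
      · exact (le_trans (hk i hi) h : k0 ≤ Z)
  · exfalso
    rcases z' with Z' | _ | _
    · rcases w with T | _ | _
      · exact hw T rfl
      · exact hinc _ hz' le_rfl
      · have h0 : k0 ≤ Z' := by
          rcases hz' with h | ⟨i, hi, h⟩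
          · exact h
          · exact le_trans (hk i hi) h
        obtain ⟨i, hi, U, h1, h2⟩ := hC Z' h0
        exact hinc (old U) ⟨i, hi, h2⟩ h1
    · exact hinc _ le_rfl le_rfl
    · exact hinc kp le_rfl (show (rt : NW k0 ks N).le kp from trivial)
  · exfalso
    rcases w with T | _ | _
    · exact hw T rfl
    · exact (hz : False).elim
    · exact hinc z' hz' le_rfl

section forced

variable (hk : ∀ i ≤ N, k0 ≤ ks i) (hC : Cmp k0 ks N) {V2 : ℕ → NW k0 ks N → Prop}
  (hV2 : Val V2)

include hk hC hV2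

theorem newT {w : NW k0 ks N} (hw : ∀ T, w ≠ old T) (h0 : frc V2 fT (old k0)) : frc V2 fT w := by
  by_contra hn
  simp only [fT, frc, frc_neg, not_or, not_forall, not_not] at hn
  obtain ⟨⟨z0, hz0, h1⟩, ⟨z1, hz1, h2, h2'⟩, z2, hz2, h3, h3'⟩ := hn
  have i01 : ∀ u, z0 ≤ u → z1 ≤ u → False := fun u a b => h2 u b (hV2 0 _ _ a h1)
  have i12 : ∀ u, z1 ≤ u → z2 ≤ u → False := fun u a b => h3' u b (hV2 1 _ _ a h2')
  obtain ⟨_, _, g0⟩ := newpt hk hC hw hz0 hz1 i01
  obtain ⟨_, _, g1⟩ := newpt hk hC hw hz1 hz0 (fun u a b => i01 u b a)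
  obtain ⟨_, _, g2⟩ := newpt hk hC hw hz2 hz1 (fun u a b => i12 u b a)
  rcases h0 with h0 | h0 | h0
  · exact h0 _ g0 h1
  · exact h0 _ g1 ⟨h2, h2'⟩
  · exact h0 _ g2 ⟨h3, h3'⟩

theorem newL {w : NW k0 ks N} (hw : ∀ T, w ≠ old T) (h0 : frc V2 fL (old k0)) : frc V2 fL w := by
  by_contra hn
  simp only [fL, frc, frc_neg, not_or, not_forall, not_not] at hn
  obtain ⟨⟨z0, hz0, h1⟩, ⟨z1, hz1, h2, h2'⟩, z2, hz2, h3, h3'⟩ := hn
  have i01 : ∀ u, z0 ≤ u → z1 ≤ u → False := fun u a b => h2.1 u b (hV2 0 _ _ a h1)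
  have i02 : ∀ u, z0 ≤ u → z2 ≤ u → False := fun u a b => h3.1 u b (hV2 0 _ _ a h1)
  obtain ⟨_, _, g0⟩ := newpt hk hC hw hz0 hz1 i01
  obtain ⟨_, _, g1⟩ := newpt hk hC hw hz1 hz0 (fun u a b => i01 u b a)
  obtain ⟨_, _, g2⟩ := newpt hk hC hw hz2 hz0 (fun u a b => i02 u b a)
  rcases h0 with h0 | h0 | h0
  · exact h0 _ g0 h1
  · exact h2' (h0 _ g1 h2)
  · exact h3' (h0 _ g2 h3)

theorem newW (K : ℕ) {w : NW k0 ks N} (hw : ∀ T, w ≠ old T) (h0 : frc V2 (fW K) (old k0)) :
    frc V2 (fW K) w := by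
  by_contra hn
  have hn0 : ¬ frc V2 fn w := fun h => hn (Or.inl h)
  have hn1 : ¬ frc V2 (imp fn (var 1)) w := fun h => hn (Or.inr (Or.inl h))
  have hn2 : ¬ frc V2 (dj (fun j => imp (con fn (var (j + 1))) (var (j + 2))) (K + 1)) w :=
    fun h => hn (Or.inr (Or.inr (Or.inl h)))
  have hn3 : ¬ frc V2 (neg (con fn (var (K + 2)))) w := fun h => hn (Or.inr (Or.inr (Or.inr h)))
  simp only [fn, frc_neg, not_forall, not_not] at hn0
  obtain ⟨y, hy, h1⟩ := hn0
  have hinc : ∀ z, frc V2 fn z → ∀ u, z ≤ u → y ≤ u → False :=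
    fun z hz u a b => hz u a (frc_mono hV2 _ b h1)
  have hz : ∀ z, w ≤ z → frc V2 fn z → (old k0 : NW k0 ks N) ≤ z := by
    intro z hwz hfz
    obtain ⟨_, _, g⟩ := newpt hk hC hw hwz hy (hinc z hfz)
    exact g
  have hy' : (old k0 : NW k0 ks N) ≤ y := by
    rw [frc] at hn1
    push Not at hn1
    obtain ⟨z, hwz, hfz, _⟩ := hn1
    obtain ⟨_, _, g⟩ := newpt hk hC hw hy hwz (fun u a b => hinc z hfz u b a)
    exact g
  rcases h0 with h0 | h0 | h0 | h0
  · exact h0 _ hy' h1
  · exact hn1 (fun z hwz hfz => h0 z (hz z hwz hfz) hfz)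
  · rw [frc_dj] at h0 hn2
    obtain ⟨j, hj, h0⟩ := h0
    exact hn2 ⟨j, hj, fun z hwz hfz => h0 z (hz z hwz hfz.1) hfz⟩
  · exact hn3 (fun z hwz hfz => h0 z (hz z hwz hfz.1) hfz)

end forced

end NW

/-- `W`, `T`, `L` imply the axiom of a machine -/
theorem frc_fB_of {W : Type*} [Preorder W] {V : ℕ → W → Prop} (K : ℕ) (l : List Ins)
    (c : ℕ → ℕ) (hT : ∀ w, frc V fT w) (hL : ∀ w, frc V fL w) (hW : ∀ w, frc V (fW K) w) (w : W) :
    frc V (fB K l c) w := by
  refine ⟨⟨hT w, hL w, ?_, ?_⟩, fun w' _ _ => hW w'⟩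
  · rw [frc_cj]
    exact fun i _ w' _ _ => hW w'
  · rw [frc_lc]
    intro a ha
    obtain ⟨I, _, rfl⟩ := List.mem_map.1 ha
    unfold Ins.ax
    split_ifs
    · exact Or.inr (Or.inr (hW w))
    · exact fun w' _ _ => Or.inr (Or.inr (hW w'))

/-- a finite chain has a least element -/
theorem exists_min {α : Type*} [Preorder α] (f : ℕ → α) (N : ℕ)
    (h : ∀ i ≤ N, ∀ j ≤ N, f i ≤ f j ∨ f j ≤ f i) : ∃ i ≤ N, ∀ j ≤ N, f i ≤ f j := by
  induction N with
  | zero =>
    refine ⟨0, le_rfl, fun j hj => ?_⟩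
    have : j = 0 := by omega
    rw [this]
  | succ N ih =>
    obtain ⟨i, hi, hmin⟩ := ih fun i hi j hj => h i (by omega) j (by omega)
    rcases h i (by omega) (N + 1) le_rfl with h1 | h1
    · refine ⟨i, by omega, fun j hj => ?_⟩
      rcases Nat.lt_or_eq_of_le hj with h2 | h2
      · exact hmin j (by omega)
      · rw [h2]; exact h1
    · refine ⟨N + 1, le_rfl, fun j hj => ?_⟩
      rcases Nat.lt_or_eq_of_le hj with h2 | h2
      · exact h1.trans (hmin j (by omega))
      · rw [h2]

/-- If `W` is derivable then all of Visser's rules are admissible. -/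
theorem admits (K : ℕ) (l : List Ins) (c : ℕ → ℕ) (hW : Logic (fB K l c) (fW K)) :
    AdmitsVisser (fB K l c) := by
  intro n σ hprem
  by_contra hconc
  set A := fB K l c with hA
  obtain ⟨k0, hk0⟩ := exists_pt_of_not_logic hconc
  rw [vConc, subst, subst_bigOr] at hk0
  rw [vPrem, subst] at hprem
  set a := (vA n).subst σ with ha
  have e1 : (vr).subst σ = σ 0 := rfl
  have e2 : ∀ j, (imp (vA n) (vp j)).subst σ = imp a (σ (2 * j + 1)) := fun j => rfl
  simp only [e1, e2] at hk0
  have hr : σ 0 ∉ k0.s := fun h => hk0 (k0.mem_or.2 (Or.inr h))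
  have hj : ∀ j, j ≤ n + 2 → imp a (σ (2 * j + 1)) ∉ k0.s := by
    intro j hj h
    apply hk0
    rw [← PT.truth, frc, frc_bigOr]
    exact Or.inl ⟨j, hj, (PT.truth _ _).2 h⟩
  have hex : ∀ j, ∃ T : PT A, j ≤ n + 2 → k0 ≤ T ∧ a ∈ T.s ∧ σ (2 * j + 1) ∉ T.s := by
    intro j
    by_cases h : j ≤ n + 2
    · have h1 := hj j h
      rw [PT.mem_imp] at h1
      push Not at h1
      obtain ⟨T, h2, h3, h4⟩ := h1
      exact ⟨T, fun _ => ⟨h2, h3, h4⟩⟩
    · exact ⟨k0, fun h' => absurd h' h⟩
  choose ks hks using hex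
  have hvA : a = bigAnd (fun i => imp (σ (2 * i + 1)) (σ (2 * i + 2))) n := by
    rw [ha, vA, subst_bigAnd]
    rfl
  by_cases hmin : ∃ i ≤ n + 2, ∀ j ≤ n + 2, ks i ≤ ks j
  · obtain ⟨i, hi, hmin⟩ := hmin
    have h1 : ∀ j ≤ n + 2, σ (2 * j + 1) ∉ (ks i).s := fun j hj' h => (hks j hj').2.2 (hmin j hj' h)
    have h2 := k0.mem_thm hprem
    rcases k0.mem_or.1 h2 with h3 | h3
    · have h4 := (ks i).mem_mp ((hks i hi).1 h3) (hks i hi).2.1
      rcases (ks i).mem_or.1 h4 with h5 | h5
      · exact h1 (n + 1) (by omega) h5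
      · exact h1 (n + 2) le_rfl h5
    · exact hr h3
  · -- two incomparable theories
    have hinc : ∃ i ≤ n + 2, ∃ j ≤ n + 2, ¬ ks i ≤ ks j ∧ ¬ ks j ≤ ks i := by
      by_contra hcon
      push Not at hcon
      apply hmin
      refine exists_min ks (n + 2) fun i hi j hj' => ?_
      by_cases h : ks i ≤ ks j
      · exact Or.inl h
      · exact Or.inr (hcon i hi j hj' h)
    obtain ⟨i1, hi1, i2, hi2, hn1, hn2⟩ := hinc
    have hinst : ∀ (τ : ℕ → Form) (T : PT A), A.subst τ ∈ T.s := fun τ T => T.mem_thm (Logic.inst τ)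
    have hC : NW.Cmp k0 ks (n + 2) := by
      intro y hy
      by_contra hcon
      push Not at hcon
      obtain ⟨a1, ha1, hb1⟩ := PT.exists_sep y (ks i1) (fun U h1 h2 => hcon i1 hi1 U h1 h2)
      obtain ⟨a2, ha2, hb2⟩ := PT.exists_sep y (ks i2) (fun U h1 h2 => hcon i2 hi2 U h1 h2)
      obtain ⟨s, hs, hs'⟩ := Set.not_subset.1 hn1
      obtain ⟨t, ht, ht'⟩ := Set.not_subset.1 hn2
      have h3 : frc (PT.cV A) (A.subst (fun i => if i = 0 then con a1 a2 else if i = 1 then s
        else t)) k0 := (PT.truth _ _).2 (hinst _ k0)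
      rw [frc_subst] at h3
      have h4 : frc _ fL k0 := h3.1.2.1
      have q1 : frc (PT.cV A) (neg (con a1 a2)) (ks i1) := by
        intro T hT hq
        exact T.cons (T.mem_mp (hT hb1) ((PT.truth _ _).1 hq.1))
      have q2 : frc (PT.cV A) (neg (con a1 a2)) (ks i2) := by
        intro T hT hq
        exact T.cons (T.mem_mp (hT hb2) ((PT.truth _ _).1 hq.2))
      rcases h4 with h4 | h4 | h4
      · exact h4 y hy ((PT.truth _ _).2 (y.mem_and.2 ⟨ha1, ha2⟩))
      · have := h4 (ks i1) (hks i1 hi1).1 ⟨q1, (PT.truth _ _).2 hs⟩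
        exact ht' ((PT.truth _ _).1 this)
      · have := h4 (ks i2) (hks i2 hi2).1 ⟨q2, (PT.truth _ _).2 ht⟩
        exact hs' ((PT.truth _ _).1 this)
    have hk : ∀ i ≤ n + 2, k0 ≤ ks i := fun i hi => (hks i hi).1
    -- the new model
    let V : ℕ → NW k0 ks (n + 2) → Prop := NW.V
    have hV : Val V := NW.V_val
    have hall : ∀ (τ : ℕ → Form) (w : NW k0 ks (n + 2)), frc V (A.subst τ) w := by
      intro τ
      have hV2 := val_subst hV τ
      have hold : ∀ T : PT A, frc (fun i => frc V (τ i)) A (NW.old T) := by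
        intro T
        rw [← frc_subst]
        exact (NW.truth T _).2 (hinst τ T)
      have holdW : ∀ T : PT A, frc (fun i => frc V (τ i)) (fW K) (NW.old T) := by
        intro T
        rw [← frc_subst]
        exact (NW.truth T _).2 (T.mem_thm (hW.sub τ))
      have hTw : ∀ w, frc (fun i => frc V (τ i)) fT w := by
        intro w
        rcases w with T | _ | _
        · exact (hold T).1.1
        · exact NW.newT hk hC hV2 (fun T h => by cases h) (hold k0).1.1
        · exact NW.newT hk hC hV2 (fun T h => by cases h) (hold k0).1.1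
      have hLw : ∀ w, frc (fun i => frc V (τ i)) fL w := by
        intro w
        rcases w with T | _ | _
        · exact (hold T).1.2.1
        · exact NW.newL hk hC hV2 (fun T h => by cases h) (hold k0).1.2.1
        · exact NW.newL hk hC hV2 (fun T h => by cases h) (hold k0).1.2.1
      have hWw : ∀ w, frc (fun i => frc V (τ i)) (fW K) w := by
        intro w
        rcases w with T | _ | _
        · exact holdW T
        · exact NW.newW hk hC hV2 K (fun T h => by cases h) (holdW k0)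
        · exact NW.newW hk hC hV2 K (fun T h => by cases h) (holdW k0)
      intro w
      rw [frc_subst]
      exact frc_fB_of K l c hTw hLw hWw w
    have hp := sound hV hall hprem NW.rt
    have hold : ∀ (i : ℕ), i ≤ n + 2 → (NW.kp : NW k0 ks (n + 2)) ≤ NW.old (ks i) :=
      fun i hi => ⟨i, hi, le_refl (ks i)⟩
    have hnp : ∀ j ≤ n + 2, ¬ frc V (σ (2 * j + 1)) NW.kp := by
      intro j hj' h
      exact (hks j hj').2.2 ((NW.truth _ _).1 (frc_mono hV _ (hold j hj') h))
    rcases hp with hp | hp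
    · have h1 : frc V a NW.kp := by
        rw [hvA, frc_bigAnd]
        intro i hi w hw hpi
        rcases w with T | _ | _
        · obtain ⟨j, hj', hT⟩ := hw
          have h2 : a ∈ T.s := hT (hks j hj').2.1
          have h3 := (NW.truth (k0 := k0) (ks := ks) (N := n + 2) T a).2 h2
          rw [hvA, frc_bigAnd] at h3
          exact h3 i hi _ le_rfl hpi
        · exact (hnp i (by omega) hpi).elim
        · exact (hw : False).elim
      rcases hp NW.kp (show (NW.rt : NW k0 ks (n + 2)).le NW.kp from trivial) h1 with h2 | h2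
      · exact hnp (n + 1) (by omega) h2
      · exact hnp (n + 2) le_rfl h2
    · have h1 : (NW.rt : NW k0 ks (n + 2)) ≤ NW.old k0 := Or.inl (le_refl k0)
      exact hr ((NW.truth _ _).1 (frc_mono hV _ h1 hp))

end Pool.Agent.W898.VR
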