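import Pool.Agent.W898.VR.Mach

/-!
# Computability of the reduction
-/

set_option autoImplicit false

namespace Pool.Agent.W898.VR

open Form Pool.Agent.H502.PcSrc

/-! ### the numbering is a bijection -/

theorem num_inj : Function.Injective num := by
  intro a
  induction a with
  | var i =>
    intro b h
    cases b <;> simp only [num] at h
    case var j =>
      have : i = j := by omega
      rw [this]
    all_goals omega
  | bot =>
    intro b h
    cases b <;> simp only [num] at h
    · omega
    · rfl
    all_goals omega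
  | con a1 a2 ih1 ih2 =>
    intro b h
    cases b <;> simp only [num] at h
    case con b1 b2 =>
      have h1 : Nat.pair (num a1) (num a2) = Nat.pair (num b1) (num b2) := by omega
      rw [Nat.pair_eq_pair] at h1
      rw [ih1 h1.1, ih2 h1.2]
    all_goals omega
  | dis a1 a2 ih1 ih2 =>
    intro b h
    cases b <;> simp only [num] at h
    case dis b1 b2 =>
      have h1 : Nat.pair (num a1) (num a2) = Nat.pair (num b1) (num b2) := by omega
      rw [Nat.pair_eq_pair] at h1
      rw [ih1 h1.1, ih2 h1.2]
    all_goals omega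
  | imp a1 a2 ih1 ih2 =>
    intro b h
    cases b <;> simp only [num] at h
    case imp b1 b2 =>
      have h1 : Nat.pair (num a1) (num a2) = Nat.pair (num b1) (num b2) := by omega
      rw [Nat.pair_eq_pair] at h1
      rw [ih1 h1.1, ih2 h1.2]
    all_goals omega

theorem num_surj : Function.Surjective num := by
  intro k
  induction k using Nat.strong_induction_on with
  | _ k ih =>
    rcases Nat.eq_zero_or_pos k with h0 | h0
    · exact ⟨bot, by rw [num, h0]⟩
    · obtain ⟨m, hm⟩ : ∃ m, k = 4 * m + 1 ∨ k = 4 * m + 2 ∨ k = 4 * m + 3 ∨ k = 4 * m + 4 :=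
        ⟨(k - 1) / 4, by omega⟩
      rcases hm with hm | hm
      · exact ⟨var m, by rw [num, hm]⟩
      · have h1 : m.unpair.1 < k := lt_of_le_of_lt (Nat.unpair_left_le m) (by omega)
        have h2 : m.unpair.2 < k := lt_of_le_of_lt (Nat.unpair_right_le m) (by omega)
        obtain ⟨a, ha⟩ := ih _ h1
        obtain ⟨b, hb⟩ := ih _ h2
        have h3 : Nat.pair (num a) (num b) = m := by rw [ha, hb, Nat.pair_unpair]
        rcases hm with hm | hm | hm
        · exact ⟨con a b, by rw [num, h3, hm]⟩
        · exact ⟨dis a b, by rw [num, h3, hm]⟩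
        · exact ⟨imp a b, by rw [num, h3, hm]⟩

theorem num_bij : Function.Bijective num := ⟨num_inj, num_surj⟩

/-! ### computable families of formulas -/

/-- computable family of formulas -/
def CF (F : ℕ → Form) : Prop := Computable (fun n => num (F n))

theorem CF.cst (a : Form) : CF (fun _ => a) := Computable.const _

theorem pair_comp {f g : ℕ → ℕ} (hf : Computable f) (hg : Computable g) :
    Computable (fun n => Nat.pair (f n) (g n)) :=
  Primrec₂.natPair.to_comp.comp hf hg

theorem lin_comp (r : ℕ) : Primrec (fun m : ℕ => 4 * m + r) :=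
  Primrec.nat_add.comp (Primrec.nat_mul.comp (Primrec.const 4) Primrec.id) (Primrec.const r)

theorem CF.con' {F G : ℕ → Form} (hF : CF F) (hG : CF G) : CF (fun n => con (F n) (G n)) :=
  (lin_comp 2).to_comp.comp (pair_comp hF hG)

theorem CF.dis' {F G : ℕ → Form} (hF : CF F) (hG : CF G) : CF (fun n => dis (F n) (G n)) :=
  (lin_comp 3).to_comp.comp (pair_comp hF hG)

theorem CF.imp' {F G : ℕ → Form} (hF : CF F) (hG : CF G) : CF (fun n => imp (F n) (G n)) :=
  (lin_comp 4).to_comp.comp (pair_comp hF hG)

theorem CF.cj' {f : ℕ → ℕ → Form} (K : ℕ) (h : ∀ i < K, CF (fun n => f n i)) :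
    CF (fun n => cj (f n) K) := by
  induction K with
  | zero => exact CF.cst _
  | succ K ih => exact CF.con' (ih fun i hi => h i (by omega)) (h K (by omega))

theorem CF.dj' {f : ℕ → ℕ → Form} (K : ℕ) (h : ∀ i < K, CF (fun n => f n i)) :
    CF (fun n => dj (f n) K) := by
  induction K with
  | zero => exact CF.cst _
  | succ K ih => exact CF.dis' (ih fun i hi => h i (by omega)) (h K (by omega))

/-- computable family of pairs -/
def CF2 (F : ℕ → Form × Form) : Prop := CF (fun n => (F n).1) ∧ CF (fun n => (F n).2)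

theorem CF2.cst (p : Form × Form) : CF2 (fun _ => p) := ⟨CF.cst _, CF.cst _⟩

theorem cf_fE (K : ℕ) {x : ℕ → ℕ → Form × Form} (h : ∀ i < K, CF2 (fun n => x n i)) :
    CF (fun n => fE K (x n)) := by
  refine CF.imp' (CF.cj' K fun i hi => ?_) (CF.dj' K fun i hi => ?_)
  · obtain ⟨h1, h2⟩ := h i hi
    exact CF.imp' (CF.cst _) (CF.dis' h2 (CF.imp' h2 h1))
  · obtain ⟨h1, h2⟩ := h i hi
    exact CF.dis' (CF.imp' (CF.con' (CF.cst _) h1) h2)
      (CF.dis' (CF.imp' (CF.con' (CF.cst _) h2) h1)
        (CF.imp' (CF.con' (CF.cst _) (CF.imp' h2 h1)) h1))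

/-- one step on the codes -/
def cstep (p : ℕ × ℕ) : ℕ × ℕ := (4 * Nat.pair p.1 p.2 + 3, 4 * Nat.pair p.2 p.1 + 4)

theorem cstep_primrec : Primrec cstep :=
  Primrec.pair
    ((lin_comp 3).comp (Primrec₂.natPair.comp Primrec.fst Primrec.snd))
    ((lin_comp 4).comp (Primrec₂.natPair.comp Primrec.snd Primrec.fst))

theorem num_fsuc (p : Form × Form) (k : ℕ) :
    (num (fsuc^[k] p).1, num (fsuc^[k] p).2) = cstep^[k] (num p.1, num p.2) := by
  induction k with
  | zero => rfl
  | succ k ih =>
    rw [Function.iterate_succ_apply', Function.iterate_succ_apply', ← ih]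
    rfl

theorem numf_comp (K i : ℕ) {N : ℕ → ℕ} (hN : Computable N) : CF2 (fun n => numf K i (N n)) := by
  have h1 : Primrec (fun k : ℕ => cstep^[k] (num (fS K i), num (fH K))) :=
    Primrec.nat_iterate Primrec.id (Primrec.const _) (cstep_primrec.comp Primrec.snd).to₂
  have h2 : Computable (fun n : ℕ => cstep^[N n] (num (fS K i), num (fH K))) :=
    h1.to_comp.comp hN
  have h3 : ∀ n, (num (numf K i (N n)).1, num (numf K i (N n)).2) =
      cstep^[N n] (num (fS K i), num (fH K)) := fun n => num_fsuc _ _
  constructor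
  · exact (Computable.fst.comp h2).of_eq fun n => by rw [← h3]
  · exact (Computable.snd.comp h2).of_eq fun n => by rw [← h3]

theorem cf_fB (K : ℕ) (l : List Ins) {c : ℕ → ℕ → ℕ} (hc : ∀ i < K, Computable (fun n => c n i)) :
    CF (fun n => fB K l (c n)) :=
  CF.con' (CF.cst _) (CF.imp' (cf_fE K fun i hi => numf_comp K i (hc i hi)) (CF.cst _))

/-- **The problem is undecidable.** -/
theorem undecidable :
    ¬ ComputablePred (fun k : ℕ => ∃ A : Form, num A = k ∧ AdmitsVisser A) := by
  intro hdec
  obtain ⟨Q, hQ, M, q0, N, _, hN, hund⟩ := exists_sys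
  apply hund
  let _ : Fintype (RS M) := Fintype.ofFinite _
  set code : RS M → ℕ := fun p => (Fintype.equivFin (RS M) p : ℕ) with hcode
  have hc : Function.Injective code := fun p q h =>
    (Fintype.equivFin (RS M)).injective (Fin.ext h)
  set p0 : RS M := RS.d1 q0 (z0 M)
  set cn : ℕ → Bool × Bool → ℤ := fun n => v4 (N n) 0 0 0 with hcn
  have hred : ManyOneReducible (fun n => M.Halts (some q0) (ini (N n)))
      (fun k : ℕ => ∃ A : Form, num A = k ∧ AdmitsVisser A) := by
    refine ⟨fun n => num (fB 5 (prog (dm M q0 0) code) (cfg code p0 (cn n))), ?_, ?_⟩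
    · refine cf_fB 5 _ ?_
      intro i hi
      rcases Nat.eq_zero_or_pos i with h0 | h0
      · subst h0
        refine hN.of_eq fun n => ?_
        change N n = (cn n (false, true)).toNat
        simp [hcn, v4]
      · have e : ∀ n, cfg code p0 (cn n) i = cfg code p0 (cn 0) i := by
          intro n
          unfold cfg
          by_cases hi4 : i < 4
          · rw [if_pos hi4, if_pos hi4]
            have : i = 1 ∨ i = 2 ∨ i = 3 := by omega
            rcases this with rfl | rfl | rfl <;> rfl
          · rw [if_neg hi4, if_neg hi4]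
        exact (Computable.const (cfg code p0 (cn 0) i)).of_eq fun n => (e n).symm
    · intro n
      have h1 := dm_halts_iff M q0 0 q0 (ini (N n))
      have h2 : (v4 ((ini (N n) true : ℕ) : ℤ) ((ini (N n) false : ℕ) : ℤ) 0 0 :
          Bool × Bool → ℤ) = cn n := by
        simp [ini, hcn]
      rw [h2] at h1
      have h3 : ∀ j, 0 ≤ cn n j := by
        rintro ⟨j1, j2⟩
        cases j1 <;> cases j2 <;> simp [hcn, v4]
      have h4 := admits_iff (dm M q0 0) code hc p0 (cn n) h3
      constructor
      · intro h
        exact ⟨_, rfl, h4.2 (h1.2 h)⟩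
      · rintro ⟨A, hA, hadm⟩
        have := num_inj hA
        rw [this] at hadm
        exact h1.1 (h4.1 hadm)
  exact ComputablePred.computable_of_manyOneReducible hred hdec

end Pool.Agent.W898.VR
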