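import Pool.Agent.W898.VR.Defs

/-!
# Definitions: deductive systems, admissible rules, (hereditary) structural completeness
-/

set_option autoImplicit false

namespace Pool.Agent.W898.VR

open Form

/-- The consequence relation of the deductive system `S_A = ⟨Ax^i + A, MP⟩`: `Cn A Γ a` holds iff `a`
can be derived from `Γ`, the substitution instances of the axioms of intuitionistic propositional
calculus and the substitution instances of `A` by modus ponens. -/
inductive Cn (A : Form) (Γ : Set Form) : Form → Prop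
  | hyp (a : Form) : a ∈ Γ → Cn A Γ a
  | inst (σ : ℕ → Form) : Cn A Γ (A.subst σ)
  | k (a b : Form) : Cn A Γ (imp a (imp b a))
  | s (a b c : Form) : Cn A Γ (imp (imp a (imp b c)) (imp (imp a b) (imp a c)))
  | andL (a b : Form) : Cn A Γ (imp (con a b) a)
  | andR (a b : Form) : Cn A Γ (imp (con a b) b)
  | andI (a b : Form) : Cn A Γ (imp a (imp b (con a b)))
  | orL (a b : Form) : Cn A Γ (imp a (dis a b))
  | orR (a b : Form) : Cn A Γ (imp b (dis a b))
  | orE (a b c : Form) : Cn A Γ (imp (imp a c) (imp (imp b c) (imp (dis a b) c)))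
  | botE (a : Form) : Cn A Γ (imp bot a)
  | mp (a b : Form) : Cn A Γ (imp a b) → Cn A Γ a → Cn A Γ b

/-- `d` is a deductive system: a finitary, substitution-invariant consequence relation. -/
structure IsDS (d : Set Form → Form → Prop) : Prop where
  refl : ∀ Γ a, a ∈ Γ → d Γ a
  cut : ∀ Γ Δ a, (∀ b ∈ Δ, d Γ b) → d Δ a → d Γ a
  fin : ∀ Γ a, d Γ a → ∃ Δ : Set Form, Δ ⊆ Γ ∧ Δ.Finite ∧ d Δ a
  sub : ∀ (σ : ℕ → Form) Γ a, d Γ a → d ((fun b => b.subst σ) '' Γ) (a.subst σ)

/-- The rule `Γ / a` is admissible in `d`: whenever all formulas of `σ(Γ)` are theorems, so is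
`σ(a)`. -/
def Adm (d : Set Form → Form → Prop) (Γ : Set Form) (a : Form) : Prop :=
  ∀ σ : ℕ → Form, (∀ b ∈ Γ, d ∅ (b.subst σ)) → d ∅ (a.subst σ)

/-- `d` is structurally complete: every (finite) admissible rule is derivable. -/
def StrC (d : Set Form → Form → Prop) : Prop :=
  ∀ Γ : Set Form, Γ.Finite → ∀ a, Adm d Γ a → d Γ a

/-- `d` is hereditarily structurally complete: every deductive system extending `d` is structurally
complete. -/
def HStrC (d : Set Form → Form → Prop) : Prop :=
  ∀ d' : Set Form → Form → Prop, IsDS d' →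
    (∀ Γ : Set Form, Γ.Finite → ∀ a, d Γ a → d' Γ a) → StrC d'

/-- `c` is the structural completion of `d`: the deductive system with the same theorems whose
derivable rules are exactly the rules admissible in `d`. -/
structure Compl (d c : Set Form → Form → Prop) : Prop where
  ds : IsDS c
  thm : ∀ a, c ∅ a ↔ d ∅ a
  rule : ∀ Γ : Set Form, Γ.Finite → ∀ a, c Γ a ↔ Adm d Γ a

end Pool.Agent.W898.VR
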