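import Mathlib

/-!
# Definitions: intuitionistic formulas, the logics `L_A`, Visser's rules
-/

set_option autoImplicit false

namespace Pool.Agent.W898.VR

/-- Formulas of intuitionistic propositional logic over the variables `p_0, p_1, p_2, ...`. -/
inductive Form : Type
  | var : ℕ → Form
  | bot : Form
  | con : Form → Form → Form  -- conjunction
  | dis : Form → Form → Form  -- disjunction
  | imp : Form → Form → Form

namespace Form

/-- Simultaneous substitution of formulas for the variables. -/
def subst (σ : ℕ → Form) : Form → Form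
  | var i => σ i
  | bot => bot
  | con a b => con (subst σ a) (subst σ b)
  | dis a b => dis (subst σ a) (subst σ b)
  | imp a b => imp (subst σ a) (subst σ b)

/-- `f 0 ∧ f 1 ∧ ... ∧ f n` -/
def bigAnd (f : ℕ → Form) : ℕ → Form
  | 0 => f 0
  | n + 1 => con (bigAnd f n) (f (n + 1))

/-- `f 0 ∨ f 1 ∨ ... ∨ f n` -/
def bigOr (f : ℕ → Form) : ℕ → Form
  | 0 => f 0
  | n + 1 => dis (bigOr f n) (f (n + 1))

end Form

open Form

/-- The logic `L_A = ⟨Ax^i + A, MP⟩`: the smallest set of formulas that contains the axioms of
intuitionistic propositional calculus and all substitution instances of `A` and is closed under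
modus ponens. -/
inductive Logic (A : Form) : Form → Prop
  | inst (σ : ℕ → Form) : Logic A (A.subst σ)
  | k (a b : Form) : Logic A (imp a (imp b a))
  | s (a b c : Form) : Logic A (imp (imp a (imp b c)) (imp (imp a b) (imp a c)))
  | andL (a b : Form) : Logic A (imp (con a b) a)
  | andR (a b : Form) : Logic A (imp (con a b) b)
  | andI (a b : Form) : Logic A (imp a (imp b (con a b)))
  | orL (a b : Form) : Logic A (imp a (dis a b))
  | orR (a b : Form) : Logic A (imp b (dis a b))
  | orE (a b c : Form) : Logic A (imp (imp a c) (imp (imp b c) (imp (dis a b) c)))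
  | botE (a : Form) : Logic A (imp bot a)
  | mp (a b : Form) : Logic A (imp a b) → Logic A a → Logic A b

/-- the variable `p_{i+1}` of Visser's rules -/
def vp (i : ℕ) : Form := var (2 * i + 1)

/-- the variable `q_{i+1}` of Visser's rules -/
def vq (i : ℕ) : Form := var (2 * i + 2)

/-- the variable `r` of Visser's rules -/
def vr : Form := var 0

/-- `⋀_{i ≤ n} (p_{i+1} → q_{i+1})`, a conjunction of `n + 1` implications -/
def vA (n : ℕ) : Form := bigAnd (fun i => imp (vp i) (vq i)) n

/-- the premise `(⋀_{i=1}^{n+1} (p_i → q_i) → p_{n+2} ∨ p_{n+3}) ∨ r` of Visser's rule `V_{n+1}` -/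
def vPrem (n : ℕ) : Form := dis (imp (vA n) (dis (vp (n + 1)) (vp (n + 2)))) vr

/-- the conclusion `⋁_{j=1}^{n+3} (⋀_{i=1}^{n+1} (p_i → q_i) → p_j) ∨ r` of Visser's rule
`V_{n+1}` -/
def vConc (n : ℕ) : Form := dis (bigOr (fun j => imp (vA n) (vp j)) (n + 2)) vr

/-- The rule `B / C` is admissible in `L_A`. -/
def Admissible (A B C : Form) : Prop := ∀ σ : ℕ → Form, Logic A (B.subst σ) → Logic A (C.subst σ)

/-- `L_A` admits all of Visser's rules `V_1, V_2, V_3, ...`. -/
def AdmitsVisser (A : Form) : Prop := ∀ n : ℕ, Admissible A (vPrem n) (vConc n)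

/-- The Goedel numbering of the formulas. -/
def num : Form → ℕ
  | bot => 0
  | var i => 4 * i + 1
  | con a b => 4 * Nat.pair (num a) (num b) + 2
  | dis a b => 4 * Nat.pair (num a) (num b) + 3
  | imp a b => 4 * Nat.pair (num a) (num b) + 4

end Pool.Agent.W898.VR
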