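import Pool.Agent.W898.VR.Non
import Pool.Agent.W898.VR.Comp

/-!
# Assembly: hereditary structural completeness of structural completions
-/

set_option autoImplicit false

namespace Pool.Agent.W898.VR

open Form

/-! ### the additional axiom in the frame of an infinite run -/

section pt

variable {K : ℕ} {κ : ℕ → ℕ → ℕ}

open Pt

variable {V : ℕ → Pt K κ → Prop} (P : Pin V)

include P

theorem e_pi {w : Pt K κ} (h : frc V (fpi K) w) : ∃ i, w = a i := (e_fn P w).1 h.1

theorem e_pi_of {j : Fin (K + 3)} (hj : (j : ℕ) ≤ K + 1) : frc V (fpi K) (a j : Pt K κ) := by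
  refine ⟨(e_fn P _).2 ⟨j, rfl⟩, Or.inl ?_⟩
  change V 1 (a j)
  rw [P.p 1 le_rfl (by omega)]
  omega

theorem e_not_pi : ¬ frc V (fpi K) (a ⟨K + 2, by omega⟩ : Pt K κ) := by
  rintro ⟨_, h | h | h⟩
  · have h1 := (P.p 1 le_rfl (by omega) _).1 h
    simp at h1
  · rw [frc_dj] at h
    obtain ⟨j, hj, h⟩ := h
    have h1 := h (a ⟨K + 1 - j, by omega⟩) (by change K + 1 - j ≤ K + 2; omega)
      ((P.p (j + 1) (by omega) (by omega) _).2 (by simp only; omega))
    have h2 := (P.p (j + 2) (by omega) (by omega) _).1 h1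
    simp only at h2
    omega
  · refine h (a ⟨0, by omega⟩) (Nat.zero_le _) ((P.p (K + 2) (by omega) le_rfl _).2 ?_)
    simp

theorem e_neg_pi : frc V (neg (fpi K)) (b : Pt K κ) := by
  intro w hw h
  obtain ⟨i, hi⟩ := e_pi P h
  rw [b_le hw] at hi
  cases hi

theorem e_not_neg {w : Pt K κ} (h : w ≤ a ⟨0, by omega⟩) : ¬ frc V (neg (fpi K)) w := by
  intro h1
  exact h1 _ h (e_pi_of P (by simp))

theorem e_not_nn {w : Pt K κ} (h : w ≤ b) : ¬ frc V (neg (neg (fpi K))) w := by
  intro h1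
  exact h1 _ h (e_neg_pi P)

theorem e_nn (j : Fin (K + 3)) : frc V (neg (neg (fpi K))) (a j : Pt K κ) := by
  intro w hw h
  obtain ⟨j', rfl, _⟩ := a_le hw
  exact e_not_neg P (Nat.zero_le _) h

/-- the formula `frho` is refuted at the root -/
theorem e_rho : ¬ frc V (frho K) (r : Pt K κ) := by
  rintro (h | h | h)
  · exact e_not_neg P (r_le _) h
  · exact e_not_nn P (r_le _) h
  · exact e_not_pi P (h _ (r_le _) (e_nn P _))

omit P in
theorem valid_Y (hV : Val V) (w : Pt K κ) : frc V (fY K) w := by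
  intro w1 _ h1
  by_contra h2
  obtain ⟨rfl, P⟩ := pin hV h2
  have h3 : frc V (imp (neg (neg (fpi K))) (fpi K)) (e 0 : Pt K κ) := by
    intro y hy h
    rcases le_b y with h4 | ⟨j, rfl⟩
    · exact (e_not_nn P h4 h).elim
    · have hj : (j : ℕ) ≤ K + 1 := hy
      exact e_pi_of P hj
  rcases h1 (e 0) (r_le _) h3 with h4 | h4
  · refine e_not_neg P ?_ h4
    change 0 ≤ K + 1
    omega
  · exact e_not_nn P (show (e 0 : Pt K κ) ≤ b from trivial) h4

end pt

theorem not_rho {K : ℕ} (hK : 2 ≤ K) {κ : ℕ → ℕ → ℕ} {l : List Ins} {c0 : ℕ → ℕ}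
    (R : Run K l c0 κ) : ¬ Logic (fBY K l c0) (frho K) := by
  intro h
  have h1 := sound (V0_val (K := K) (κ := κ)) (fun σ w => ?_) h Pt.r
  · exact e_rho V0_pin h1
  · rw [frc_subst]
    exact ⟨frame_B hK R (val_subst V0_val σ) w, valid_Y (val_subst V0_val σ) w⟩

theorem fBY_fT (K : ℕ) (l : List Ins) (c : ℕ → ℕ) : Logic (fBY K l c) fT :=
  Logic.le (fBY_fB K l c) (fB_fT K l c)

theorem fBY_fL (K : ℕ) (l : List Ins) (c : ℕ → ℕ) : Logic (fBY K l c) fL :=
  Logic.le (fBY_fB K l c) (fB_fL K l c)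

theorem fBY_fY (K : ℕ) (l : List Ins) (c : ℕ → ℕ) : Logic (fBY K l c) (fY K) :=
  Logic.mp _ _ (Logic.andR _ _) (logic_self _)

/-- the case of an infinite run -/
theorem not_hsc {K : ℕ} (hK : 2 ≤ K) {κ : ℕ → ℕ → ℕ} {l : List Ins} {c0 : ℕ → ℕ}
    (R : Run K l c0 κ) (c : Set Form → Form → Prop) (hc : Compl (Cn (fBY K l c0)) c) :
    ¬ HStrC c :=
  not_hstr (by omega) (fBY_fT K l c0) (fBY_fL K l c0) (fA0_fBY K l c0) (fBY_fY K l c0)
    (not_rho hK R) c hc

/-- If all of Visser's rules are admissible then the structural completion is hereditarily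
structurally complete. -/
theorem hsc_of_admits {A : Form} (h : AdmitsVisser A) : HStrC (compl A) := by
  intro d hd hext
  have hadm : ∀ Γ : Set Form, Γ.Finite → ∀ a, Adm (Cn A) Γ a → d Γ a := fun Γ hΓ a ha =>
    hext Γ hΓ a (((compl_compl A).rule Γ hΓ a).2 ha)
  refine visser_sc d hd (fun a ha => ?_) (fun a b => ?_) (fun n => ?_)
  · refine hadm ∅ Set.finite_empty a ?_
    rw [adm_iff]
    exact fun σ _ => (logic_top_le ha).sub σ
  · refine hadm _ (Set.toFinite _) b ?_
    rw [adm_iff]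
    intro σ hσ
    exact Logic.mp _ _ (hσ _ (Set.mem_insert _ _)) (hσ _ (Set.mem_insert_of_mem _ rfl))
  · refine hadm _ (Set.finite_singleton _) _ ?_
    rw [adm_iff]
    exact fun σ hσ => h n σ (hσ _ rfl)

theorem hsc_of_halts {K : ℕ} {l : List Ins} {c0 : ℕ → ℕ} (h : HaltsFrom K l c0) :
    AdmitsVisser (fBY K l c0) := by
  have hW : Logic (fBY K l c0) (fW K) := by
    refine logic_of_canon fun T => ?_
    exact halt_W (PT.cV_val _) K l c0
      (fun σ w => canon_of ((fBY_fB K l c0).sub σ) w) h T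
  exact admits_congr (fA0_fBY K l c0)
    (fA0_of (fBY_fT K l c0) (fBY_fL K l c0) hW) (admits_fA0 K)

/-- the main equivalence -/
theorem hsc_iff {P : Type} [Fintype P] (M : Pool.Agent.H502.PcSrc.DM P (Bool × Bool))
    (code : P → ℕ) (hc : Function.Injective code) (p0 : P) (c0 : Bool × Bool → ℤ)
    (hn : ∀ j, 0 ≤ c0 j) :
    (∃ c, Compl (Cn (fBY 5 (prog M code) (cfg code p0 c0))) c ∧ HStrC c) ↔
      M.Halts (some p0, c0) := by
  constructor
  · rintro ⟨c, h1, h2⟩
    by_contra hh
    obtain ⟨κ, R⟩ := prog_run M hc p0 c0 hn hh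
    exact not_hsc (by omega) R c h1 h2
  · rintro ⟨k, hk⟩
    exact ⟨_, compl_compl _, hsc_of_admits (hsc_of_halts (prog_halts M hc k p0 c0 hn hk))⟩

open Pool.Agent.H502.PcSrc in
/-- **The problem is undecidable.** -/
theorem hsc_undecidable : ¬ ComputablePred (fun k : ℕ => ∃ A : Form, num A = k ∧
    ∃ c, Compl (Cn A) c ∧ HStrC c) := by
  intro hdec
  obtain ⟨Q, hQ, M, q0, N, _, hN, hund⟩ := exists_sys
  apply hund
  let _ : Fintype (RS M) := Fintype.ofFinite _
  set code : RS M → ℕ := fun p => (Fintype.equivFin (RS M) p : ℕ) with hcode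
  have hc : Function.Injective code := fun p q h =>
    (Fintype.equivFin (RS M)).injective (Fin.ext h)
  set p0 : RS M := RS.d1 q0 (z0 M)
  set cn : ℕ → Bool × Bool → ℤ := fun n => v4 (N n) 0 0 0 with hcn
  have hred : ManyOneReducible (fun n => M.Halts (some q0) (ini (N n)))
      (fun k : ℕ => ∃ A : Form, num A = k ∧ ∃ c, Compl (Cn A) c ∧ HStrC c) := by
    refine ⟨fun n => num (fBY 5 (prog (dm M q0 0) code) (cfg code p0 (cn n))), ?_, ?_⟩
    · refine CF.con' (cf_fB 5 _ ?_) (CF.cst _)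
      intro i hi
      rcases Nat.eq_zero_or_pos i with h0 | h0
      · subst h0
        refine hN.of_eq fun n => ?_
        change N n = (cn n (false, true)).toNat
        simp [hcn, v4]
      · have e : ∀ n, cfg code p0 (cn n) i = cfg code p0 (cn 0) i := by
          intro n
          unfold cfg
          by_cases hi4 : i < 4
          · rw [if_pos hi4, if_pos hi4]
            have : i = 1 ∨ i = 2 ∨ i = 3 := by omega
            rcases this with rfl | rfl | rfl <;> rfl
          · rw [if_neg hi4, if_neg hi4]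
        exact (Computable.const (cfg code p0 (cn 0) i)).of_eq fun n => (e n).symm
    · intro n
      have h1 := dm_halts_iff M q0 0 q0 (ini (N n))
      have h2 : (v4 ((ini (N n) true : ℕ) : ℤ) ((ini (N n) false : ℕ) : ℤ) 0 0 :
          Bool × Bool → ℤ) = cn n := by
        simp [ini, hcn]
      rw [h2] at h1
      have h3 : ∀ j, 0 ≤ cn n j := by
        rintro ⟨j1, j2⟩
        cases j1 <;> cases j2 <;> simp [hcn, v4]
      have h4 := hsc_iff (dm M q0 0) code hc p0 (cn n) h3
      constructor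
      · intro h
        exact ⟨_, rfl, h4.2 (h1.2 h)⟩
      · rintro ⟨A, hA, hadm⟩
        have := num_inj hA
        rw [this] at hadm
        exact h1.1 (h4.1 hadm)
  exact ComputablePred.computable_of_manyOneReducible hred hdec

/-- the structural completion exists and is unique -/
theorem exists_unique_compl (A : Form) : ∃! c, Compl (Cn A) c :=
  ⟨compl A, compl_compl A, fun _ h => compl_unique h (compl_compl A)⟩

end Pool.Agent.W898.VR
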