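import Pool.Agent.W898.VR.Syn

/-!
# The formulas of the construction
-/

set_option autoImplicit false

namespace Pool.Agent.W898.VR

open Form

/-- negation -/
def neg (a : Form) : Form := imp a bot

/-- truth -/
def top : Form := imp bot bot

/-- conjunction of the `f i`, `i < n` -/
def cj (f : ℕ → Form) : ℕ → Form
  | 0 => top
  | n + 1 => con (cj f n) (f n)

/-- disjunction of the `f i`, `i < n` -/
def dj (f : ℕ → Form) : ℕ → Form
  | 0 => bot
  | n + 1 => dis (dj f n) (f n)

/-- conjunction of a list -/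
def lc : List Form → Form
  | [] => top
  | a :: l => con a (lc l)

/-- all variables are below `N` -/
def bd (N : ℕ) : Form → Prop
  | var i => i < N
  | bot => True
  | con a b => bd N a ∧ bd N b
  | dis a b => bd N a ∧ bd N b
  | imp a b => bd N a ∧ bd N b

theorem bd_neg {N : ℕ} {a : Form} : bd N (neg a) ↔ bd N a := by simp [neg, bd]

theorem bd_top {N : ℕ} : bd N top := by simp [top, bd]

theorem bd_cj {N : ℕ} {f : ℕ → Form} {n : ℕ} (h : ∀ i < n, bd N (f i)) : bd N (cj f n) := by
  induction n with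
  | zero => exact bd_top
  | succ n ih => exact ⟨ih fun i hi => h i (by omega), h n (by omega)⟩

theorem bd_dj {N : ℕ} {f : ℕ → Form} {n : ℕ} (h : ∀ i < n, bd N (f i)) : bd N (dj f n) := by
  induction n with
  | zero => trivial
  | succ n ih => exact ⟨ih fun i hi => h i (by omega), h n (by omega)⟩

/-- `q` -/
def fq : Form := var 0

/-- `¬ q` -/
def fn : Form := neg fq

/-- the second disjunct of `W` -/
def fW1 (K : ℕ) : Form :=
  dis (imp fn (var 1)) (dis (dj (fun j => imp (con fn (var (j + 1))) (var (j + 2))) (K + 1))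
    (neg (con fn (var (K + 2)))))

/-- the trigger `W`: refuted iff below two tops, one of which has at least `K + 3` points in its
region -/
def fW (K : ℕ) : Form := dis fn (fW1 K)

/-- at most two tops -/
def fT : Form :=
  dis (neg (var 0)) (dis (neg (con (neg (var 0)) (var 1))) (neg (con (neg (var 0)) (neg (var 1)))))

/-- the region of a top is linear if there is another top -/
def fL : Form :=
  dis (neg (var 0)) (dis (imp (con (neg (var 0)) (var 1)) (var 2))
    (imp (con (neg (var 0)) (var 2)) (var 1)))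

/-- the points `a_0, ..., a_j` (`j ≤ K + 1`) -/
def fA (K j : ℕ) : Form := con fn (var (K + 2 - j))

/-- the points that do not see `a_{j+1}` -/
def fN (K j : ℕ) : Form := imp (fA K (j + 1)) (fA K j)

/-- the points that do not see `c_0, ..., c_{j-1}` -/
def cP (K : ℕ) : ℕ → Form
  | 0 => top
  | j + 1 => con (cP K j) (imp (con (fN K j) (cP K j)) (dis (fA K j) fq))

/-- the points above `c_j` -/
def phi (K j : ℕ) : Form := con (fN K j) (cP K j)

/-- the points that do not see `c_j` -/
def psi (K j : ℕ) : Form := imp (phi K j) (dis (fA K j) fq)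

/-- the base points -/
def fO (K : ℕ) : Form := dis fn (phi K K)

/-- start of the ladders, first component -/
def fS (K i : ℕ) : Form := dis (phi K i) (fO K)

/-- start of the ladders, second component -/
def fH (K : ℕ) : Form := dis (cP K (K + 1)) (fO K)

/-- the region of the ladder number `i` -/
def fK (K i : ℕ) : Form := cj (fun j => if j = i then top else psi K j) K

/-- successor of a number -/
def fsuc (p : Form × Form) : Form × Form := (dis p.1 p.2, imp p.2 p.1)

/-- numerals of the ladder number `i` -/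
def numf (K i k : ℕ) : Form × Form := fsuc^[k] (fS K i, fH K)

/-- first part of the configuration formula -/
def fPhi (κ : Form) (p : Form × Form) : Form := imp κ (dis p.2 (imp p.2 p.1))

/-- second part of the configuration formula -/
def fPsi (κ : Form) (p : Form × Form) : Form :=
  dis (imp (con κ p.1) p.2) (dis (imp (con κ p.2) p.1) (imp (con κ (imp p.2 p.1)) p.1))

/-- premise of the configuration formula -/
def fEp (K : ℕ) (x : ℕ → Form × Form) : Form := cj (fun i => fPhi (fK K i) (x i)) K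

/-- conclusion of the configuration formula -/
def fEc (K : ℕ) (x : ℕ → Form × Form) : Form := dj (fun i => fPsi (fK K i) (x i)) K

/-- the configuration formula -/
def fE (K : ℕ) (x : ℕ → Form × Form) : Form := imp (fEp K x) (fEc K x)

/-- placeholders -/
def ph (K i : ℕ) : Form × Form :=
  (dis (var (K + 3 + 2 * i)) (fO K), dis (var (K + 4 + 2 * i)) (fO K))

/-- the action of an instruction on one counter -/
inductive Op : Type
  | any (v : ℕ) : Op      -- `k ↦ k + v`
  | cst (k k' : ℕ) : Op   -- `k ↦ k'`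
  | dec (v : ℕ) : Op      -- `k + 1 ↦ k + v`

namespace Op

/-- the instruction is applicable -/
def ok : Op → ℕ → Prop
  | any _, _ => True
  | cst k _, n => n = k
  | dec _, n => 1 ≤ n

/-- the new value -/
def new : Op → ℕ → ℕ
  | any v, n => n + v
  | cst _ k', _ => k'
  | dec v, n => n - 1 + v

/-- value of the placeholder -/
def pv : Op → ℕ → ℕ
  | any _, n => n
  | cst _ _, _ => 0
  | dec _, n => n - 1

/-- current value as a formula -/
def cur (K i : ℕ) : Op → Form × Form
  | any _ => ph K i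
  | cst k _ => numf K i k
  | dec _ => fsuc (ph K i)

/-- new value as a formula -/
def nxt (K i : ℕ) : Op → Form × Form
  | any v => fsuc^[v] (ph K i)
  | cst _ k' => numf K i k'
  | dec v => fsuc^[v] (ph K i)

/-- additional disjunct -/
def ext (K i : ℕ) : Op → Form
  | any _ => bot
  | cst _ _ => bot
  | dec _ => imp (con (fK K i) (ph K i).1) (ph K i).2

end Op

/-- an instruction: the actions on the counters, and a halting flag -/
structure Ins where
  op : ℕ → Op
  halt : Bool

namespace Ins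

/-- the instruction is applicable to the configuration -/
def ok (K : ℕ) (I : Ins) (c : ℕ → ℕ) : Prop := ∀ i < K, (I.op i).ok (c i)

/-- the new configuration -/
def new (I : Ins) (c : ℕ → ℕ) : ℕ → ℕ := fun i => (I.op i).new (c i)

/-- the additional disjuncts -/
def ext (K : ℕ) (I : Ins) : Form := dis (dj (fun i => (I.op i).ext K i) K) (fW K)

/-- the axiom of an instruction -/
def ax (K : ℕ) (I : Ins) : Form :=
  if I.halt then dis (fE K (fun i => (I.op i).cur K i)) (I.ext K)
  else imp (fE K (fun i => (I.op i).nxt K i)) (dis (fE K (fun i => (I.op i).cur K i)) (I.ext K))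

end Ins

/-- the fixed part of the axiom -/
def fB0 (K : ℕ) (l : List Ins) : Form :=
  con fT (con fL (con (cj (fun i => imp (imp (con (fK K i) (fS K i)) (fH K)) (fW K)) K)
    (lc (l.map (Ins.ax K)))))

/-- the axiom of a machine with an initial configuration -/
def fB (K : ℕ) (l : List Ins) (c : ℕ → ℕ) : Form :=
  con (fB0 K l) (imp (fE K (fun i => numf K i (c i))) (fW K))

/-! ### variables -/

section bounds

variable {K N : ℕ}

theorem bd_fn (hN : K + 3 ≤ N) : bd N fn := ⟨by change 0 < N; omega, trivial⟩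

theorem bd_fA (hN : K + 3 ≤ N) (j : ℕ) : bd N (fA K j) := by
  refine ⟨bd_fn hN, ?_⟩
  simp only [bd]; omega

theorem bd_fN (hN : K + 3 ≤ N) (j : ℕ) : bd N (fN K j) := ⟨bd_fA hN _, bd_fA hN _⟩

theorem bd_cP (hN : K + 3 ≤ N) (j : ℕ) : bd N (cP K j) := by
  induction j with
  | zero => exact bd_top
  | succ j ih =>
    refine ⟨ih, ⟨bd_fN hN _, ih⟩, bd_fA hN _, ?_⟩
    simp only [fq, bd]; omega

theorem bd_phi (hN : K + 3 ≤ N) (j : ℕ) : bd N (phi K j) := ⟨bd_fN hN _, bd_cP hN _⟩

theorem bd_psi (hN : K + 3 ≤ N) (j : ℕ) : bd N (psi K j) := by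
  refine ⟨bd_phi hN _, bd_fA hN _, ?_⟩
  simp only [fq, bd]; omega

theorem bd_fO (hN : K + 3 ≤ N) : bd N (fO K) := ⟨bd_fn hN, bd_phi hN _⟩

theorem bd_fS (hN : K + 3 ≤ N) (i : ℕ) : bd N (fS K i) := ⟨bd_phi hN _, bd_fO hN⟩

theorem bd_fH (hN : K + 3 ≤ N) : bd N (fH K) := ⟨bd_cP hN _, bd_fO hN⟩

theorem bd_fK (hN : K + 3 ≤ N) (i : ℕ) : bd N (fK K i) := by
  refine bd_cj fun j _ => ?_
  split_ifs
  · exact bd_top
  · exact bd_psi hN _

theorem bd_numf (hN : K + 3 ≤ N) (i k : ℕ) : bd N (numf K i k).1 ∧ bd N (numf K i k).2 := by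
  unfold numf
  induction k with
  | zero => exact ⟨bd_fS hN _, bd_fH hN⟩
  | succ k ih =>
    rw [Function.iterate_succ_apply']
    exact ⟨⟨ih.1, ih.2⟩, ⟨ih.2, ih.1⟩⟩

theorem bd_fW1 (hN : K + 3 ≤ N) : bd N (fW1 K) := by
  refine ⟨⟨bd_fn hN, ?_⟩, bd_dj fun j hj => ⟨⟨bd_fn hN, ?_⟩, ?_⟩, ⟨bd_fn hN, ?_⟩, trivial⟩
  · change 1 < N; omega
  · change j + 1 < N; omega
  · change j + 2 < N; omega
  · change K + 2 < N; omega

theorem bd_fW (hN : K + 3 ≤ N) : bd N (fW K) := ⟨bd_fn hN, bd_fW1 hN⟩

end bounds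

/-! ### semantics of the formulas -/

section sem

variable {W : Type*} [Preorder W]

theorem frc_congr {V V' : ℕ → W → Prop} {N : ℕ} (h : ∀ i < N, ∀ w, V i w ↔ V' i w) (a : Form)
    (ha : bd N a) (w : W) : frc V a w ↔ frc V' a w := by
  induction a generalizing w with
  | var i => exact h i ha w
  | bot => rfl
  | con a b iha ihb => simp only [frc, iha ha.1, ihb ha.2]
  | dis a b iha ihb => simp only [frc, iha ha.1, ihb ha.2]
  | imp a b iha ihb => simp only [frc, iha ha.1, ihb ha.2]

variable (V : ℕ → W → Prop)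

theorem frc_neg {a : Form} {w : W} : frc V (neg a) w ↔ ∀ w', w ≤ w' → ¬ frc V a w' := Iff.rfl

theorem frc_top (w : W) : frc V top w := fun _ _ h => h

theorem frc_cj {f : ℕ → Form} {n : ℕ} {w : W} : frc V (cj f n) w ↔ ∀ i < n, frc V (f i) w := by
  induction n with
  | zero => exact ⟨fun _ i hi => absurd hi (by omega), fun _ => frc_top V w⟩
  | succ n ih =>
    rw [cj, frc, ih]
    constructor
    · rintro ⟨h1, h2⟩ i hi
      rcases Nat.lt_succ_iff_lt_or_eq.1 hi with h | h
      · exact h1 i h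
      · rw [h]; exact h2
    · exact fun h => ⟨fun i hi => h i (by omega), h n (by omega)⟩

theorem frc_dj {f : ℕ → Form} {n : ℕ} {w : W} : frc V (dj f n) w ↔ ∃ i < n, frc V (f i) w := by
  induction n with
  | zero => exact ⟨fun h => h.elim, fun ⟨i, hi, _⟩ => absurd hi (by omega)⟩
  | succ n ih =>
    rw [dj, frc, ih]
    constructor
    · rintro (⟨i, hi, h⟩ | h)
      · exact ⟨i, by omega, h⟩
      · exact ⟨n, by omega, h⟩
    · rintro ⟨i, hi, h⟩
      rcases Nat.lt_succ_iff_lt_or_eq.1 hi with h' | h'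
      · exact Or.inl ⟨i, h', h⟩
      · rw [h'] at h; exact Or.inr h

theorem frc_lc {l : List Form} {w : W} : frc V (lc l) w ↔ ∀ a ∈ l, frc V a w := by
  induction l with
  | nil => simp [lc, frc_top]
  | cons a l ih => simp [lc, frc, ih]

/-- `x ⇒ y` -/
def sI (x y : W → Prop) : W → Prop := fun w => ∀ w', w ≤ w' → x w' → y w'

/-- semantic version of `fPhi` -/
def sPhi (κ : W → Prop) (p : (W → Prop) × (W → Prop)) : W → Prop :=
  sI κ (fun w => p.2 w ∨ sI p.2 p.1 w)

/-- semantic version of `fPsi` -/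
def sPsi (κ : W → Prop) (p : (W → Prop) × (W → Prop)) : W → Prop :=
  fun w => sI (fun w => κ w ∧ p.1 w) p.2 w ∨ sI (fun w => κ w ∧ p.2 w) p.1 w ∨
    sI (fun w => κ w ∧ sI p.2 p.1 w) p.1 w

/-- semantic version of `fE` -/
def sE (K : ℕ) (κ : ℕ → W → Prop) (p : ℕ → (W → Prop) × (W → Prop)) : W → Prop :=
  sI (fun w => ∀ i < K, sPhi (κ i) (p i) w) (fun w => ∃ i < K, sPsi (κ i) (p i) w)

/-- semantic version of `fsuc` -/
def ssuc (p : (W → Prop) × (W → Prop)) : (W → Prop) × (W → Prop) :=
  (fun w => p.1 w ∨ p.2 w, sI p.2 p.1)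

/-- truth set of a pair -/
def fr2 (p : Form × Form) : (W → Prop) × (W → Prop) := (frc V p.1, frc V p.2)

theorem fr2_fsuc (p : Form × Form) : fr2 V (fsuc p) = ssuc (fr2 V p) := rfl

theorem fr2_iter (n : ℕ) (p : Form × Form) : fr2 V (fsuc^[n] p) = ssuc^[n] (fr2 V p) := by
  induction n with
  | zero => rfl
  | succ n ih => rw [Function.iterate_succ_apply', Function.iterate_succ_apply', fr2_fsuc, ih]

theorem frc_fEp {K : ℕ} {x : ℕ → Form × Form} {w : W} :
    frc V (fEp K x) w ↔ ∀ i < K, sPhi (frc V (fK K i)) (fr2 V (x i)) w := by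
  rw [fEp, frc_cj]
  rfl

theorem frc_fEc {K : ℕ} {x : ℕ → Form × Form} {w : W} :
    frc V (fEc K x) w ↔ ∃ i < K, sPsi (frc V (fK K i)) (fr2 V (x i)) w := by
  rw [fEc, frc_dj]
  rfl

theorem frc_fE {K : ℕ} {x : ℕ → Form × Form} {w : W} :
    frc V (fE K x) w ↔ sE K (fun i => frc V (fK K i)) (fun i => fr2 V (x i)) w := by
  rw [fE, frc, sE, sI]
  simp only [frc_fEp, frc_fEc]

theorem sE_congr {K : ℕ} {κ κ' : ℕ → W → Prop} {p p' : ℕ → (W → Prop) × (W → Prop)}
    (hκ : ∀ i < K, κ i = κ' i) (hp : ∀ i < K, p i = p' i) (w : W) : sE K κ p w ↔ sE K κ' p' w := by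
  unfold sE sI
  refine forall_congr' fun w' => imp_congr_right fun _ => imp_congr ?_ ?_
  · exact forall_congr' fun i => forall_congr' fun hi => by rw [hκ i hi, hp i hi]
  · refine exists_congr fun i => ?_
    constructor
    · rintro ⟨hi, h⟩
      exact ⟨hi, by rwa [← hκ i hi, ← hp i hi]⟩
    · rintro ⟨hi, h⟩
      exact ⟨hi, by rwa [hκ i hi, hp i hi]⟩

end sem

end Pool.Agent.W898.VR
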