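import Pool.Agent.W898.VR.Halt

/-!
# The frame of an infinite run
-/

set_option autoImplicit false

namespace Pool.Agent.W898.VR

open Form

/-- the points of the frame; `κ t i` is the value of the counter `i` at time `t` -/
inductive Pt (K : ℕ) (κ : ℕ → ℕ → ℕ) : Type
  | a (j : Fin (K + 3)) : Pt K κ
  | b : Pt K κ
  | c (j : Fin (K + 2)) : Pt K κ
  | u (i : Fin K) (n : ℕ) : Pt K κ
  | e (t : ℕ) : Pt K κ
  | r : Pt K κ

namespace Pt

variable {K : ℕ} {κ : ℕ → ℕ → ℕ}

/-- the order -/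
def le : Pt K κ → Pt K κ → Prop
  | a j, a j' => (j' : ℕ) ≤ j
  | a _, _ => False
  | b, b => True
  | b, _ => False
  | c j, a j' => (j' : ℕ) ≤ j
  | c _, b => True
  | c j, c j' => (j : ℕ) = j'
  | c _, _ => False
  | u _ n, a j => (j : ℕ) ≤ K ∨ ((j : ℕ) ≤ K + 1 ∧ 1 ≤ n)
  | u _ _, b => True
  | u i n, c j => (j : ℕ) = i ∨ ((j : ℕ) = K ∧ n ≠ 1) ∨ ((j : ℕ) = K + 1 ∧ 1 ≤ n)
  | u i n, u i' n' => i = i' ∧ (n' = n ∨ n' + 2 ≤ n)
  | u _ _, _ => False
  | e _, a j => (j : ℕ) ≤ K + 1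
  | e _, b => True
  | e _, c _ => True
  | e t, u i n => n ≤ κ t i
  | e t, e t' => t = t'
  | e _, r => False
  | r, _ => True

instance : Preorder (Pt K κ) where
  le := le
  le_refl w := by
    cases w <;> simp [le]
  le_trans x y z h1 h2 := by
    cases x with
    | a j =>
      cases y with
      | a j' =>
        cases z <;> first | exact (h2 : False).elim | exact le_trans (α := ℕ) h2 h1
      | _ => exact (h1 : False).elim
    | b =>
      cases y with
      | b => exact h2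
      | _ => exact (h1 : False).elim
    | c j =>
      cases y with
      | a j' =>
        cases z <;> first | exact (h2 : False).elim | exact le_trans (α := ℕ) h2 h1
      | b =>
        cases z <;> first | exact (h2 : False).elim | trivial
      | c j' =>
        have h1' : (j : ℕ) = j' := h1
        have : j = j' := Fin.ext h1'
        rw [this]; exact h2
      | _ => exact (h1 : False).elim
    | u i n =>
      cases y with
      | a j =>
        cases z with
        | a j' =>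
          have h2' : (j' : ℕ) ≤ j := h2
          have h1' : (j : ℕ) ≤ K ∨ ((j : ℕ) ≤ K + 1 ∧ 1 ≤ n) := h1
          change (j' : ℕ) ≤ K ∨ ((j' : ℕ) ≤ K + 1 ∧ 1 ≤ n)
          omega
        | _ => exact (h2 : False).elim
      | b =>
        cases z <;> first | exact (h2 : False).elim | trivial
      | c j =>
        have h1' : (j : ℕ) = i ∨ ((j : ℕ) = K ∧ n ≠ 1) ∨ ((j : ℕ) = K + 1 ∧ 1 ≤ n) := h1
        have hi := i.2
        cases z with
        | a j' =>
          have h2' : (j' : ℕ) ≤ j := h2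
          change (j' : ℕ) ≤ K ∨ ((j' : ℕ) ≤ K + 1 ∧ 1 ≤ n)
          omega
        | b => trivial
        | c j' =>
          have h2' : (j : ℕ) = j' := h2
          change (j' : ℕ) = i ∨ ((j' : ℕ) = K ∧ n ≠ 1) ∨ ((j' : ℕ) = K + 1 ∧ 1 ≤ n)
          omega
        | _ => exact (h2 : False).elim
      | u i' n' =>
        obtain ⟨h1', h1''⟩ : i = i' ∧ (n' = n ∨ n' + 2 ≤ n) := h1
        subst h1'
        cases z with
        | a j' =>
          have h2' : (j' : ℕ) ≤ K ∨ ((j' : ℕ) ≤ K + 1 ∧ 1 ≤ n') := h2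
          change (j' : ℕ) ≤ K ∨ ((j' : ℕ) ≤ K + 1 ∧ 1 ≤ n)
          omega
        | b => trivial
        | c j' =>
          have h2' : (j' : ℕ) = i ∨ ((j' : ℕ) = K ∧ n' ≠ 1) ∨ ((j' : ℕ) = K + 1 ∧ 1 ≤ n') := h2
          change (j' : ℕ) = i ∨ ((j' : ℕ) = K ∧ n ≠ 1) ∨ ((j' : ℕ) = K + 1 ∧ 1 ≤ n)
          omega
        | u i'' n'' =>
          obtain ⟨h2', h2''⟩ : i = i'' ∧ (n'' = n' ∨ n'' + 2 ≤ n') := h2
          exact ⟨h2', by omega⟩
        | _ => exact (h2 : False).elim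
      | _ => exact (h1 : False).elim
    | e t =>
      cases y with
      | a j =>
        cases z with
        | a j' =>
          have h2' : (j' : ℕ) ≤ j := h2
          have h1' : (j : ℕ) ≤ K + 1 := h1
          change (j' : ℕ) ≤ K + 1
          omega
        | _ => exact (h2 : False).elim
      | b =>
        cases z <;> first | exact (h2 : False).elim | trivial
      | c j =>
        have hj := j.2
        cases z with
        | a j' =>
          have h2' : (j' : ℕ) ≤ j := h2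
          change (j' : ℕ) ≤ K + 1
          omega
        | b => trivial
        | c j' => trivial
        | _ => exact (h2 : False).elim
      | u i n =>
        have h1' : n ≤ κ t i := h1
        cases z with
        | a j' =>
          have h2' : (j' : ℕ) ≤ K ∨ ((j' : ℕ) ≤ K + 1 ∧ 1 ≤ n) := h2
          change (j' : ℕ) ≤ K + 1
          omega
        | b => trivial
        | c j' => trivial
        | u i' n' =>
          obtain ⟨h2', h2''⟩ : i = i' ∧ (n' = n ∨ n' + 2 ≤ n) := h2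
          subst h2'
          change n' ≤ κ t i
          omega
        | _ => exact (h2 : False).elim
      | e t' =>
        have h1' : t = t' := h1
        rw [h1']; exact h2
      | r => exact (h1 : False).elim
    | r => cases z <;> trivial

theorem r_le (w : Pt K κ) : (r : Pt K κ) ≤ w := by
  cases w <;> exact trivial

/-- the ladders -/
def lad (i : Fin K) : ℕ → Pt K κ
  | 0 => c ⟨i, by omega⟩
  | 1 => c ⟨K + 1, by omega⟩
  | n + 2 => u i n

theorem lad_le (i : Fin K) (n n' : ℕ) :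
    (lad i n : Pt K κ) ≤ lad i n' ↔ n' = n ∨ n' + 2 ≤ n := by
  have hi := i.2
  rcases n with _ | _ | n <;> rcases n' with _ | _ | n'
  · exact ⟨fun _ => by omega, fun _ => rfl⟩
  · change (i : ℕ) = K + 1 ↔ _
    omega
  · exact ⟨fun h => (h : False).elim, fun h => by omega⟩
  · change K + 1 = (i : ℕ) ↔ _
    omega
  · exact ⟨fun _ => by omega, fun _ => rfl⟩
  · exact ⟨fun h => (h : False).elim, fun h => by omega⟩
  · change ((i : ℕ) = i ∨ ((i : ℕ) = K ∧ n ≠ 1) ∨ ((i : ℕ) = K + 1 ∧ 1 ≤ n)) ↔ _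
    omega
  · change (K + 1 = (i : ℕ) ∨ (K + 1 = K ∧ n ≠ 1) ∨ (K + 1 = K + 1 ∧ 1 ≤ n)) ↔ _
    omega
  · change (i = i ∧ (n' = n ∨ n' + 2 ≤ n)) ↔ _
    constructor
    · rintro ⟨_, h⟩; omega
    · intro h; exact ⟨rfl, by omega⟩

theorem e_le_lad (t : ℕ) (i : Fin K) (n : ℕ) : (e t : Pt K κ) ≤ lad i n ↔ n ≤ κ t i + 2 := by
  rcases n with _ | _ | n
  · exact ⟨fun _ => by omega, fun _ => trivial⟩
  · exact ⟨fun _ => by omega, fun _ => trivial⟩
  · change n ≤ κ t i ↔ _
    omega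

/-- the base points -/
def isO : Pt K κ → Prop
  | a _ => True
  | b => True
  | c j => (j : ℕ) = K
  | _ => False

/-- the region of a ladder -/
def reg (i : ℕ) : Pt K κ → Prop
  | a _ => True
  | b => True
  | c j => (j : ℕ) = i ∨ (j : ℕ) = K ∨ (j : ℕ) = K + 1
  | u i' _ => (i' : ℕ) = i
  | _ => False

theorem reg_iff (i : Fin K) (w : Pt K κ) : reg i w ↔ isO w ∨ ∃ n, w = lad i n := by
  cases w with
  | a j => exact ⟨fun _ => Or.inl trivial, fun _ => trivial⟩
  | b => exact ⟨fun _ => Or.inl trivial, fun _ => trivial⟩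
  | c j =>
    constructor
    · rintro (h | h | h)
      · exact Or.inr ⟨0, by simp [lad, Fin.ext_iff, h]⟩
      · exact Or.inl h
      · exact Or.inr ⟨1, by simp [lad, Fin.ext_iff, h]⟩
    · rintro (h | ⟨n, h⟩)
      · exact Or.inr (Or.inl h)
      · rcases n with _ | _ | n
        · left
          simp only [lad, c.injEq] at h
          rw [h]
        · right; right
          simp only [lad, c.injEq] at h
          rw [h]
        · simp [lad] at h
  | u i' n =>
    constructor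
    · intro h
      have h' : (i' : ℕ) = i := h
      exact Or.inr ⟨n + 2, by simp [lad, Fin.ext_iff, h']⟩
    · rintro (h | ⟨n', h⟩)
      · exact h.elim
      · rcases n' with _ | _ | n'
        · simp [lad] at h
        · simp [lad] at h
        · simp only [lad, u.injEq] at h
          change (i' : ℕ) = i
          rw [h.1]
  | e t =>
    constructor
    · exact fun h => h.elim
    · rintro (h | ⟨n, h⟩)
      · exact h.elim
      · rcases n with _ | _ | n <;> simp [lad] at h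
  | r =>
    constructor
    · exact fun h => h.elim
    · rintro (h | ⟨n, h⟩)
      · exact h.elim
      · rcases n with _ | _ | n <;> simp [lad] at h

theorem reg_mono (i : Fin K) {w w' : Pt K κ} (h : w ≤ w') (hw : reg i w) : reg i w' := by
  have hi := i.2
  cases w with
  | a j => cases w' <;> first | exact (h : False).elim | trivial
  | b => cases w' <;> first | exact (h : False).elim | trivial
  | c j =>
    cases w' with
    | a _ => trivial
    | b => trivial
    | c j' =>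
      have h' : (j : ℕ) = j' := h
      have hw' : (j : ℕ) = i ∨ (j : ℕ) = K ∨ (j : ℕ) = K + 1 := hw
      change (j' : ℕ) = i ∨ (j' : ℕ) = K ∨ (j' : ℕ) = K + 1
      omega
    | _ => exact (h : False).elim
  | u i' n =>
    have hw' : (i' : ℕ) = i := hw
    cases w' with
    | a _ => trivial
    | b => trivial
    | c j' =>
      have h' : (j' : ℕ) = i' ∨ ((j' : ℕ) = K ∧ n ≠ 1) ∨ ((j' : ℕ) = K + 1 ∧ 1 ≤ n) := h
      change (j' : ℕ) = i ∨ (j' : ℕ) = K ∨ (j' : ℕ) = K + 1
      omega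
    | u i'' n' =>
      obtain ⟨h', _⟩ : i' = i'' ∧ (n' = n ∨ n' + 2 ≤ n) := h
      rw [h'] at hw'
      exact hw'
    | _ => exact (h : False).elim
  | e t => exact hw.elim
  | r => exact hw.elim

theorem isO_lad (i : Fin K) (n : ℕ) : ¬ isO (lad i n : Pt K κ) := by
  have hi := i.2
  rcases n with _ | _ | n
  · change ¬ ((i : ℕ) = K); omega
  · change ¬ (K + 1 = K); omega
  · exact fun h => h

theorem reg_lad (i : Fin K) (n : ℕ) : reg i (lad i n : Pt K κ) :=
  (reg_iff i _).2 (Or.inr ⟨n, rfl⟩)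

/-- what is above a ladder point -/
theorem above_lad (i : Fin K) (n : ℕ) {w : Pt K κ} (h : lad i n ≤ w) :
    isO w ∨ ∃ n', w = lad i n' ∧ (n' = n ∨ n' + 2 ≤ n) := by
  rcases (reg_iff i w).1 (reg_mono i h (reg_lad i n)) with h1 | ⟨n', rfl⟩
  · exact Or.inl h1
  · exact Or.inr ⟨n', rfl, (lad_le i n n').1 h⟩

theorem le_a_b (w : Pt K κ) : w ≤ a ⟨0, by omega⟩ ∨ w = b := by
  cases w with
  | a j => left; exact Nat.zero_le _
  | b => right; rfl
  | c j => left; exact Nat.zero_le _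
  | u i n => left; exact Or.inl (Nat.zero_le _)
  | e t => left; exact Nat.zero_le _
  | r => left; trivial

theorem le_b (w : Pt K κ) : w ≤ b ∨ ∃ j, w = a j := by
  cases w with
  | a j => right; exact ⟨j, rfl⟩
  | b => left; trivial
  | c j => left; trivial
  | u i n => left; trivial
  | e t => left; trivial
  | r => left; trivial

theorem a_le_a {j j' : Fin (K + 3)} : (a j : Pt K κ) ≤ a j' ↔ (j' : ℕ) ≤ j := Iff.rfl

theorem not_a_le_b {j : Fin (K + 3)} : ¬ (a j : Pt K κ) ≤ b := fun h => h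

theorem not_b_le_a {j : Fin (K + 3)} : ¬ (b : Pt K κ) ≤ a j := fun h => h

theorem b_le {w : Pt K κ} (h : b ≤ w) : w = b := by
  cases w <;> first | exact (h : False).elim | rfl

theorem a_le {j : Fin (K + 3)} {w : Pt K κ} (h : a j ≤ w) : ∃ j', w = a j' ∧ (j' : ℕ) ≤ j := by
  cases w with
  | a j' => exact ⟨j', rfl, h⟩
  | _ => exact (h : False).elim

theorem eq_r {w : Pt K κ} (h1 : w ≤ a ⟨K + 2, by omega⟩) (h2 : w ≤ b) : w = r := by
  cases w with
  | a j => exact (h2 : False).elim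
  | b => exact (h1 : False).elim
  | c j =>
    have := j.2
    have h : K + 2 ≤ (j : ℕ) := h1
    omega
  | u i n =>
    have h : K + 2 ≤ K ∨ (K + 2 ≤ K + 1 ∧ 1 ≤ n) := h1
    omega
  | e t =>
    have h : K + 2 ≤ K + 1 := h1
    omega
  | r => rfl

/-- the upset of `c_j` -/
theorem c_iff {j : ℕ} (hj : j ≤ K) (hK : 1 ≤ K) (w : Pt K κ) :
    (¬ w ≤ a ⟨j + 1, by omega⟩ ∧ ∀ i (h : i < j), ¬ w ≤ c ⟨i, by omega⟩) ↔
    c ⟨j, by omega⟩ ≤ w := by
  cases w with
  | a j' =>
    change (¬ (j + 1 ≤ (j' : ℕ)) ∧ ∀ i, i < j → ¬ False) ↔ (j' : ℕ) ≤ j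
    constructor
    · rintro ⟨h, _⟩; omega
    · intro h; exact ⟨by omega, fun _ _ h => h⟩
  | b => exact ⟨fun _ => trivial, fun _ => ⟨fun h => h, fun _ _ h => h⟩⟩
  | c j' =>
    change (¬ (j + 1 ≤ (j' : ℕ)) ∧ ∀ i, i < j → ¬ ((j' : ℕ) = i)) ↔ j = (j' : ℕ)
    constructor
    · rintro ⟨h1, h2⟩
      by_contra hne
      exact h2 j' (by omega) rfl
    · intro h
      exact ⟨by omega, fun i hi => by omega⟩
  | u i n =>
    have hi := i.2
    constructor
    · rintro ⟨h1, h2⟩
      exfalso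
      by_cases hij : (i : ℕ) < j
      · exact h2 i hij (Or.inl rfl)
      · apply h1
        left
        change j + 1 ≤ K
        omega
    · exact fun h => (h : False).elim
  | e t =>
    constructor
    · rintro ⟨h1, h2⟩
      exfalso
      apply h1
      change j + 1 ≤ K + 1
      omega
    · exact fun h => (h : False).elim
  | r =>
    constructor
    · rintro ⟨h1, h2⟩
      exact (h1 trivial).elim
    · exact fun h => (h : False).elim

theorem c_le {j : Fin (K + 2)} {w : Pt K κ} (h : c j ≤ w) :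
    (∃ j', w = a j' ∧ (j' : ℕ) ≤ j) ∨ w = b ∨ w = c j := by
  cases w with
  | a j' => exact Or.inl ⟨j', rfl, h⟩
  | b => exact Or.inr (Or.inl rfl)
  | c j' =>
    have h' : (j : ℕ) = j' := h
    exact Or.inr (Or.inr (by rw [Fin.ext h']))
  | _ => exact (h : False).elim

end Pt

/-! ### arithmetic of the ladders -/

theorem arith (X Y D Z : ℕ → Prop) (hX : ∀ n n', n' + 2 ≤ n → X n → X n')
    (hY : ∀ n n', n' + 2 ≤ n → Y n → Y n') (hD : ∀ n n', n' + 2 ≤ n → D n → D n')
    (hZ : ∀ n, Z n ↔ ∀ n', n' = n ∨ n' + 2 ≤ n → Y n' → X n')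
    (h1 : ∀ n, D n → Y n ∨ Z n) {x y z : ℕ} (hx : D x) (hx1 : X x) (hx2 : ¬ Y x)
    (hy : D y) (hy1 : Y y) (hy2 : ¬ X y) (hz : D z) (hz1 : Z z) (hz2 : ¬ X z) :
    D (x + 2) ∧ (∀ n, D n → n ≤ x + 2) ∧
      ∀ n, (X n ↔ n ≤ x) ∧ (Y n ↔ n + 1 ≤ x ∨ n = x + 1) := by
  have key : ∀ y z : ℕ, Y y → ¬ X y → Z z → ¬ X z → y = x + 1 ∧ z = x + 2 := by
    intro y z hy1 hy2 hz1 hz2
    rw [hZ] at hz1
    have a1 : ¬ Y z := fun h => hz2 (hz1 z (Or.inl rfl) h)
    have a2 : ¬ (y + 2 ≤ z) := fun h => hy2 (hz1 y (Or.inr h) hy1)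
    have a3 : ¬ (z + 2 ≤ y) := fun h => a1 (hY y z h hy1)
    have a4 : y ≠ z := fun h => a1 (h ▸ hy1)
    have a5 : ¬ (x + 2 ≤ y) := fun h => hx2 (hY y x h hy1)
    have a6 : ¬ (y + 2 ≤ x) := fun h => hy2 (hX x y h hx1)
    have a7 : x ≠ y := fun h => hx2 (h ▸ hy1)
    have a8 : ¬ (z + 2 ≤ x) := fun h => hz2 (hX x z h hx1)
    have a9 : x ≠ z := fun h => hz2 (h ▸ hx1)
    omega
  obtain ⟨ey, ez⟩ := key y z hy1 hy2 hz1 hz2
  have hy3 : ∀ n, Y n → ¬ X n → n = x + 1 := fun n h h' => (key n z h h' hz1 hz2).1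
  have hz3 : ∀ n, Z n → ¬ X n → n = x + 2 := fun n h h' => (key y n hy1 hy2 h h').2
  subst ey
  subst ez
  refine ⟨hz, fun n hn => ?_, fun n => ⟨⟨fun h => ?_, fun h => ?_⟩, ⟨fun h => ?_, fun h => ?_⟩⟩⟩
  · by_contra hlt
    have b1 : ¬ X n := fun h => hy2 (hX n _ (by omega) h)
    rcases h1 n hn with h | h
    · have := hy3 n h b1; omega
    · have := hz3 n h b1; omega
  · by_contra hlt
    rcases Nat.lt_or_ge n (x + 3) with h' | h'
    · rcases Nat.lt_or_ge n (x + 2) with h'' | h''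
      · have : n = x + 1 := by omega
        exact hy2 (this ▸ h)
      · have : n = x + 2 := by omega
        exact hz2 (this ▸ h)
    · exact hy2 (hX n _ (by omega) h)
  · by_contra hn
    have b1 : n ≠ x := fun h' => hn (h' ▸ hx1)
    have b2 : ¬ (n + 2 ≤ x) := fun h' => hn (hX x n h' hx1)
    have b3 : D n := hD _ n (by omega) hz
    rcases h1 n b3 with h' | h'
    · have := hy3 n h' hn; omega
    · have := hz3 n h' hn; omega
  · have b1 : n ≠ x := fun h' => hx2 (h' ▸ h)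
    have b2 : ¬ (x + 2 ≤ n) := fun h' => hx2 (hY n x h' h)
    omega
  · rcases h with h | h
    · exact hY _ n (by omega) hy1
    · rw [h]; exact hy1

section ladder

variable {K : ℕ} {κ : ℕ → ℕ → ℕ}

open Pt

/-- the pair represents the number `k` on the ladder `i` -/
def Num (i : Fin K) (p : (Pt K κ → Prop) × (Pt K κ → Prop)) (k : ℕ) : Prop :=
  ∀ n, (p.1 (lad i n) ↔ n ≤ k) ∧ (p.2 (lad i n) ↔ n + 1 ≤ k ∨ n = k + 1)

/-- persistent pairs containing the base points -/
structure Good (p : (Pt K κ → Prop) × (Pt K κ → Prop)) : Prop where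
  m1 : ∀ w w', w ≤ w' → p.1 w → p.1 w'
  m2 : ∀ w w', w ≤ w' → p.2 w → p.2 w'
  o1 : ∀ w, isO w → p.1 w
  o2 : ∀ w, isO w → p.2 w

theorem Good.suc {p : (Pt K κ → Prop) × (Pt K κ → Prop)} (h : Good p) : Good (ssuc p) where
  m1 w w' hw := fun h' => h'.imp (h.m1 w w' hw) (h.m2 w w' hw)
  m2 w w' hw := fun h' w'' hw' => h' w'' (hw.trans hw')
  o1 w hw := Or.inl (h.o1 w hw)
  o2 w hw := by
    intro w' hw' _
    apply h.m1 w w' hw'
    exact h.o1 w hw

theorem Good.iter {p : (Pt K κ → Prop) × (Pt K κ → Prop)} (h : Good p) (v : ℕ) :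
    Good (ssuc^[v] p) := by
  induction v with
  | zero => exact h
  | succ v ih => rw [Function.iterate_succ_apply']; exact ih.suc

/-- implication on the ladder -/
theorem sI_lad {p : (Pt K κ → Prop) × (Pt K κ → Prop)} (h : Good p) (i : Fin K) (n : ℕ) :
    sI p.2 p.1 (lad i n) ↔ ∀ n', n' = n ∨ n' + 2 ≤ n → p.2 (lad i n') → p.1 (lad i n') := by
  constructor
  · intro h' n' hn' hp
    exact h' _ ((lad_le i n n').2 hn') hp
  · intro h' w hw hp
    rcases above_lad i n hw with h1 | ⟨n', rfl, hn'⟩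
    · exact h.o1 w h1
    · exact h' n' hn' hp

theorem Num.suc {p : (Pt K κ → Prop) × (Pt K κ → Prop)} (h : Good p) {i : Fin K} {k : ℕ}
    (hk : Num i p k) : Num i (ssuc p) (k + 1) := by
  intro n
  constructor
  · change (p.1 (lad i n) ∨ p.2 (lad i n)) ↔ _
    rw [(hk n).1, (hk n).2]
    omega
  · change sI p.2 p.1 (lad i n) ↔ _
    rw [sI_lad h]
    constructor
    · intro h'
      by_contra hcon
      have h1 := h' (k + 1) (by omega) (((hk (k + 1)).2).2 (by omega))
      have h2 := ((hk (k + 1)).1).1 h1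
      omega
    · intro h' n' hn' hp
      have h1 := ((hk n').2).1 hp
      apply ((hk n').1).2
      omega

theorem Num.iter {p : (Pt K κ → Prop) × (Pt K κ → Prop)} (h : Good p) {i : Fin K} {k : ℕ}
    (hk : Num i p k) (v : ℕ) : Num i (ssuc^[v] p) (k + v) := by
  induction v with
  | zero => exact hk
  | succ v ih =>
    rw [Function.iterate_succ_apply', ← add_assoc]
    exact ih.suc (h.iter v)

theorem Num.unique {p : (Pt K κ → Prop) × (Pt K κ → Prop)} {i : Fin K} {k k' : ℕ}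
    (hk : Num i p k) (hk' : Num i p k') : k = k' := by
  have h1 := ((hk k).1).2 le_rfl
  have h2 := ((hk' k').1).2 le_rfl
  have h3 := ((hk' k).1).1 h1
  have h4 := ((hk k').1).1 h2
  omega

theorem Num.pred {p : (Pt K κ → Prop) × (Pt K κ → Prop)} (h : Good p) {i : Fin K} {k : ℕ}
    (hk : Num i (ssuc p) k) (hex : ∃ w, reg i w ∧ p.1 w ∧ ¬ p.2 w) :
    1 ≤ k ∧ Num i p (k - 1) := by
  have hu : ∀ n, (p.1 (lad i n) ∨ p.2 (lad i n)) ↔ n ≤ k := fun n => (hk n).1
  have hv : ∀ n, (∀ n', n' = n ∨ n' + 2 ≤ n → p.2 (lad i n') → p.1 (lad i n')) ↔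
      (n + 1 ≤ k ∨ n = k + 1) := fun n => by rw [← sI_lad h]; exact (hk n).2
  have hm1 : ∀ n n', n' + 2 ≤ n → p.1 (lad i n) → p.1 (lad i n') := fun n n' hn =>
    h.m1 _ _ ((lad_le i n n').2 (Or.inr hn))
  have hm2 : ∀ n n', n' + 2 ≤ n → p.2 (lad i n) → p.2 (lad i n') := fun n n' hn =>
    h.m2 _ _ ((lad_le i n n').2 (Or.inr hn))
  -- `k` is in the second set only
  have hkk : p.2 (lad i k) ∧ ¬ p.1 (lad i k) := by
    have h1 : ¬ (∀ n', n' = k ∨ n' + 2 ≤ k → p.2 (lad i n') → p.1 (lad i n')) := by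
      rw [hv k]; omega
    push Not at h1
    obtain ⟨n', hn', h2, h3⟩ := h1
    rcases hn' with rfl | hn'
    · exact ⟨h2, h3⟩
    · exfalso
      exact h3 ((hv n').2 (by omega) n' (Or.inl rfl) h2)
  have hlow : ∀ n, n + 1 ≤ k → p.1 (lad i n) := by
    intro n hn
    rcases (hu n).2 (by omega) with h1 | h1
    · exact h1
    · exact (hv n).2 (Or.inl hn) n (Or.inl rfl) h1
  have hx : ∀ n, p.1 (lad i n) ↔ n + 1 ≤ k := by
    intro n
    constructor
    · intro h1
      have h2 := (hu n).1 (Or.inl h1)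
      have h3 : n ≠ k := fun h' => hkk.2 (h' ▸ h1)
      omega
    · exact hlow n
  obtain ⟨w, hw, hw1, hw2⟩ := hex
  rcases (reg_iff i w).1 hw with h1 | ⟨n0, rfl⟩
  · exact (hw2 (h.o2 w h1)).elim
  have hn0 := (hx n0).1 hw1
  have hk1 : 1 ≤ k := by omega
  refine ⟨hk1, fun n => ⟨?_, ?_⟩⟩
  · rw [hx n]; omega
  · have hpred : ¬ p.2 (lad i (k - 1)) := by
      intro h1
      -- all `n ≤ k` are in the second set
      apply hw2
      rcases Nat.lt_or_ge (n0 + 2) k with h2 | h2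
      · exact hm2 k n0 (by omega) hkk.1
      · rcases Nat.lt_or_ge (n0 + 1) k with h3 | h3
        · exact hm2 k n0 (by omega) hkk.1
        · have : n0 = k - 1 := by omega
          rw [this]; exact h1
    constructor
    · intro h1
      have h2 := (hu n).1 (Or.inr h1)
      have h3 : n ≠ k - 1 := fun h' => hpred (h' ▸ h1)
      omega
    · rintro (h1 | h1)
      · exact hm2 k n (by omega) hkk.1
      · have : n = k := by omega
        rw [this]; exact hkk.1

/-- rigidity -/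
theorem rigid {p : (Pt K κ → Prop) × (Pt K κ → Prop)} (h : Good p) (i : Fin K) (w : Pt K κ)
    (h1 : sPhi (reg i) p w) (h2 : ¬ sPsi (reg i) p w) :
    ∃ k, w ≤ lad i (k + 2) ∧ (∀ n, w ≤ lad i n → n ≤ k + 2) ∧ Num i p k := by
  unfold sPsi at h2
  simp only [not_or] at h2
  obtain ⟨g1, g2, g3⟩ := h2
  unfold sI at g1 g2 g3
  push Not at g1 g2 g3
  obtain ⟨w1, hw1, ⟨r1, x1⟩, y1⟩ := g1
  obtain ⟨w2, hw2, ⟨r2, y2⟩, x2⟩ := g2
  obtain ⟨w3, hw3, ⟨r3, z3⟩, x3⟩ := g3
  rcases (reg_iff i w1).1 r1 with h' | ⟨n1, rfl⟩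
  · exact (y1 (h.o2 _ h')).elim
  rcases (reg_iff i w2).1 r2 with h' | ⟨n2, rfl⟩
  · exact (x2 (h.o1 _ h')).elim
  rcases (reg_iff i w3).1 r3 with h' | ⟨n3, rfl⟩
  · exact (x3 (h.o1 _ h')).elim
  have := arith (fun n => p.1 (lad i n)) (fun n => p.2 (lad i n)) (fun n => w ≤ lad i n)
    (fun n => sI p.2 p.1 (lad i n))
    (fun n n' hn => h.m1 _ _ ((lad_le i n n').2 (Or.inr hn)))
    (fun n n' hn => h.m2 _ _ ((lad_le i n n').2 (Or.inr hn)))
    (fun n n' hn hd => le_trans hd ((lad_le i n n').2 (Or.inr hn)))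
    (fun n => sI_lad h i n)
    (fun n hn => h1 _ hn (reg_lad i n)) hw1 x1 y1 hw2 y2 x2 hw3 z3 x3
  exact ⟨n1, this.1, this.2.1, this.2.2⟩

/-- a pair representing a number is refuted at the right points -/
theorem Num.phi_psi {p : (Pt K κ → Prop) × (Pt K κ → Prop)} (h : Good p) {i : Fin K} {k : ℕ}
    (hk : Num i p k) (w : Pt K κ) (hw : ∀ n, w ≤ lad i n ↔ n ≤ k + 2) :
    sPhi (reg i) p w ∧ ¬ sPsi (reg i) p w := by
  have hz : ∀ n, sI p.2 p.1 (lad i n) ↔ n ≤ k ∨ n = k + 2 := by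
    intro n
    have := (hk.suc h n).2
    rw [show (ssuc p).2 = sI p.2 p.1 from rfl] at this
    rw [this]
    omega
  constructor
  · intro w' hw' hr
    rcases (reg_iff i w').1 hr with h1 | ⟨n, rfl⟩
    · exact Or.inl (h.o2 _ h1)
    · have hn := (hw n).1 hw'
      by_cases h2 : n = k + 1
      · exact Or.inl (((hk n).2).2 (Or.inr h2))
      · exact Or.inr ((hz n).2 (by omega))
  · rintro (h1 | h1 | h1)
    · have := h1 (lad i k) ((hw k).2 (by omega)) ⟨reg_lad i k, ((hk k).1).2 le_rfl⟩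
      have := ((hk k).2).1 this
      omega
    · have := h1 (lad i (k + 1)) ((hw _).2 (by omega))
        ⟨reg_lad i _, ((hk _).2).2 (Or.inr rfl)⟩
      have := ((hk (k + 1)).1).1 this
      omega
    · have := h1 (lad i (k + 2)) ((hw _).2 (by omega)) ⟨reg_lad i _, (hz _).2 (Or.inr rfl)⟩
      have := ((hk (k + 2)).1).1 this
      omega

/-- points that see all ladders -/
theorem sees_all (hK : 2 ≤ K) (w : Pt K κ) (n : Fin K → ℕ)
    (h : ∀ i : Fin K, w ≤ lad i (n i + 2)) : (∃ t, w = e t) ∨ w = r := by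
  cases w with
  | a j => exact ((h ⟨0, by omega⟩ : False)).elim
  | b => exact ((h ⟨0, by omega⟩ : False)).elim
  | c j => exact ((h ⟨0, by omega⟩ : False)).elim
  | u i m =>
    exfalso
    by_cases hi : i = ⟨0, by omega⟩
    · obtain ⟨h1, _⟩ : i = ⟨1, by omega⟩ ∧ _ := h ⟨1, by omega⟩
      rw [hi, Fin.ext_iff] at h1
      simp at h1
    · obtain ⟨h1, _⟩ : i = ⟨0, by omega⟩ ∧ _ := h ⟨0, by omega⟩
      exact hi h1
  | e t => exact Or.inl ⟨t, rfl⟩
  | r => exact Or.inr rfl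

/-- the semantics of the configuration formula -/
theorem sE_r (hK : 2 ≤ K) (p : ℕ → (Pt K κ → Prop) × (Pt K κ → Prop))
    (hp : ∀ i < K, Good (p i)) :
    ¬ sE K (fun i => reg i) p (r : Pt K κ) ↔ ∃ t, ∀ i : Fin K, Num i (p i) (κ t i) := by
  constructor
  · intro h
    unfold sE sI at h
    push Not at h
    obtain ⟨w, _, h1, h2⟩ := h
    have h3 : ∀ i : Fin K, ∃ k, w ≤ lad i (k + 2) ∧ (∀ n, w ≤ lad i n → n ≤ k + 2) ∧
        Num i (p i) k := fun i => rigid (hp i i.2) i w (h1 i i.2) (h2 i i.2)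
    choose k hk1 hk2 hk3 using h3
    rcases sees_all hK w k hk1 with ⟨t, rfl⟩ | rfl
    · refine ⟨t, fun i => ?_⟩
      have h4 := (e_le_lad t i _).1 (hk1 i)
      have h5 := hk2 i (κ t i + 2) ((e_le_lad t i _).2 le_rfl)
      have h6 : k i = κ t i := by omega
      rw [← h6]
      exact hk3 i
    · exfalso
      have := hk2 ⟨0, by omega⟩ (k ⟨0, by omega⟩ + 3) (r_le _)
      omega
  · rintro ⟨t, ht⟩ h
    have h1 : ∀ i : Fin K, sPhi (reg i) (p i) (e t : Pt K κ) ∧
        ¬ sPsi (reg i) (p i) (e t : Pt K κ) := fun i =>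
      (ht i).phi_psi (hp i i.2) (e t) (fun n => e_le_lad t i n)
    obtain ⟨i, hi, h2⟩ := h (e t) (r_le _) (fun i hi => (h1 ⟨i, hi⟩).1)
    exact (h1 ⟨i, hi⟩).2 h2

/-- the configuration formula holds at the points that do not see configurations -/
theorem sE_of (hK : 2 ≤ K) (p : ℕ → (Pt K κ → Prop) × (Pt K κ → Prop))
    (hp : ∀ i < K, Good (p i)) (w : Pt K κ) (hw : ∀ w', w ≤ w' → (∀ t, w' ≠ e t) ∧ w' ≠ r) :
    sE K (fun i => reg i) p w := by
  intro w' hw' h1
  by_contra h2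
  push Not at h2
  have h3 : ∀ i : Fin K, ∃ k, w' ≤ lad i (k + 2) := fun i => by
    obtain ⟨k, hk, _⟩ := rigid (hp i i.2) i w' (h1 i i.2) (h2 i i.2)
    exact ⟨k, hk⟩
  choose k hk using h3
  rcases sees_all hK w' k hk with ⟨t, ht⟩ | hr
  · exact (hw w' hw').1 t ht
  · exact (hw w' hw').2 hr

end ladder

end Pool.Agent.W898.VR
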