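import Pool.Agent.W898.VR.SC

/-!
# Systems deriving Visser's rules are structurally complete: the projective formula
-/

set_option autoImplicit false

namespace Pool.Agent.W898.VR

open Form

/-! ### subformulas -/

/-- closed under subformulas -/
structure Cl (Q : Set Form) : Prop where
  con : ∀ a b, Form.con a b ∈ Q → a ∈ Q ∧ b ∈ Q
  dis : ∀ a b, Form.dis a b ∈ Q → a ∈ Q ∧ b ∈ Q
  imp : ∀ a b, Form.imp a b ∈ Q → a ∈ Q ∧ b ∈ Q

/-- the set of subformulas -/
def sf : Form → Set Form
  | var i => {var i}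
  | bot => {bot}
  | con a b => insert (con a b) (sf a ∪ sf b)
  | dis a b => insert (dis a b) (sf a ∪ sf b)
  | imp a b => insert (imp a b) (sf a ∪ sf b)

theorem sf_self (a : Form) : a ∈ sf a := by
  cases a <;> simp [sf]

theorem sf_fin (a : Form) : (sf a).Finite := by
  induction a with
  | var i => exact Set.finite_singleton _
  | bot => exact Set.finite_singleton _
  | con a b iha ihb => exact (iha.union ihb).insert _
  | dis a b iha ihb => exact (iha.union ihb).insert _
  | imp a b iha ihb => exact (iha.union ihb).insert _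

theorem Cl.union {Q R : Set Form} (hQ : Cl Q) (hR : Cl R) : Cl (Q ∪ R) where
  con a b h := by
    rcases h with h | h
    · exact ⟨Or.inl (hQ.con a b h).1, Or.inl (hQ.con a b h).2⟩
    · exact ⟨Or.inr (hR.con a b h).1, Or.inr (hR.con a b h).2⟩
  dis a b h := by
    rcases h with h | h
    · exact ⟨Or.inl (hQ.dis a b h).1, Or.inl (hQ.dis a b h).2⟩
    · exact ⟨Or.inr (hR.dis a b h).1, Or.inr (hR.dis a b h).2⟩
  imp a b h := by
    rcases h with h | h
    · exact ⟨Or.inl (hQ.imp a b h).1, Or.inl (hQ.imp a b h).2⟩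
    · exact ⟨Or.inr (hR.imp a b h).1, Or.inr (hR.imp a b h).2⟩

theorem sf_cl (a : Form) : Cl (sf a) := by
  induction a with
  | var i => exact ⟨fun _ _ h => (by cases h), fun _ _ h => (by cases h), fun _ _ h => (by cases h)⟩
  | bot => exact ⟨fun _ _ h => (by cases h), fun _ _ h => (by cases h), fun _ _ h => (by cases h)⟩
  | con a b iha ihb =>
    have hu := iha.union ihb
    refine ⟨fun c d h => ?_, fun c d h => ?_, fun c d h => ?_⟩
    · rcases h with h | h
      · simp only [con.injEq] at h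
        rw [h.1, h.2]
        exact ⟨Or.inr (Or.inl (sf_self a)), Or.inr (Or.inr (sf_self b))⟩
      · exact ⟨Or.inr (hu.con c d h).1, Or.inr (hu.con c d h).2⟩
    · rcases h with h | h
      · cases h
      · exact ⟨Or.inr (hu.dis c d h).1, Or.inr (hu.dis c d h).2⟩
    · rcases h with h | h
      · cases h
      · exact ⟨Or.inr (hu.imp c d h).1, Or.inr (hu.imp c d h).2⟩
  | dis a b iha ihb =>
    have hu := iha.union ihb
    refine ⟨fun c d h => ?_, fun c d h => ?_, fun c d h => ?_⟩
    · rcases h with h | h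
      · cases h
      · exact ⟨Or.inr (hu.con c d h).1, Or.inr (hu.con c d h).2⟩
    · rcases h with h | h
      · simp only [dis.injEq] at h
        rw [h.1, h.2]
        exact ⟨Or.inr (Or.inl (sf_self a)), Or.inr (Or.inr (sf_self b))⟩
      · exact ⟨Or.inr (hu.dis c d h).1, Or.inr (hu.dis c d h).2⟩
    · rcases h with h | h
      · cases h
      · exact ⟨Or.inr (hu.imp c d h).1, Or.inr (hu.imp c d h).2⟩
  | imp a b iha ihb =>
    have hu := iha.union ihb
    refine ⟨fun c d h => ?_, fun c d h => ?_, fun c d h => ?_⟩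
    · rcases h with h | h
      · cases h
      · exact ⟨Or.inr (hu.con c d h).1, Or.inr (hu.con c d h).2⟩
    · rcases h with h | h
      · cases h
      · exact ⟨Or.inr (hu.dis c d h).1, Or.inr (hu.dis c d h).2⟩
    · rcases h with h | h
      · simp only [imp.injEq] at h
        rw [h.1, h.2]
        exact ⟨Or.inr (Or.inl (sf_self a)), Or.inr (Or.inr (sf_self b))⟩
      · exact ⟨Or.inr (hu.imp c d h).1, Or.inr (hu.imp c d h).2⟩

theorem exists_cl (Γ : Set Form) (hΓ : Γ.Finite) : ∃ Q : Set Form, Q.Finite ∧ Cl Q ∧ Γ ⊆ Q := by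
  induction Γ, hΓ using Set.Finite.induction_on with
  | empty =>
    exact ⟨∅, Set.finite_empty, ⟨fun _ _ h => h.elim, fun _ _ h => h.elim, fun _ _ h => h.elim⟩,
      Set.empty_subset _⟩
  | @insert a Γ _ _ ih =>
    obtain ⟨Q, h1, h2, h3⟩ := ih
    refine ⟨sf a ∪ Q, (sf_fin a).union h1, (sf_cl a).union h2, ?_⟩
    intro x hx
    rcases hx with rfl | hx
    · exact Or.inl (sf_self x)
    · exact Or.inr (h3 hx)

/-! ### types -/

section types

variable {W : Type*} [Preorder W]

/-- the type of a point -/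
def typ (V : ℕ → W → Prop) (Q : Set Form) (x : W) : Set Form := {C | C ∈ Q ∧ frc V C x}

/-- the formula saying that all types are in `R` -/
noncomputable def fP (Q : Set Form) (hQ : Q.Finite) (R : Set (Set Form)) : Form := by
  classical
  exact lc ((hQ.toFinset.powerset.filter (fun X : Finset Form => (X : Set Form) ∉ R)).toList.map
    (fun X => imp (lc X.toList) (ldis (hQ.toFinset \ X).toList)))

theorem frc_fP (V : ℕ → W → Prop) {Q : Set Form} (hQ : Q.Finite) (R : Set (Set Form)) (x : W) :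
    frc V (fP Q hQ R) x ↔ ∀ y, x ≤ y → typ V Q y ∈ R := by
  classical
  unfold fP
  rw [frc_lc]
  constructor
  · intro h y hy
    by_contra hn
    set X : Finset Form := hQ.toFinset.filter (fun C => frc V C y) with hX
    have e1 : (X : Set Form) = typ V Q y := by
      ext C
      simp [hX, typ]
    have h1 := h (imp (lc X.toList) (ldis (hQ.toFinset \ X).toList)) (by
      rw [List.mem_map]
      refine ⟨X, ?_, rfl⟩
      rw [Finset.mem_toList, Finset.mem_filter, Finset.mem_powerset, e1]
      exact ⟨Finset.filter_subset _ _, hn⟩)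
    have h2 := h1 y hy (by
      rw [frc_lc]
      intro a ha
      rw [Finset.mem_toList, hX, Finset.mem_filter] at ha
      exact ha.2)
    rw [frc_ldis] at h2
    obtain ⟨a, ha, h3⟩ := h2
    rw [Finset.mem_toList, Finset.mem_sdiff, hX, Finset.mem_filter] at ha
    exact ha.2 ⟨ha.1, h3⟩
  · intro h f hf
    rw [List.mem_map] at hf
    obtain ⟨X, hX, rfl⟩ := hf
    rw [Finset.mem_toList, Finset.mem_filter, Finset.mem_powerset] at hX
    intro y hy h1
    by_contra h2
    apply hX.2
    have e1 : (X : Set Form) = typ V Q y := by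
      ext C
      rw [frc_lc] at h1
      rw [frc_ldis] at h2
      push Not at h2
      constructor
      · intro hC
        have hC' : C ∈ X := hC
        refine ⟨?_, h1 C (by rwa [Finset.mem_toList])⟩
        have := hX.1 hC'
        simpa using this
      · rintro ⟨hC1, hC2⟩
        by_contra hC3
        have hC3' : C ∉ X := hC3
        refine h2 C ?_ hC2
        rw [Finset.mem_toList, Finset.mem_sdiff]
        exact ⟨by simpa using hC1, hC3'⟩
    rw [e1]
    exact h y hy

/-- a tight predecessor of the types in `S` -/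
structure Tp (Q : Set Form) (S : Set (Set Form)) (X : Set Form) : Prop where
  sub : X ⊆ Q
  low : ∀ C ∈ X, ∀ Y ∈ S, C ∈ Y
  bot : Form.bot ∉ X
  con : ∀ a b, Form.con a b ∈ Q → (Form.con a b ∈ X ↔ a ∈ X ∧ b ∈ X)
  dis : ∀ a b, Form.dis a b ∈ Q → (Form.dis a b ∈ X ↔ a ∈ X ∨ b ∈ X)
  imp : ∀ a b, Form.imp a b ∈ Q → (Form.imp a b ∈ X ↔
    (∀ Y ∈ S, Form.imp a b ∈ Y) ∧ (a ∈ X → b ∈ X))

/-- the simple substitutions -/
noncomputable def ths (P : Form) (a : Set ℕ) : ℕ → Form := fun i => by
  classical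
  exact if i ∈ a then imp P (var i) else con P (var i)

/-- the new valuation -/
def nV (P : Form) (V : ℕ → W → Prop) (a : Set ℕ) : ℕ → W → Prop := fun i => frc V (ths P a i)

theorem nV_val {P : Form} {V : ℕ → W → Prop} (hV : Val V) (a : Set ℕ) : Val (nV P V a) :=
  val_subst hV _

/-- `V'` agrees with `V` on the region of `P` -/
def Ag (P : Form) (V V' : ℕ → W → Prop) : Prop :=
  ∀ x, frc V P x → ∀ φ, frc V' φ x ↔ frc V φ x

theorem Ag.trans {P : Form} {V V' V'' : ℕ → W → Prop} (h : Ag P V V') (h' : Ag P V' V'') :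
    Ag P V V'' := by
  intro x hx φ
  rw [h' x ((h x hx P).2 hx), h x hx]

theorem ag_nV {P : Form} {V : ℕ → W → Prop} (hV : Val V) (a : Set ℕ) : Ag P V (nV P V a) := by
  intro x hx φ
  induction φ generalizing x with
  | var i =>
    change frc V (ths P a i) x ↔ V i x
    unfold ths
    split_ifs with h
    · exact ⟨fun h1 => h1 x le_rfl hx, fun h1 y hy _ => hV i x y hy h1⟩
    · exact ⟨fun h1 => h1.2, fun h1 => ⟨hx, h1⟩⟩
  | bot => rfl
  | con a b iha ihb => simp only [frc, iha x hx, ihb x hx]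
  | dis a b iha ihb => simp only [frc, iha x hx, ihb x hx]
  | imp a b iha ihb =>
    simp only [frc]
    refine forall_congr' fun y => forall_congr' fun hy => ?_
    rw [iha y (frc_mono hV P hy hx), ihb y (frc_mono hV P hy hx)]

/-- the types of the good points above `x` -/
def Sx (P : Form) (Q : Set Form) (V : ℕ → W → Prop) (x : W) : Set (Set Form) :=
  {Y | ∃ y, x ≤ y ∧ frc V P y ∧ Y = typ V Q y}

theorem Sx_mono {P : Form} {Q : Set Form} {V V' : ℕ → W → Prop} (h : Ag P V V') (x : W) :
    Sx P Q V x ⊆ Sx P Q V' x := by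
  rintro Y ⟨y, hy, h1, rfl⟩
  refine ⟨y, hy, (h y h1 P).2 h1, ?_⟩
  ext C
  simp only [typ, Set.mem_ofPred_eq, h y h1 C]

theorem Sx_anti {P : Form} {Q : Set Form} {V : ℕ → W → Prop} {x z : W} (h : x ≤ z) :
    Sx P Q V z ⊆ Sx P Q V x := by
  rintro Y ⟨y, hy, h1, rfl⟩
  exact ⟨y, h.trans hy, h1, rfl⟩

variable {Q : Set Form} (hQ : Q.Finite) (hcl : Cl Q) {R : Set (Set Form)}

include hcl in
/-- one step -/
theorem step_lemma {V : ℕ → W → Prop} (hV : Val V) {S : Set (Set Form)} {X : Set Form}
    (hX : Tp Q S X) (hXR : X ∈ R) (x : W)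
    (hst : ∀ z, x ≤ z → ¬ frc V (fP Q hQ R) z → Sx (fP Q hQ R) Q V z = S) :
    frc (nV (fP Q hQ R) V {i | var i ∈ X}) (fP Q hQ R) x := by
  set P := fP Q hQ R with hP
  set V' := nV P V {i | var i ∈ X} with hV'
  have hag : Ag P V V' := ag_nV hV _
  have hVV : Val V' := nV_val hV _
  have key : ∀ C ∈ Q, ∀ z, x ≤ z → ¬ frc V P z → (frc V' C z ↔ C ∈ X) := by
    intro C
    induction C with
    | var i =>
      intro hC z hz hPz
      change frc V (ths P {i | var i ∈ X} i) z ↔ _
      unfold ths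
      by_cases hi : var i ∈ X
      · have hi' : i ∈ {i | var i ∈ X} := hi
        rw [if_pos hi']
        refine ⟨fun _ => hi, fun _ y hy h1 => ?_⟩
        have h2 : typ V Q y ∈ S := by
          rw [← hst z hz hPz]
          exact ⟨y, hy, h1, rfl⟩
        exact (hX.low _ hi _ h2).2
      · have hi' : i ∉ {i | var i ∈ X} := hi
        rw [if_neg hi']
        exact ⟨fun h1 => (hPz h1.1).elim, fun h1 => (hi h1).elim⟩
    | bot =>
      intro _ z _ _
      exact ⟨fun h => h.elim, fun h => (hX.bot h).elim⟩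
    | con a b iha ihb =>
      intro hC z hz hPz
      rw [hX.con a b hC, frc, iha (hcl.con a b hC).1 z hz hPz, ihb (hcl.con a b hC).2 z hz hPz]
    | dis a b iha ihb =>
      intro hC z hz hPz
      rw [hX.dis a b hC, frc, iha (hcl.dis a b hC).1 z hz hPz, ihb (hcl.dis a b hC).2 z hz hPz]
    | imp a b iha ihb =>
      intro hC z hz hPz
      have ha := (hcl.imp a b hC).1
      have hb := (hcl.imp a b hC).2
      rw [hX.imp a b hC]
      constructor
      · intro h
        constructor
        · intro Y hY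
          rw [← hst z hz hPz] at hY
          obtain ⟨y, hy, h1, rfl⟩ := hY
          refine ⟨hC, ?_⟩
          rw [← hag y h1]
          exact frc_mono hVV _ hy h
        · intro h1
          exact (ihb hb z hz hPz).1 (h z le_rfl ((iha ha z hz hPz).2 h1))
      · rintro ⟨h1, h2⟩ y hy h3
        by_cases hPy : frc V P y
        · have h4 : typ V Q y ∈ S := by
            rw [← hst z hz hPz]
            exact ⟨y, hy, hPy, rfl⟩
          have h5 := (h1 _ h4).2
          rw [hag y hPy] at h3 ⊢
          exact h5 y le_rfl h3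
        · rw [iha ha y (hz.trans hy) hPy] at h3
          rw [ihb hb y (hz.trans hy) hPy]
          exact h2 h3
  rw [hP, frc_fP]
  intro z hz
  by_cases hPz : frc V P z
  · have e1 : typ V' Q z = typ V Q z := by
      ext C
      simp only [typ, Set.mem_ofPred_eq, hag z hPz C]
    rw [e1]
    have h2 := hPz
    rw [hP, frc_fP] at h2
    exact h2 z le_rfl
  · have e1 : typ V' Q z = X := by
      ext C
      constructor
      · rintro ⟨h1, h2⟩
        exact (key C h1 z hz hPz).1 h2
      · intro h1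
        exact ⟨hX.sub h1, (key C (hX.sub h1) z hz hPz).2 h1⟩
    rw [e1]
    exact hXR

/-- iteration -/
def iterV (P : Form) (V : ℕ → W → Prop) : List (Set ℕ) → ℕ → W → Prop
  | [] => V
  | a :: L => iterV P (nV P V a) L

theorem iterV_append (P : Form) (V : ℕ → W → Prop) (L L' : List (Set ℕ)) :
    iterV P V (L ++ L') = iterV P (iterV P V L) L' := by
  induction L generalizing V with
  | nil => rfl
  | cons a L ih => exact ih _

theorem iterV_val {P : Form} {V : ℕ → W → Prop} (hV : Val V) (L : List (Set ℕ)) :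
    Val (iterV P V L) := by
  induction L generalizing V with
  | nil => exact hV
  | cons a L ih => exact ih (nV_val hV a)

theorem ag_iterV {P : Form} {V : ℕ → W → Prop} (hV : Val V) (L : List (Set ℕ)) :
    Ag P V (iterV P V L) := by
  induction L generalizing V with
  | nil => exact fun _ _ _ => Iff.rfl
  | cons a L ih => exact (ag_nV hV a).trans (ih (nV_val hV a))

/-- the composed substitution -/
noncomputable def compS (P : Form) : List (Set ℕ) → ℕ → Form
  | [] => var
  | a :: L => fun i => (compS P L i).subst (ths P a)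

theorem iterV_eq (P : Form) (V : ℕ → W → Prop) (L : List (Set ℕ)) :
    iterV P V L = fun i => frc V (compS P L i) := by
  induction L generalizing V with
  | nil => rfl
  | cons a L ih =>
    rw [iterV, ih]
    funext i x
    exact propext (frc_subst V (ths P a) (compS P L i) x).symm

/-- points outside of the good region see at least `n` types -/
def Lev (P : Form) (Q : Set Form) (V : ℕ → W → Prop) (n : ℕ) : Prop :=
  ∀ x, ¬ frc V P x → n ≤ (Sx P Q V x).ncard

theorem Sx_sub (V : ℕ → W → Prop) (x : W) : Sx (fP Q hQ R) Q V x ⊆ R := by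
  rintro Y ⟨y, _, h1, rfl⟩
  rw [frc_fP] at h1
  exact h1 y le_rfl

include hcl in
theorem round_lemma (hR : R.Finite) (X : Set (Set Form) → Set Form)
    (hX : ∀ S, S ⊆ R → Tp Q S (X S) ∧ X S ∈ R) {V : ℕ → W → Prop} (hV : Val V)
    (L : List (Set ℕ)) (hL : ∀ S, S ⊆ R → {i | var i ∈ X S} ∈ L) (n : ℕ)
    (hn : Lev (fP Q hQ R) Q V n) : Lev (fP Q hQ R) Q (iterV (fP Q hQ R) V L) (n + 1) := by
  set P := fP Q hQ R with hP
  intro x hx
  by_contra hlt
  set S := Sx P Q (iterV P V L) x with hS
  have hSR : S ⊆ R := Sx_sub hQ _ x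
  obtain ⟨L1, L2, hLL⟩ := List.append_of_mem (hL S hSR)
  have hSf : S.Finite := hR.subset hSR
  rw [hLL, iterV_append] at hx hS
  set V1 := iterV P V L1 with hV1
  have hV1v : Val V1 := iterV_val hV L1
  change ¬ frc (iterV P (nV P V1 _) L2) P x at hx
  have hag1 : Ag P V V1 := ag_iterV hV L1
  have hag2 : Ag P V1 (iterV P V1 ({i | var i ∈ X S} :: L2)) := ag_iterV hV1v _
  have hst : ∀ z, x ≤ z → ¬ frc V1 P z → Sx P Q V1 z = S := by
    intro z hz hPz
    have h1 : Sx P Q V1 z ⊆ S := by
      rw [hS]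
      exact (Sx_anti hz).trans (Sx_mono hag2 x)
    refine Set.eq_of_subset_of_ncard_le h1 ?_ hSf
    have h2 : ¬ frc V P z := fun h => hPz ((hag1 z h P).2 h)
    have h3 := hn z h2
    have h4 : (Sx P Q V z).ncard ≤ (Sx P Q V1 z).ncard :=
      Set.ncard_le_ncard (Sx_mono hag1 z) (hSf.subset h1)
    omega
  have h5 := step_lemma hQ hcl hV1v (hX S hSR).1 (hX S hSR).2 x hst
  have hag3 : Ag P (nV P V1 {i | var i ∈ X S}) (iterV P (nV P V1 {i | var i ∈ X S}) L2) :=
    ag_iterV (nV_val hV1v _) L2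
  exact hx ((hag3 x h5 P).2 h5)

/-- repeating a list -/
def repL (L : List (Set ℕ)) : ℕ → List (Set ℕ)
  | 0 => []
  | n + 1 => repL L n ++ L

include hcl in
theorem all_good (hR : R.Finite) (X : Set (Set Form) → Set Form)
    (hX : ∀ S, S ⊆ R → Tp Q S (X S) ∧ X S ∈ R) {V : ℕ → W → Prop} (hV : Val V)
    (L : List (Set ℕ)) (hL : ∀ S, S ⊆ R → {i | var i ∈ X S} ∈ L) (x : W) :
    frc (iterV (fP Q hQ R) V (repL L (R.ncard + 1))) (fP Q hQ R) x := by
  have h1 : ∀ n, Lev (fP Q hQ R) Q (iterV (fP Q hQ R) V (repL L n)) n := by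
    intro n
    induction n with
    | zero => exact fun x _ => Nat.zero_le _
    | succ n ih =>
      rw [repL, iterV_append]
      exact round_lemma hQ hcl hR X hX (iterV_val hV _) L hL n ih
  by_contra hn
  have h2 := h1 (R.ncard + 1) x hn
  have h3 := Set.ncard_le_ncard (Sx_sub hQ (R := R)
    (iterV (fP Q hQ R) V (repL L (R.ncard + 1))) x) hR
  omega

end types

/-! ### the theorem -/

/-- **Ghilardi, Iemhoff.** A finitary structural consequence relation that contains intuitionistic
logic and derives all of Visser's rules is structurally complete. -/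
theorem visser_sc (d : Set Form → Form → Prop) (hd : IsDS d) (h1 : ∀ a, Logic top a → d ∅ a)
    (h2 : ∀ a b, d {imp a b, a} b) (h3 : ∀ n, d {vPrem n} (vConc n)) : StrC d := by
  intro Γ hΓ B hadm
  by_contra hnot
  have mono : ∀ (Γ Δ : Set Form) (a : Form), Γ ⊆ Δ → d Γ a → d Δ a := fun Γ Δ a hs hda =>
    hd.cut Δ Γ a (fun b hb => hd.refl Δ b (hs hb)) hda
  -- the closure of `Γ`
  have hVT : VT {a | d Γ a} := by
    refine ⟨fun a ha => mono _ _ _ (Set.empty_subset _) (h1 a ha), fun a b hab ha => ?_,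
      fun n σ hp => ?_⟩
    · refine hd.cut Γ {imp a b, a} b ?_ (h2 a b)
      intro c hc
      rcases hc with rfl | hc
      · exact hab
      · rw [Set.mem_singleton_iff] at hc
        rw [hc]; exact ha
    · have h4 := hd.sub σ _ _ (h3 n)
      refine hd.cut Γ _ _ ?_ h4
      rintro c ⟨b, hb, rfl⟩
      rw [Set.mem_singleton_iff] at hb
      rw [hb]; exact hp
  obtain ⟨Θ, hΘ0, hΘ, hB, hp⟩ := exists_max_VT hVT hnot
  have hbot : bot ∉ Θ := fun hb => hB (hΘ.mp _ _ (hΘ.ipc _ (Logic.botE B)) hb)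
  have hΓΘ : Γ ⊆ Θ := fun a ha => hΘ0 (hd.refl Γ a ha)
  obtain ⟨Q, hQ, hcl, hΓQ⟩ := exists_cl Γ hΓ
  set R : Set (Set Form) := {X | ∃ T : PT top, Θ ⊆ T.s ∧ X = Q ∩ T.s} with hRdef
  have hR : R.Finite := by
    refine hQ.finite_subsets.subset ?_
    rintro X ⟨T, _, rfl⟩
    exact Set.inter_subset_left
  have hX : ∀ S, S ⊆ R → ∃ X, Tp Q S X ∧ X ∈ R := by
    intro S hS
    obtain ⟨T, hT1, hT2, hT3⟩ := tight hΘ hp hbot {T | Θ ⊆ T.s ∧ Q ∩ T.s ∈ S} (fun T hT => hT.1)
    refine ⟨Q ∩ T.s, ⟨Set.inter_subset_left, ?_, fun h => T.cons h.2, ?_, ?_, ?_⟩, T, hT1, rfl⟩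
    · intro C hC Y hY
      obtain ⟨U, hU1, hU2⟩ := hS hY
      rw [hU2] at hY ⊢
      exact ⟨hC.1, hT2 C hC.2 U ⟨hU1, hY⟩⟩
    · intro a b hab
      have hc := hcl.con a b hab
      constructor
      · intro h
        have := (T.mem_and).1 h.2
        exact ⟨⟨hc.1, this.1⟩, ⟨hc.2, this.2⟩⟩
      · intro h
        exact ⟨hab, (T.mem_and).2 ⟨h.1.2, h.2.2⟩⟩
    · intro a b hab
      have hc := hcl.dis a b hab
      constructor
      · intro h
        rcases (T.mem_or).1 h.2 with h' | h'
        · exact Or.inl ⟨hc.1, h'⟩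
        · exact Or.inr ⟨hc.2, h'⟩
      · intro h
        refine ⟨hab, (T.mem_or).2 ?_⟩
        rcases h with h | h
        · exact Or.inl h.2
        · exact Or.inr h.2
    · intro a b hab
      have hc := hcl.imp a b hab
      constructor
      · intro h
        have h4 := (hT3 a b).1 h.2
        constructor
        · intro Y hY
          obtain ⟨U, hU1, hU2⟩ := hS hY
          rw [hU2] at hY ⊢
          exact ⟨hab, h4.1 U ⟨hU1, hY⟩⟩
        · exact fun h5 => ⟨hc.2, h4.2 h5.2⟩
      · rintro ⟨h4, h5⟩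
        refine ⟨hab, (hT3 a b).2 ⟨?_, ?_⟩⟩
        · rintro U ⟨_, hU2⟩
          exact (h4 _ hU2).2
        · exact fun h6 => (h5 ⟨hc.1, h6⟩).2
  choose! X hX using hX
  -- the list of simple substitutions
  obtain ⟨L, hL⟩ : ∃ L : List (Set ℕ), ∀ S, S ⊆ R → {i | var i ∈ X S} ∈ L := by
    have hf : ((fun S => {i | var i ∈ X S}) '' {S | S ⊆ R}).Finite :=
      (hR.finite_subsets).image _
    refine ⟨hf.toFinset.toList, fun S hS => ?_⟩
    rw [Finset.mem_toList, Set.Finite.mem_toFinset]
    exact ⟨S, hS, rfl⟩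
  set P := fP Q hQ R with hP
  set LL := repL L (R.ncard + 1) with hLL
  -- `P` belongs to `Θ`
  have hPΘ : ∀ T : PT top, Θ ⊆ T.s → P ∈ T.s := by
    intro T hT
    rw [← T.truth, hP, frc_fP]
    intro U hU
    refine ⟨U, hT.trans hU, ?_⟩
    ext C
    simp only [typ, Set.mem_ofPred_eq, U.truth, Set.mem_inter_iff]
  have hgood : ∀ T : PT top, frc (iterV P (PT.cV top) LL) P T := fun T =>
    all_good hQ hcl hR X hX (PT.cV_val top) L hL T
  -- the substitution
  have hσ : ∀ C ∈ Γ, d ∅ (C.subst (compS P LL)) := by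
    intro C hC
    apply h1
    by_contra hn
    obtain ⟨T, hT⟩ := exists_pt_of_not_logic hn
    apply hT
    rw [← T.truth, frc_subst, ← iterV_eq]
    have h4 := hgood T
    rw [hP, frc_fP] at h4
    obtain ⟨U, hU1, hU2⟩ := h4 T le_rfl
    have h5 : C ∈ Q ∩ U.s := ⟨hΓQ hC, hU1 (hΓΘ hC)⟩
    rw [← hU2] at h5
    exact h5.2
  have h4 := hΘ0 (mono ∅ Γ _ (Set.empty_subset _) (hadm (compS P LL) hσ))
  apply hB
  refine hΘ.sem fun T hT => ?_
  have h5 : B.subst (compS P LL) ∈ T.s := hT h4
  rw [← T.truth, frc_subst, ← iterV_eq] at h5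
  rw [← T.truth]
  have h6 : frc (PT.cV top) P T := (T.truth P).2 (hPΘ T hT)
  exact (ag_iterV (PT.cV_val top) LL T h6 B).1 h5

end Pool.Agent.W898.VR
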