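import Pool.Agent.W898.VR.Mach
import Pool.Agent.W898.VR.Ghi

/-!
# The frame with five points
-/

set_option autoImplicit false

namespace Pool.Agent.W898.VR

open Form

/-! ### the base logic -/

/-- axiom of the base logic -/
def fA0 (K : ℕ) : Form := con fT (con fL (fW K))

/-- the additional disjunction -/
def fBet (K : ℕ) : Form :=
  dis (var 1) (dis (dj (fun j => imp (var (j + 1)) (var (j + 2))) (K + 1)) (neg (var (K + 2))))

/-- the formula defining the top of the frame -/
def fpi (K : ℕ) : Form := con fn (fBet K)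

/-- the additional axiom -/
def fY (K : ℕ) : Form :=
  imp (imp (imp (neg (neg (fpi K))) (fpi K)) (dis (neg (fpi K)) (neg (neg (fpi K))))) (fW K)

/-- the new axiom -/
def fBY (K : ℕ) (l : List Ins) (c : ℕ → ℕ) : Form := con (fB K l c) (fY K)

section base

variable {W : Type*} [Preorder W] {V : ℕ → W → Prop}

theorem frc_fBY_of {K : ℕ} (hT : ∀ w, frc V fT w) (hL : ∀ w, frc V fL w)
    (hW : ∀ w, frc V (fW K) w) (l : List Ins) (c : ℕ → ℕ) (w : W) : frc V (fBY K l c) w :=
  ⟨frc_fB_of K l c hT hL hW w, fun w' _ _ => hW w'⟩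

theorem exists_bet (K : ℕ) (x : W) : ∃ y, x ≤ y ∧ frc V (fBet K) y := by
  by_cases h : ∃ y, x ≤ y ∧ V 1 y
  · obtain ⟨y, hy, h1⟩ := h
    exact ⟨y, hy, Or.inl h1⟩
  · push Not at h
    refine ⟨x, le_rfl, Or.inr (Or.inl ?_)⟩
    rw [frc_dj]
    exact ⟨0, by omega, fun y hy h1 => (h y hy h1).elim⟩

/-- `W` implies that the point is not of the last type -/
theorem W_imp (hV : Val V) {K : ℕ} {x : W} (h : frc V (fW K) x) :
    frc V (neg (neg (fpi K))) x ∨ frc V (imp (neg (neg (fpi K))) (fpi K)) x := by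
  have hq : ∀ y, frc V (neg (neg (fpi K))) y → frc V fn y := by
    intro y hy z hz hqz
    refine hy z hz fun u hu hpu => ?_
    exact hpu.1 u le_rfl (hV 0 z u hu hqz)
  rcases h with h | h | h | h
  · left
    intro y hy hny
    obtain ⟨z, hz, hb⟩ := exists_bet (V := V) K y
    exact hny z hz ⟨frc_mono hV fn (hy.trans hz) h, hb⟩
  · right
    intro y hy hny
    exact ⟨hq y hny, Or.inl (h y hy (hq y hny))⟩
  · right
    rw [frc_dj] at h
    obtain ⟨j, hj, h⟩ := h
    intro y hy hny
    refine ⟨hq y hny, Or.inr (Or.inl ?_)⟩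
    rw [frc_dj]
    exact ⟨j, hj, fun z hz hz1 =>
      h z (hy.trans hz) ⟨frc_mono hV fn hz (hq y hny), hz1⟩⟩
  · right
    intro y hy hny
    exact ⟨hq y hny, Or.inr (Or.inr fun z hz hz1 =>
      h z (hy.trans hz) ⟨frc_mono hV fn hz (hq y hny), hz1⟩)⟩

end base

/-- monotonicity of the logics -/
theorem Logic.le {A B : Form} (h : Logic A B) {φ : Form} (hφ : Logic B φ) : Logic A φ := by
  induction hφ with
  | inst σ => exact h.sub σ
  | k a b => exact Logic.k _ _
  | s a b c => exact Logic.s _ _ _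
  | andL a b => exact Logic.andL _ _
  | andR a b => exact Logic.andR _ _
  | andI a b => exact Logic.andI _ _
  | orL a b => exact Logic.orL _ _
  | orR a b => exact Logic.orR _ _
  | orE a b c => exact Logic.orE _ _ _
  | botE a => exact Logic.botE _
  | mp a b _ _ ih1 ih2 => exact Logic.mp _ _ ih1 ih2

theorem logic_of_canon {A a : Form} (h : ∀ T : PT A, frc (PT.cV A) a T) : Logic A a := by
  by_contra hn
  obtain ⟨T, hT⟩ := exists_pt_of_not_logic hn
  exact hT ((T.truth a).1 (h T))

theorem logic_self (A : Form) : Logic A A := by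
  have := Logic.inst (A := A) var
  rwa [subst_var] at this

theorem logic_top_le {A φ : Form} (h : Logic top φ) : Logic A φ :=
  Logic.le (Logic.botE bot) h

theorem logic_fT {A : Form} {K : ℕ} (h : Logic A (fA0 K)) : Logic A fT :=
  Logic.mp _ _ (Logic.andL _ _) h

theorem logic_fL {A : Form} {K : ℕ} (h : Logic A (fA0 K)) : Logic A fL :=
  Logic.mp _ _ (Logic.andL _ _) (Logic.mp _ _ (Logic.andR _ _) h)

theorem logic_fW {A : Form} {K : ℕ} (h : Logic A (fA0 K)) : Logic A (fW K) :=
  Logic.mp _ _ (Logic.andR _ _) (Logic.mp _ _ (Logic.andR _ _) h)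

theorem canon_of {A a : Form} (h : Logic A a) (T : PT A) : frc (PT.cV A) a T :=
  (T.truth a).2 (T.mem_thm h)

theorem fA0_fBY (K : ℕ) (l : List Ins) (c : ℕ → ℕ) : Logic (fA0 K) (fBY K l c) :=
  logic_of_canon (frc_fBY_of (canon_of (logic_fT (logic_self _)))
    (canon_of (logic_fL (logic_self _))) (canon_of (logic_fW (logic_self _))) l c)

theorem fBY_fB (K : ℕ) (l : List Ins) (c : ℕ → ℕ) : Logic (fBY K l c) (fB K l c) :=
  Logic.mp _ _ (Logic.andL _ _) (logic_self _)

theorem fA0_fB (K : ℕ) (l : List Ins) (c : ℕ → ℕ) : Logic (fA0 K) (fB K l c) :=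
  Logic.le (fA0_fBY K l c) (fBY_fB K l c)

theorem fB_fT (K : ℕ) (l : List Ins) (c : ℕ → ℕ) : Logic (fB K l c) fT :=
  Logic.mp _ _ (Logic.andL _ _) (Logic.mp _ _ (Logic.andL _ _) (logic_self (fB K l c)))

theorem fB_fL (K : ℕ) (l : List Ins) (c : ℕ → ℕ) : Logic (fB K l c) fL :=
  Logic.mp _ _ (Logic.andL _ _) (Logic.mp _ _ (Logic.andR _ _)
    (Logic.mp _ _ (Logic.andL _ _) (logic_self (fB K l c))))

theorem fA0_of {A : Form} {K : ℕ} (h1 : Logic A fT) (h2 : Logic A fL) (h3 : Logic A (fW K)) :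
    Logic A (fA0 K) :=
  Logic.mp _ _ (Logic.mp _ _ (Logic.andI _ _) h1)
    (Logic.mp _ _ (Logic.mp _ _ (Logic.andI _ _) h2) h3)

/-- admitting Visser's rules depends only on the logic -/
theorem admits_congr {A B : Form} (h1 : Logic A B) (h2 : Logic B A) (h : AdmitsVisser A) :
    AdmitsVisser B := by
  intro n σ hp
  exact Logic.le h2 (h n σ (Logic.le h1 hp))

/-- a halting instruction -/
def insH : Ins := ⟨fun _ => Op.any 0, true⟩

theorem admits_fA0 (K : ℕ) : AdmitsVisser (fA0 K) := by
  have hW : Logic (fB K [insH] (fun _ => 0)) (fW K) := by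
    refine logic_of_canon fun T => ?_
    refine halt_W (PT.cV_val _) K [insH] (fun _ => 0) (fun σ w => PT.canon_inst σ w) ?_ T
    exact HaltsFrom.stop _ insH (by simp) (fun _ _ => trivial) rfl
  exact admits_congr (fA0_of (fB_fT _ _ _) (fB_fL _ _ _) hW) (fA0_fB _ _ _) (admits K _ _ hW)

/-! ### the frame -/

/-- the five points -/
inductive G5 : Type
  | g0 | g1 | g2 | g3 | g4
  deriving DecidableEq

namespace G5

/-- the order -/
def leb : G5 → G5 → Bool
  | g0, g0 => true
  | g0, _ => false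
  | g1, g0 => true
  | g1, g1 => true
  | g1, _ => false
  | g2, g2 => true
  | g2, _ => false
  | g3, g3 => true
  | g3, g0 => true
  | g3, g2 => true
  | g3, _ => false
  | g4, _ => true

instance : Preorder G5 where
  le x y := leb x y = true
  le_refl x := by cases x <;> rfl
  le_trans x y z h1 h2 := by
    cases x <;> cases y <;> cases z <;> first | rfl | exact h1 | exact h2

theorem le_iff {x y : G5} : x ≤ y ↔ leb x y = true := Iff.rfl

instance (x y : G5) : Decidable (x ≤ y) := decidable_of_iff _ le_iff.symm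

theorem le_top (x : G5) : x ≤ g0 ∨ x ≤ g2 := by
  cases x <;> decide

theorem le_a0 (x : G5) : x ≤ g0 ∨ x = g2 := by
  cases x <;> decide

theorem le_b (x : G5) : x ≤ g2 ∨ x = g0 ∨ x = g1 := by
  cases x <;> decide

theorem r_le (x : G5) : g4 ≤ x := by cases x <;> rfl

end G5

open G5

section valid

variable {V : ℕ → G5 → Prop}

theorem g_tops (hV : Val V) (h1 : ∃ w, V 0 w) :
    (∀ w, frc V fn w → w = g0 ∨ w = g1) ∨ ∀ w, frc V fn w → w = g2 := by
  obtain ⟨x, hx⟩ := h1
  by_cases hb : V 0 g2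
  · left
    intro w hw
    rcases G5.le_b w with h | h
    · exact (hw _ h hb).elim
    · exact h
  · right
    have ha : V 0 g0 := by
      rcases G5.le_top x with h | h
      · exact hV 0 _ _ h hx
      · exact (hb (hV 0 _ _ h hx)).elim
    intro w hw
    rcases G5.le_a0 w with h | h
    · exact (hw _ h ha).elim
    · exact h

theorem g_T (hV : Val V) (w : G5) : frc V fT w := by
  by_contra hcon
  have h1' : ¬ frc V (neg (var 0)) w := fun h => hcon (Or.inl h)
  have h2' : ¬ frc V (neg (con (neg (var 0)) (var 1))) w := fun h => hcon (Or.inr (Or.inl h))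
  have h3' : ¬ frc V (neg (con (neg (var 0)) (neg (var 1)))) w :=
    fun h => hcon (Or.inr (Or.inr h))
  rw [frc_neg] at h1' h2' h3'
  push Not at h1' h2' h3'
  obtain ⟨x, _, hx⟩ := h1'
  obtain ⟨y, _, hy1, hy2⟩ := h2'
  obtain ⟨z, _, hz1, hz2⟩ := h3'
  have hx' : V 0 g0 ∨ V 0 g2 := by
    rcases G5.le_top x with h | h
    · exact Or.inl (hV 0 _ _ h hx)
    · exact Or.inr (hV 0 _ _ h hx)
  rcases G5.le_top y with gy | gy <;> rcases G5.le_top z with gz | gz
  · exact hz2 _ gz (hV 1 _ _ gy hy2)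
  · rcases hx' with h | h
    · exact hy1 _ gy h
    · exact hz1 _ gz h
  · rcases hx' with h | h
    · exact hz1 _ gz h
    · exact hy1 _ gy h
  · exact hz2 _ gz (hV 1 _ _ gy hy2)

theorem g_L (hV : Val V) (w : G5) : frc V fL w := by
  by_contra hcon
  have h1' : ¬ frc V (neg (var 0)) w := fun h => hcon (Or.inl h)
  have h2' : ¬ frc V (imp (con (neg (var 0)) (var 1)) (var 2)) w :=
    fun h => hcon (Or.inr (Or.inl h))
  have h3' : ¬ frc V (imp (con (neg (var 0)) (var 2)) (var 1)) w :=
    fun h => hcon (Or.inr (Or.inr h))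
  rw [frc_neg] at h1'
  simp only [frc] at h2' h3'
  push Not at h1' h2' h3'
  obtain ⟨x, _, hx⟩ := h1'
  obtain ⟨y, _, ⟨hy1, hy2⟩, hy3⟩ := h2'
  obtain ⟨z, _, ⟨hz1, hz2⟩, hz3⟩ := h3'
  have hy1' : frc V fn y := hy1
  have hz1' : frc V fn z := hz1
  have h10 : g1 ≤ g0 := by decide
  rcases g_tops hV ⟨x, hx⟩ with h | h
  · rcases h y hy1' with rfl | rfl <;> rcases h z hz1' with rfl | rfl
    · exact hy3 hz2
    · exact hy3 (hV 2 _ _ h10 hz2)
    · exact hz3 (hV 1 _ _ h10 hy2)
    · exact hy3 hz2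
  · rw [h y hy1'] at hy3
    rw [h z hz1'] at hz2
    exact hy3 hz2

theorem g_W (hV : Val V) {K : ℕ} (hK : 1 ≤ K) (w : G5) : frc V (fW K) w := by
  by_contra h
  have h1 : ¬ frc V fn w := fun h' => h (Or.inl h')
  have h2 : ¬ frc V (imp fn (var 1)) w := fun h' => h (Or.inr (Or.inl h'))
  have h3 : ¬ frc V (dj (fun j => imp (con fn (var (j + 1))) (var (j + 2))) (K + 1)) w :=
    fun h' => h (Or.inr (Or.inr (Or.inl h')))
  rw [frc_dj] at h3
  have h1' : ∃ x, V 0 x := by
    by_contra hn
    push Not at hn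
    exact h1 (fun x _ => hn x)
  simp only [frc] at h2
  push Not at h2 h3
  obtain ⟨y, _, hy, hy1⟩ := h2
  have h3' : ∀ j < K + 1, ∃ u, frc V fn u ∧ V (j + 1) u ∧ ¬ V (j + 2) u := by
    intro j hj
    have h5 := h3 j hj
    simp only [frc] at h5
    push Not at h5
    obtain ⟨u, _, ⟨hu1, hu2⟩, hu3⟩ := h5
    exact ⟨u, hu1, hu2, hu3⟩
  obtain ⟨u, hu, hu1, hu2⟩ := h3' 0 (by omega)
  obtain ⟨v, hv, hv1, _⟩ := h3' 1 (by omega)
  have h10 : g1 ≤ g0 := by decide
  rcases g_tops hV h1' with h5 | h5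
  · have hv2 : V 2 g0 := by
      rcases h5 v hv with rfl | rfl
      · exact hv1
      · exact hV 2 _ _ h10 hv1
    rcases h5 u hu with rfl | rfl
    · exact hu2 hv2
    · rcases h5 y hy with rfl | rfl
      · exact hy1 (hV 1 _ _ h10 hu1)
      · exact hy1 hu1
  · rw [h5 y hy] at hy1
    rw [h5 u hu] at hu1
    exact hy1 hu1

/-- the frame validates the base logic -/
theorem g_valid (hV : Val V) {K : ℕ} (hK : 1 ≤ K) {φ : Form} (h : Logic (fA0 K) φ) (w : G5) :
    frc V φ w := by
  refine sound hV (fun σ w => ?_) h w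
  rw [frc_subst]
  exact ⟨g_T (val_subst hV σ) w, g_L (val_subst hV σ) w, g_W (val_subst hV σ) hK w⟩

end valid

/-! ### definable p-morphisms onto the frame -/

section pmor

variable {W : Type*} [Preorder W]

/-- p-morphism -/
structure PM (f : W → G5) : Prop where
  mono : ∀ x y, x ≤ y → f x ≤ f y
  back : ∀ x g, f x ≤ g → ∃ y, x ≤ y ∧ f y = g

/-- the formulas defining the principal upsets -/
def chi (p : Form) : G5 → Form
  | g0 => p
  | g1 => neg (neg p)
  | g2 => neg p
  | g3 => imp (neg (neg p)) p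
  | g4 => top

theorem frc_chi {V : ℕ → W → Prop} {p : Form} {f : W → G5} (hf : PM f)
    (hp : ∀ x, frc V p x ↔ f x = g0) (g : G5) (x : W) : frc V (chi p g) x ↔ g ≤ f x := by
  have hb : ∀ x, frc V (neg p) x ↔ f x = g2 := by
    intro x
    rw [frc_neg]
    constructor
    · intro h
      rcases G5.le_a0 (f x) with h1 | h1
      · obtain ⟨y, hy, h2⟩ := hf.back x g0 h1
        exact (h y hy ((hp y).2 h2)).elim
      · exact h1
    · intro h y hy h1
      rw [hp] at h1
      have := hf.mono x y hy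
      rw [h, h1] at this
      exact absurd this (by decide)
  have hnn : ∀ x, frc V (neg (neg p)) x ↔ g1 ≤ f x := by
    intro x
    rw [frc_neg]
    constructor
    · intro h
      rcases G5.le_b (f x) with h1 | h1 | h1
      · obtain ⟨y, hy, h2⟩ := hf.back x g2 h1
        exact (h y hy ((hb y).2 h2)).elim
      · rw [h1]; decide
      · rw [h1]
    · intro h y hy h1
      rw [hb] at h1
      have := h.trans (hf.mono x y hy)
      rw [h1] at this
      exact absurd this (by decide)
  cases g with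
  | g0 =>
    change frc V p x ↔ _
    rw [hp]
    generalize f x = z
    cases z <;> decide
  | g1 => exact hnn x
  | g2 =>
    change frc V (neg p) x ↔ _
    rw [hb]
    generalize f x = z
    cases z <;> decide
  | g3 =>
    change (∀ y, x ≤ y → frc V (neg (neg p)) y → frc V p y) ↔ _
    constructor
    · intro h
      by_contra hn
      have h1 : f x ≤ g1 := by
        revert hn
        generalize f x = z
        cases z <;> decide
      obtain ⟨y, hy, h2⟩ := hf.back x g1 h1
      have h3 := h y hy ((hnn y).2 (by rw [h2]))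
      rw [hp, h2] at h3
      exact absurd h3 (by decide)
    · intro h y hy h1
      rw [hnn] at h1
      rw [hp]
      have h2 := h.trans (hf.mono x y hy)
      revert h1 h2
      generalize f y = z
      cases z <;> decide
  | g4 => exact ⟨fun _ => G5.r_le _, fun _ => frc_top V x⟩

/-- one disjunct of the formula defining an upset -/
noncomputable def chi1 (p : Form) (U : G5 → Prop) (g : G5) : Form := by
  classical
  exact if U g then chi p g else bot

/-- the formula defining an upset -/
noncomputable def chiU (p : Form) (U : G5 → Prop) : Form :=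
  dis (chi1 p U g0) (dis (chi1 p U g1) (dis (chi1 p U g2) (dis (chi1 p U g3) (chi1 p U g4))))

theorem frc_chiU {V : ℕ → W → Prop} {p : Form} {f : W → G5} (hf : PM f)
    (hp : ∀ x, frc V p x ↔ f x = g0) {U : G5 → Prop} (hU : ∀ g g', g ≤ g' → U g → U g') (x : W) :
    frc V (chiU p U) x ↔ U (f x) := by
  have h1 : ∀ g, frc V (chi1 p U g) x ↔ U g ∧ g ≤ f x := by
    intro g
    unfold chi1
    split_ifs with h
    · rw [frc_chi hf hp]
      exact ⟨fun h' => ⟨h, h'⟩, fun h' => h'.2⟩
    · exact ⟨fun h' => h'.elim, fun h' => (h h'.1).elim⟩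
  unfold chiU
  simp only [frc, h1]
  constructor
  · rintro (h | h | h | h | h) <;> exact hU _ _ h.2 h.1
  · intro h
    cases hz : f x <;> rw [hz] at h <;> simp [h, le_refl]

theorem frc_comp {V : ℕ → G5 → Prop} {f : W → G5} (hf : PM f) (φ : Form) (x : W) :
    frc (fun i x => V i (f x)) φ x ↔ frc V φ (f x) := by
  induction φ generalizing x with
  | var i => rfl
  | bot => rfl
  | con a b iha ihb => simp only [frc, iha, ihb]
  | dis a b iha ihb => simp only [frc, iha, ihb]
  | imp a b iha ihb =>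
    simp only [frc, iha, ihb]
    constructor
    · intro h g hg h1
      obtain ⟨y, hy, rfl⟩ := hf.back x g hg
      exact h y hy h1
    · intro h y hy h1
      exact h _ (hf.mono x y hy) h1

/-- pulling back a valuation along a definable p-morphism -/
theorem frc_pull {V : ℕ → W → Prop} {p : Form} {f : W → G5} (hf : PM f)
    (hp : ∀ x, frc V p x ↔ f x = g0) {U : ℕ → G5 → Prop} (hU : Val U) (φ : Form) (x : W) :
    frc V (φ.subst (fun i => chiU p (U i))) x ↔ frc U φ (f x) := by
  rw [frc_subst, ← frc_comp hf]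
  have : (fun i => frc V (chiU p (U i))) = fun i x => U i (f x) := by
    funext i x
    exact propext (frc_chiU hf hp (hU i) x)
  rw [this]

end pmor

end Pool.Agent.W898.VR
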