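import Pool.Agent.W898.VR.Fml

/-!
# If the machine halts then `W` is derivable
-/

set_option autoImplicit false

namespace Pool.Agent.W898.VR

open Form

/-- the machine halts from the configuration -/
inductive HaltsFrom (K : ℕ) (l : List Ins) : (ℕ → ℕ) → Prop
  | stop (c : ℕ → ℕ) (I : Ins) : I ∈ l → I.ok K c → I.halt = true → HaltsFrom K l c
  | step (c : ℕ → ℕ) (I : Ins) : I ∈ l → I.ok K c → I.halt = false → HaltsFrom K l (I.new c) →
      HaltsFrom K l c

theorem numf_succ (K i k : ℕ) : numf K i (k + 1) = fsuc (numf K i k) := by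
  unfold numf
  rw [Function.iterate_succ_apply']

theorem numf_add (K i k v : ℕ) : fsuc^[v] (numf K i k) = numf K i (k + v) := by
  unfold numf
  rw [← Function.iterate_add_apply, add_comm]

section

variable {W : Type*} [Preorder W] {V : ℕ → W → Prop}

theorem O_sub (hV : Val V) (K i k : ℕ) (w : W) (h : frc V (fO K) w) :
    frc V (numf K i k).1 w ∧ frc V (numf K i k).2 w := by
  induction k generalizing w with
  | zero => exact ⟨Or.inr h, Or.inr h⟩
  | succ k ih =>
    rw [numf_succ]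
    exact ⟨Or.inl (ih w h).1, fun w' hw _ => (ih w' (frc_mono hV _ hw h)).1⟩

/-- the substitution -/
def sg (K : ℕ) (a : ℕ → ℕ) (j : ℕ) : Form :=
  if j < K + 3 then var j
  else if (j - (K + 3)) % 2 = 0 then (numf K ((j - (K + 3)) / 2) (a ((j - (K + 3)) / 2))).1
  else (numf K ((j - (K + 3)) / 2) (a ((j - (K + 3)) / 2))).2

theorem sg_lt (K : ℕ) (a : ℕ → ℕ) {j : ℕ} (h : j < K + 3) : sg K a j = var j := if_pos h

theorem sg_x (K : ℕ) (a : ℕ → ℕ) (i : ℕ) : sg K a (K + 3 + 2 * i) = (numf K i (a i)).1 := by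
  have h1 : K + 3 + 2 * i - (K + 3) = 2 * i := by omega
  unfold sg
  rw [if_neg (by omega), h1, if_pos (by omega)]
  have h2 : 2 * i / 2 = i := by omega
  rw [h2]

theorem sg_y (K : ℕ) (a : ℕ → ℕ) (i : ℕ) : sg K a (K + 4 + 2 * i) = (numf K i (a i)).2 := by
  have h1 : K + 4 + 2 * i - (K + 3) = 2 * i + 1 := by omega
  unfold sg
  rw [if_neg (by omega), h1, if_neg (by omega)]
  have h2 : (2 * i + 1) / 2 = i := by omega
  rw [h2]

/-- the new valuation -/
def V1 (V : ℕ → W → Prop) (K : ℕ) (a : ℕ → ℕ) : ℕ → W → Prop := fun j => frc V (sg K a j)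

theorem V1_congr (K : ℕ) (a : ℕ → ℕ) (f : Form) (hf : bd (K + 3) f) :
    frc (V1 V K a) f = frc V f := by
  funext w
  refine propext (frc_congr (N := K + 3) (fun i hi w => ?_) f hf w)
  unfold V1
  rw [sg_lt K a hi]
  rfl

theorem fr2_V1_numf (K : ℕ) (a : ℕ → ℕ) (i k : ℕ) :
    fr2 (V1 V K a) (numf K i k) = fr2 V (numf K i k) := by
  unfold fr2
  rw [V1_congr K a _ (bd_numf le_rfl i k).1, V1_congr K a _ (bd_numf le_rfl i k).2]

theorem fr2_ph (hV : Val V) (K : ℕ) (a : ℕ → ℕ) (i : ℕ) :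
    fr2 (V1 V K a) (ph K i) = fr2 V (numf K i (a i)) := by
  have h0 := V1_congr (V := V) K a (fO K) (bd_fO le_rfl)
  unfold fr2 ph
  simp only [Prod.mk.injEq]
  constructor
  · funext w
    refine propext ?_
    simp only [frc, h0]
    unfold V1
    rw [sg_x]
    exact ⟨fun h => h.elim id fun h => (O_sub hV K i _ w h).1, Or.inl⟩
  · funext w
    refine propext ?_
    simp only [frc, h0]
    unfold V1
    rw [sg_y]
    exact ⟨fun h => h.elim id fun h => (O_sub hV K i _ w h).2, Or.inl⟩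

theorem fr2_cur (hV : Val V) (K : ℕ) (a : ℕ → ℕ) (i : ℕ) (o : Op) (n : ℕ) (hok : o.ok n)
    (ha : a i = o.pv n) : fr2 (V1 V K a) (o.cur K i) = fr2 V (numf K i n) := by
  cases o with
  | any v => rw [Op.cur, fr2_ph hV, ha]; rfl
  | cst k k' =>
    have : n = k := hok
    rw [Op.cur, fr2_V1_numf, this]
  | dec v =>
    have h1 : 1 ≤ n := hok
    have h2 : a i = n - 1 := ha
    rw [Op.cur, fr2_fsuc, fr2_ph hV, ← fr2_fsuc, ← numf_succ, h2]
    congr 2
    omega

theorem fr2_nxt (hV : Val V) (K : ℕ) (a : ℕ → ℕ) (i : ℕ) (o : Op) (n : ℕ)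
    (ha : a i = o.pv n) : fr2 (V1 V K a) (o.nxt K i) = fr2 V (numf K i (o.new n)) := by
  cases o with
  | any v => rw [Op.nxt, fr2_iter, fr2_ph hV, ← fr2_iter, numf_add, ha]; rfl
  | cst k k' => rw [Op.nxt, fr2_V1_numf]; rfl
  | dec v => rw [Op.nxt, fr2_iter, fr2_ph hV, ← fr2_iter, numf_add, ha]; rfl

/-- the extra disjunct of a decrementing instruction -/
theorem ext_lemma (hV : Val V) (K : ℕ) (c : ℕ → ℕ)
    (hbase : ∀ i < K, ∀ w, frc V (imp (imp (con (fK K i) (fS K i)) (fH K)) (fW K)) w)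
    (i : ℕ) (hi : i < K) (hc : 1 ≤ c i) (w : W)
    (hD : sI (fun w => frc V (fK K i) w ∧ (fr2 V (numf K i (c i - 1))).1 w)
      (fr2 V (numf K i (c i - 1))).2 w) :
    frc V (fE K (fun i => numf K i (c i))) w ∨ frc V (fW K) w := by
  obtain ⟨n, hn⟩ : ∃ n, c i = n + 1 := ⟨c i - 1, by omega⟩
  have h1 : c i - 1 = n := by omega
  rw [h1] at hD
  rcases n with _ | k
  · right
    exact hbase i hi w w le_rfl hD
  · left
    rw [frc_fE]
    intro w' hw' _
    refine ⟨i, hi, Or.inr (Or.inl ?_)⟩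
    intro w2 hw2 hκ
    change (fr2 V (numf K i (c i))).1 w2
    rw [hn, numf_succ K i (k + 1)]
    right
    rw [numf_succ K i k] at hD ⊢
    intro w3 hw3 hy
    have h3 : frc V (fK K i) w3 := frc_mono hV _ hw3 hκ.1
    have h4 := hD w3 ((hw'.trans hw2).trans hw3) ⟨h3, Or.inr hy⟩
    exact h4 w3 le_rfl hy

theorem halt_main (hV : Val V) (K : ℕ) (l : List Ins) (c0 : ℕ → ℕ)
    (hB : ∀ (σ : ℕ → Form) (w : W), frc V ((fB K l c0).subst σ) w) (c : ℕ → ℕ)
    (h : HaltsFrom K l c) (w : W) :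
    frc V (fE K (fun i => numf K i (c i))) w ∨ frc V (fW K) w := by
  -- the axioms under the valuation `V1`
  have hB1 : ∀ (a : ℕ → ℕ) (w : W), frc (V1 V K a) (fB K l c0) w := by
    intro a w
    have := (frc_subst V (sg K a) (fB K l c0) w).1 (hB _ w)
    exact this
  have hW : ∀ a : ℕ → ℕ, frc (V1 V K a) (fW K) = frc V (fW K) := fun a =>
    V1_congr K a _ (bd_fW le_rfl)
  have hκ : ∀ (a : ℕ → ℕ) (i : ℕ), frc (V1 V K a) (fK K i) = frc V (fK K i) := fun a i =>
    V1_congr K a _ (bd_fK le_rfl i)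
  have hbase : ∀ i < K, ∀ w, frc V (imp (imp (con (fK K i) (fS K i)) (fH K)) (fW K)) w := by
    intro i hi w
    have h1 := (hB1 (fun _ => 0) w).1.2.2.1
    rw [frc_cj] at h1
    have h2 := h1 i hi
    have hb : bd (K + 3) (imp (imp (con (fK K i) (fS K i)) (fH K)) (fW K)) :=
      ⟨⟨⟨bd_fK le_rfl i, bd_fS le_rfl i⟩, bd_fH le_rfl⟩, bd_fW le_rfl⟩
    rwa [V1_congr K _ _ hb] at h2
  -- instruction axioms
  have hax : ∀ I ∈ l, ∀ (a : ℕ → ℕ) (w : W), frc (V1 V K a) (I.ax K) w := by
    intro I hI a w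
    have h1 := (hB1 a w).1.2.2.2
    rw [frc_lc] at h1
    exact h1 _ (List.mem_map.2 ⟨I, hI, rfl⟩)
  -- extra disjuncts
  have hext : ∀ (I : Ins) (c : ℕ → ℕ) (w : W), I.ok K c →
      frc (V1 V K (fun i => (I.op i).pv (c i))) (I.ext K) w →
      frc V (fE K (fun i => numf K i (c i))) w ∨ frc V (fW K) w := by
    intro I c w hok he
    rcases he with he | he
    · rw [frc_dj] at he
      obtain ⟨i, hi, he⟩ := he
      have hok' := hok i hi
      rcases ho : I.op i with v | ⟨k, k'⟩ | v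
      · rw [ho] at he; exact he.elim
      · rw [ho] at he; exact he.elim
      · rw [ho] at he hok'
        refine ext_lemma hV K c hbase i hi hok' w ?_
        have e1 := fr2_ph hV K (fun i => (I.op i).pv (c i)) i
        have e2 : (I.op i).pv (c i) = c i - 1 := by rw [ho]; rfl
        simp only [e2] at e1
        rw [← e1]
        intro w' hw' hh
        refine he w' hw' ⟨?_, hh.2⟩
        rw [hκ]
        exact hh.1
    · right
      rwa [hW] at he
  have hcur : ∀ (I : Ins) (c : ℕ → ℕ) (w : W), I.ok K c →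
      (frc (V1 V K (fun i => (I.op i).pv (c i))) (fE K (fun i => (I.op i).cur K i)) w ↔
      frc V (fE K (fun i => numf K i (c i))) w) := by
    intro I c w hok
    rw [frc_fE, frc_fE]
    exact sE_congr (fun i _ => hκ _ i) (fun i hi => fr2_cur hV K _ i _ _ (hok i hi) rfl) w
  have hnxt : ∀ (I : Ins) (c : ℕ → ℕ) (w : W),
      (frc (V1 V K (fun i => (I.op i).pv (c i))) (fE K (fun i => (I.op i).nxt K i)) w ↔
      frc V (fE K (fun i => numf K i (I.new c i))) w) := by
    intro I c w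
    rw [frc_fE, frc_fE]
    exact sE_congr (fun i _ => hκ _ i)
      (fun i _ => fr2_nxt hV K (fun i => (I.op i).pv (c i)) i (I.op i) (c i) rfl) w
  induction h generalizing w with
  | stop c I hI hok hh =>
    have h1 := hax I hI (fun i => (I.op i).pv (c i)) w
    unfold Ins.ax at h1
    rw [if_pos hh] at h1
    rcases h1 with h1 | h1
    · left
      exact (hcur I c w hok).1 h1
    · exact hext I c w hok h1
  | step c I hI hok hh _ ih =>
    have h1 := hax I hI (fun i => (I.op i).pv (c i)) w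
    unfold Ins.ax at h1
    rw [if_neg (by simp [hh])] at h1
    rcases ih w with h2 | h2
    · have h3 := h1 w le_rfl ((hnxt I c w).2 h2)
      rcases h3 with h3 | h3
      · left
        exact (hcur I c w hok).1 h3
      · exact hext I c w hok h3
    · exact Or.inr h2

/-- If the machine halts then `W` holds. -/
theorem halt_W (hV : Val V) (K : ℕ) (l : List Ins) (c0 : ℕ → ℕ)
    (hB : ∀ (σ : ℕ → Form) (w : W), frc V ((fB K l c0).subst σ) w)
    (h : HaltsFrom K l c0) (w : W) : frc V (fW K) w := by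
  rcases halt_main hV K l c0 hB c0 h w with h1 | h1
  · have h2 := (frc_subst V (sg K (fun _ => 0)) (fB K l c0) w).1 (hB _ w)
    have h3 : frc (V1 V K (fun _ => 0)) (imp (fE K (fun i => numf K i (c0 i))) (fW K)) w := h2.2
    have h4 : frc (V1 V K (fun _ => 0)) (fE K (fun i => numf K i (c0 i))) w := by
      rw [frc_fE] at h1 ⊢
      refine (sE_congr (fun i _ => ?_) (fun i _ => ?_) w).1 h1
      · exact (V1_congr K _ _ (bd_fK le_rfl i)).symm
      · exact (fr2_V1_numf K _ i _).symm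
    have h5 := h3 w le_rfl h4
    rwa [V1_congr K _ _ (bd_fW le_rfl)] at h5
  · exact h1

end

end Pool.Agent.W898.VR
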