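import Pool.Agent.W898.VR.DDefs

/-!
# Definition: admitting every rule admissible in intuitionistic logic
-/

set_option autoImplicit false

namespace Pool.Agent.W898.VR

open Form

/-- `L_A` admits every rule (with a finite set of premises) that is admissible in intuitionistic
propositional calculus `L_(⊥ → ⊥)`. -/
def AdmitsAll (A : Form) : Prop :=
  ∀ Γ : Set Form, Γ.Finite → ∀ a, Adm (Cn (imp bot bot)) Γ a → Adm (Cn A) Γ a

end Pool.Agent.W898.VR
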