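import Pool.Agent.W898.VR.Fin
import Pool.Agent.W898.VR.LDefs

/-!
# Visser's rules form a basis of the admissible rules
-/

set_option autoImplicit false

namespace Pool.Agent.W898.VR

open Form

/-- Visser's rules are admissible in intuitionistic logic. -/
theorem admits_top : AdmitsVisser top := by
  intro n σ hprem
  by_contra hconc
  obtain ⟨k0, hk0⟩ := exists_pt_of_not_logic hconc
  rw [vConc, subst, subst_bigOr] at hk0
  rw [vPrem, subst] at hprem
  set a := (vA n).subst σ with ha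
  have e1 : (vr).subst σ = σ 0 := rfl
  have e2 : ∀ j, (imp (vA n) (vp j)).subst σ = imp a (σ (2 * j + 1)) := fun j => rfl
  simp only [e1, e2] at hk0
  have hr : σ 0 ∉ k0.s := fun h => hk0 (k0.mem_or.2 (Or.inr h))
  have hj : ∀ j, j ≤ n + 2 → imp a (σ (2 * j + 1)) ∉ k0.s := by
    intro j hj h
    apply hk0
    rw [← PT.truth, frc, frc_bigOr]
    exact Or.inl ⟨j, hj, (PT.truth _ _).2 h⟩
  have hex : ∀ j, ∃ T : PT top, j ≤ n + 2 → k0 ≤ T ∧ a ∈ T.s ∧ σ (2 * j + 1) ∉ T.s := by
    intro j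
    by_cases h : j ≤ n + 2
    · have h1 := hj j h
      rw [PT.mem_imp] at h1
      push Not at h1
      obtain ⟨T, h2, h3, h4⟩ := h1
      exact ⟨T, fun _ => ⟨h2, h3, h4⟩⟩
    · exact ⟨k0, fun h' => absurd h' h⟩
  choose ks hks using hex
  have hvA : a = bigAnd (fun i => imp (σ (2 * i + 1)) (σ (2 * i + 2))) n := by
    rw [ha, vA, subst_bigAnd]
    rfl
  -- the new model
  let V : ℕ → NW k0 ks (n + 2) → Prop := NW.V
  have hV : Val V := NW.V_val
  have hall : ∀ (τ : ℕ → Form) (w : NW k0 ks (n + 2)), frc V (top.subst τ) w :=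
    fun τ w => frc_top V w
  have hp := sound hV hall hprem NW.rt
  have hold : ∀ (i : ℕ), i ≤ n + 2 → (NW.kp : NW k0 ks (n + 2)) ≤ NW.old (ks i) :=
    fun i hi => ⟨i, hi, le_refl (ks i)⟩
  have hnp : ∀ j ≤ n + 2, ¬ frc V (σ (2 * j + 1)) NW.kp := by
    intro j hj' h
    exact (hks j hj').2.2 ((NW.truth _ _).1 (frc_mono hV _ (hold j hj') h))
  rcases hp with hp | hp
  · have h1 : frc V a NW.kp := by
      rw [hvA, frc_bigAnd]
      intro i hi w hw hpi
      rcases w with T | _ | _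
      · obtain ⟨j, hj', hT⟩ := hw
        have h2 : a ∈ T.s := hT (hks j hj').2.1
        have h3 := (NW.truth (k0 := k0) (ks := ks) (N := n + 2) T a).2 h2
        rw [hvA, frc_bigAnd] at h3
        exact h3 i hi _ le_rfl hpi
      · exact (hnp i (by omega) hpi).elim
      · exact (hw : False).elim
    rcases hp NW.kp (show (NW.rt : NW k0 ks (n + 2)).le NW.kp from trivial) h1 with h2 | h2
    · exact hnp (n + 1) (by omega) h2
    · exact hnp (n + 2) le_rfl h2
  · have h1 : (NW.rt : NW k0 ks (n + 2)) ≤ NW.old k0 := Or.inl (le_refl k0)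
    exact hr ((NW.truth _ _).1 (frc_mono hV _ h1 hp))

/-- membership in all theories closed under Visser's rules -/
def PV (Γ : Set Form) (a : Form) : Prop := ∀ Θ : Set Form, VT Θ → Γ ⊆ Θ → a ∈ Θ

/-- the theorems under a substitution form a theory closed under Visser's rules -/
theorem vt_logic {A : Form} (h : AdmitsVisser A) (σ : ℕ → Form) :
    VT {x | Logic A (x.subst σ)} where
  ipc a ha := (logic_top_le ha).sub σ
  mp a b h1 h2 := Logic.mp _ _ h1 h2
  v n τ h1 := by
    have h1' : Logic A (((vPrem n).subst τ).subst σ) := h1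
    change Logic A (((vConc n).subst τ).subst σ)
    rw [subst_subst] at h1' ⊢
    exact h n _ h1'

theorem ds_pv : IsDS (fun Γ a => ∃ Δ : Set Form, Δ ⊆ Γ ∧ Δ.Finite ∧ PV Δ a) := by
  refine isDS_of PV (fun Γ a ha Θ _ h => h ha) (fun Γ Δ a h ha Θ hΘ h' => ha Θ hΘ (h.trans h'))
    (fun Γ Δ a hb ha Θ hΘ h' => ha Θ hΘ fun b hb' => hb b hb' Θ hΘ h') ?_
  intro σ Γ a ha Θ hΘ h'
  refine ha {x | x.subst σ ∈ Θ} ⟨fun b hb => hΘ.ipc _ (hb.sub σ), fun b c hbc hb =>
    hΘ.mp _ _ hbc hb, fun n τ h1 => ?_⟩ (fun b hb => h' ⟨b, hb, rfl⟩)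
  have h1' : ((vPrem n).subst τ).subst σ ∈ Θ := h1
  change ((vConc n).subst τ).subst σ ∈ Θ
  rw [subst_subst] at h1' ⊢
  exact hΘ.v n _ h1'

/-- **Iemhoff.** A logic admits all of Visser's rules iff it admits all rules admissible in
intuitionistic logic. -/
theorem visser_basis (A : Form) : AdmitsVisser A ↔ AdmitsAll A := by
  constructor
  · intro h Γ hΓ a ha
    have hsc := visser_sc _ ds_pv
      (fun b hb => ⟨∅, Set.empty_subset _, Set.finite_empty, fun Θ hΘ _ => hΘ.ipc _ hb⟩)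
      (fun b c => ⟨_, subset_rfl, Set.toFinite _, fun Θ hΘ h' =>
        hΘ.mp _ _ (h' (Set.mem_insert _ _)) (h' (Set.mem_insert_of_mem _ rfl))⟩)
      (fun n => ⟨_, subset_rfl, Set.finite_singleton _, fun Θ hΘ h' => by
        have h1 := hΘ.v n var
        rw [subst_var, subst_var] at h1
        exact h1 (h' rfl)⟩)
    have hth : ∀ b, (∃ Δ : Set Form, Δ ⊆ ∅ ∧ Δ.Finite ∧ PV Δ b) ↔ Logic top b := by
      intro b
      constructor
      · rintro ⟨Δ, hΔ, _, h1⟩
        have h2 := h1 _ (vt_logic admits_top var) (hΔ.trans (Set.empty_subset _))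
        have h3 : Logic top (b.subst var) := h2
        rwa [subst_var] at h3
      · exact fun hb => ⟨∅, Set.empty_subset _, Set.finite_empty, fun Θ hΘ _ => hΘ.ipc _ hb⟩
    have ha' := (adm_iff (A := top)).1 ha
    obtain ⟨Δ, hΔ, _, h1⟩ := hsc Γ hΓ a (fun σ hσ =>
      (hth _).2 (ha' σ fun b hb => (hth _).1 (hσ b hb)))
    rw [adm_iff]
    intro σ hσ
    exact h1 _ (vt_logic h σ) fun b hb => hσ b (hΔ hb)
  · intro h n σ hσ
    have h1 := h {vPrem n} (Set.finite_singleton _) (vConc n) (adm_iff.2 fun τ hτ =>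
      admits_top n τ (hτ _ rfl))
    rw [adm_iff] at h1
    refine h1 σ fun b hb => ?_
    rw [Set.mem_singleton_iff] at hb
    rw [hb]
    exact hσ

theorem lit_undecidable :
    ¬ ComputablePred (fun k : ℕ => ∃ A : Form, num A = k ∧ AdmitsAll A) := by
  intro h
  apply undecidable
  simpa only [visser_basis] using h

end Pool.Agent.W898.VR
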