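import Pool.Agent.W898.VR.Sem
import Pool.Agent.W898.VR.Adm
import Pool.Agent.H502.PcReg

/-!
# Register machines as lists of instructions
-/

set_option autoImplicit false

namespace Pool.Agent.W898.VR

open Form Pool.Agent.H502.PcSrc

/-- the registers -/
def un : ℕ → Bool × Bool
  | 0 => (false, true)
  | 1 => (false, false)
  | 2 => (true, true)
  | _ => (true, false)

theorem un_surj (j : Bool × Bool) : ∃ i < 4, un i = j := by
  obtain ⟨j1, j2⟩ := j
  cases j1 <;> cases j2
  · exact ⟨1, by omega, rfl⟩
  · exact ⟨0, by omega, rfl⟩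
  · exact ⟨3, by omega, rfl⟩
  · exact ⟨2, by omega, rfl⟩

section

variable {P : Type} [Fintype P] (M : DM P (Bool × Bool)) (code : P → ℕ)

/-- the instruction of a state and a branch -/
def ins (p : P) (b : Bool) : Ins where
  op i := if i < 4 then
      (if un i = M.reg p then (if b then Op.dec 0 else Op.cst 0 (M.vec p false (un i)).toNat)
        else Op.any (M.vec p b (un i)).toNat)
    else if i = 4 then Op.cst (code p) (((M.nxt p b).map code).getD 0)
    else Op.any 0
  halt := (M.nxt p b).isNone

/-- the list of instructions -/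
noncomputable def prog : List Ins :=
  (Finset.univ : Finset P).toList.flatMap (fun p => [ins M code p true, ins M code p false])

omit [Fintype P] in
/-- the configuration as a sequence of numbers -/
def cfg (p : P) (c : Bool × Bool → ℤ) : ℕ → ℕ := fun i =>
  if i < 4 then (c (un i)).toNat else if i = 4 then code p else 0

theorem mem_prog (I : Ins) : I ∈ prog M code ↔ ∃ p b, I = ins M code p b := by
  unfold prog
  simp only [List.mem_flatMap, Finset.mem_toList, Finset.mem_univ, true_and, List.mem_cons,
    List.not_mem_nil, or_false]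
  constructor
  · rintro ⟨p, h | h⟩
    · exact ⟨p, true, h⟩
    · exact ⟨p, false, h⟩
  · rintro ⟨p, b, h⟩
    cases b
    · exact ⟨p, Or.inr h⟩
    · exact ⟨p, Or.inl h⟩

variable {code}

omit [Fintype P] in
theorem ins_ok (hc : Function.Injective code) (p p' : P) (b : Bool) (c : Bool × Bool → ℤ)
    (hn : ∀ j, 0 ≤ c j) :
    (ins M code p b).ok 5 (cfg code p' c) ↔ p = p' ∧ b = M.br p' c := by
  constructor
  · intro h
    have h4 := h 4 (by omega)
    have h4' : code p' = code p := h4
    have hp := hc h4'
    subst hp
    refine ⟨rfl, ?_⟩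
    obtain ⟨i, hi, hij⟩ := un_surj (M.reg p')
    have h5 := h i (by omega)
    simp only [ins, cfg, hi, if_true, hij] at h5
    have h6 := hn (M.reg p')
    unfold DM.br
    cases b
    · simp only [Bool.false_eq_true, if_false, Op.ok] at h5
      symm
      simp only [decide_eq_false_iff_not]
      omega
    · simp only [if_true, Op.ok] at h5
      symm
      simp only [decide_eq_true_eq]
      omega
  · rintro ⟨rfl, rfl⟩ i hi
    by_cases hi4 : i < 4
    · simp only [ins, cfg, hi4, if_true]
      by_cases hj : un i = M.reg p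
      · rw [if_pos hj]
        unfold DM.br
        by_cases hb : 0 < c (M.reg p)
        · rw [if_pos (by simpa using hb)]
          simp only [Op.ok, hj]
          omega
        · rw [if_neg (by simpa using hb)]
          simp only [Op.ok, hj]
          omega
      · rw [if_neg hj]
        trivial
    · have : i = 4 := by omega
      subst this
      rfl

omit [Fintype P] in
theorem ins_new (p p' : P) (c : Bool × Bool → ℤ) (hn : ∀ j, 0 ≤ c j)
    (hp : M.nxt p (M.br p c) = some p') :
    (ins M code p (M.br p c)).new (cfg code p c) = cfg code p' (c + M.vec p (M.br p c)) := by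
  funext i
  by_cases hi4 : i < 4
  · simp only [Ins.new, ins, cfg, hi4, if_true]
    have h0 := hn (un i)
    by_cases hj : un i = M.reg p
    · rw [if_pos hj]
      by_cases hb : 0 < c (M.reg p)
      · have e : M.br p c = true := by simp [DM.br, hb]
        rw [e]
        have h1 := M.hp' p
        simp only [if_true, Op.new, Pi.add_apply, hj, h1]
        omega
      · have e : M.br p c = false := by simp [DM.br, hb]
        rw [e]
        rw [← hj] at hb
        simp only [Bool.false_eq_true, if_false, Op.new, Pi.add_apply]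
        have h1 : c (un i) = 0 := by omega
        rw [h1, zero_add]
    · rw [if_neg hj]
      simp only [Op.new, Pi.add_apply]
      have h1 : 0 ≤ M.vec p (M.br p c) (un i) := by
        cases M.br p c
        · exact M.hz p _
        · exact M.hp p _ hj
      rw [Int.toNat_add h0 h1]
  · by_cases hi : i = 4
    · subst hi
      change ((M.nxt p (M.br p c)).map code).getD 0 = code p'
      rw [hp]
      rfl
    · simp only [Ins.new, ins, cfg, hi4, hi, if_false, Op.new]

theorem prog_halts (hc : Function.Injective code) (k : ℕ) : ∀ (p : P) (c : Bool × Bool → ℤ),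
    (∀ j, 0 ≤ c j) → (M.st^[k] (some p, c)).1 = none → HaltsFrom 5 (prog M code) (cfg code p c) := by
  induction k with
  | zero =>
    intro p c _ h
    exact absurd h (by simp)
  | succ k ih =>
    intro p c hn h
    rw [Function.iterate_succ_apply] at h
    have hmem : ins M code p (M.br p c) ∈ prog M code := (mem_prog M code _).2 ⟨_, _, rfl⟩
    have hok := (ins_ok M hc p p (M.br p c) c hn).2 ⟨rfl, rfl⟩
    rcases hx : M.nxt p (M.br p c) with _ | p'
    · refine HaltsFrom.stop _ _ hmem hok ?_
      change (M.nxt p (M.br p c)).isNone = true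
      rw [hx]; rfl
    · refine HaltsFrom.step _ _ hmem hok ?_ ?_
      · change (M.nxt p (M.br p c)).isNone = false
        rw [hx]; rfl
      · rw [ins_new M p p' c hn hx]
        have h1 : M.st (some p, c) = (some p', c + M.vec p (M.br p c)) := by
          change (M.nxt p (M.br p c), c + M.vec p (M.br p c)) = _
          rw [hx]
        rw [h1] at h
        refine ih p' _ ?_ h
        have h2 := M.st_nonneg (some p, c) hn
        rw [h1] at h2
        exact h2

theorem iter_nonneg (k : ℕ) (x : Option P × (Bool × Bool → ℤ)) (h : ∀ j, 0 ≤ x.2 j) :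
    ∀ j, 0 ≤ (M.st^[k] x).2 j := by
  induction k with
  | zero => exact h
  | succ k ih => rw [Function.iterate_succ_apply']; exact M.st_nonneg _ ih

theorem prog_run (hc : Function.Injective code) (p0 : P) (c0 : Bool × Bool → ℤ)
    (hn : ∀ j, 0 ≤ c0 j) (h : ¬ M.Halts (some p0, c0)) :
    ∃ κ, Run 5 (prog M code) (cfg code p0 c0) κ := by
  have h1 : ∀ t, ∃ p, (M.st^[t] (some p0, c0)).1 = some p := by
    intro t
    rcases hx : (M.st^[t] (some p0, c0)).1 with _ | p
    · exact (h ⟨t, hx⟩).elim
    · exact ⟨p, rfl⟩
  choose p hp using h1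
  set c : ℕ → Bool × Bool → ℤ := fun t => (M.st^[t] (some p0, c0)).2 with hcdef
  have hx : ∀ t, M.st^[t] (some p0, c0) = (some (p t), c t) := fun t =>
    Prod.ext (hp t) rfl
  have hcn : ∀ t j, 0 ≤ c t j := fun t => iter_nonneg M t _ hn
  refine ⟨fun t => cfg code (p t) (c t), ?_, ?_⟩
  · intro i _
    have h0 := hx 0
    simp only [Function.iterate_zero, id_eq, Prod.mk.injEq, Option.some.injEq] at h0
    rw [← h0.1, ← h0.2]
  · intro t I hI hok
    obtain ⟨q, b, rfl⟩ := (mem_prog M code I).1 hI
    obtain ⟨rfl, rfl⟩ := (ins_ok M hc q (p t) b (c t) (hcn t)).1 hok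
    have h2 : (some (p (t + 1)), c (t + 1)) =
        (M.nxt (p t) (M.br (p t) (c t)), c t + M.vec (p t) (M.br (p t) (c t))) := by
      rw [← hx (t + 1), Function.iterate_succ_apply', hx t]
      rfl
    simp only [Prod.mk.injEq] at h2
    refine ⟨?_, fun i _ => ?_⟩
    · change (M.nxt (p t) (M.br (p t) (c t))).isNone = false
      rw [← h2.1]; rfl
    · rw [ins_new M (p t) (p (t + 1)) (c t) (hcn t) h2.1.symm, ← h2.2]

end

/-- the main equivalence -/
theorem admits_iff {P : Type} [Fintype P] (M : DM P (Bool × Bool)) (code : P → ℕ)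
    (hc : Function.Injective code) (p0 : P) (c0 : Bool × Bool → ℤ) (hn : ∀ j, 0 ≤ c0 j) :
    AdmitsVisser (fB 5 (prog M code) (cfg code p0 c0)) ↔ M.Halts (some p0, c0) := by
  constructor
  · intro h
    by_contra hh
    obtain ⟨κ, R⟩ := prog_run M hc p0 c0 hn hh
    exact not_admits (by omega) R h
  · rintro ⟨k, hk⟩
    have h1 := prog_halts M hc k p0 c0 hn hk
    apply admits
    by_contra hL
    obtain ⟨T, hT⟩ := exists_pt_of_not_logic hL
    have h2 := halt_W (PT.cV_val _) 5 (prog M code) (cfg code p0 c0)
      (fun σ w => PT.canon_inst σ w) h1 T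
    exact hT ((PT.truth T _).1 h2)

end Pool.Agent.W898.VR
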