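import Pool.Agent.W898.VR.Gfr

/-!
# The structural completion in the case of an infinite run
-/

set_option autoImplicit false

namespace Pool.Agent.W898.VR

open Form G5

/-! ### formulas in one variable -/

theorem bd_subst1 {σ : ℕ → Form} (hσ : ∀ i, bd 1 (σ i)) (φ : Form) : bd 1 (φ.subst σ) := by
  induction φ with
  | var i => exact hσ i
  | bot => trivial
  | con a b iha ihb => exact ⟨iha, ihb⟩
  | dis a b iha ihb => exact ⟨iha, ihb⟩
  | imp a b iha ihb => exact ⟨iha, ihb⟩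

theorem subst_one {φ : Form} (h : bd 1 φ) : φ.subst (fun _ => var 0) = φ := by
  induction φ with
  | var i =>
    have : i < 1 := h
    have : i = 0 := by omega
    rw [this]; rfl
  | bot => rfl
  | con a b iha ihb => rw [subst, iha h.1, ihb h.2]
  | dis a b iha ihb => rw [subst, iha h.1, ihb h.2]
  | imp a b iha ihb => rw [subst, iha h.1, ihb h.2]

theorem bd_chi1 (U : G5 → Prop) (g : G5) : bd 1 (chi1 (var 0) U g) := by
  unfold chi1
  split_ifs
  · cases g <;> simp [chi, neg, top, bd]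
  · trivial

theorem bd_chiU (U : G5 → Prop) : bd 1 (chiU (var 0) U) :=
  ⟨bd_chi1 U _, bd_chi1 U _, bd_chi1 U _, bd_chi1 U _, bd_chi1 U _⟩

/-! ### linear regions and formulas in one variable -/

section region

variable {A : Form} (hL : Logic A fL)

include hL in
theorem region_chain (T : PT A) {D : Form} (hD : neg D ∉ T.s) {x y : PT A} (hx : T ≤ x)
    (hy : T ≤ y) (hx' : neg D ∈ x.s) (hy' : neg D ∈ y.s) : x ≤ y ∨ y ≤ x := by
  by_contra hn
  push Not at hn
  obtain ⟨h1, h2⟩ := hn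
  obtain ⟨φ, hφ, hφ'⟩ := Set.not_subset.1 h1
  obtain ⟨ψ, hψ, hψ'⟩ := Set.not_subset.1 h2
  set σ : ℕ → Form := fun i => if i = 0 then D else if i = 1 then φ else ψ with hσ
  have h3 : fL.subst σ ∈ T.s := T.mem_thm (hL.sub σ)
  have e : fL.subst σ = dis (neg D) (dis (imp (con (neg D) φ) ψ) (imp (con (neg D) ψ) φ)) := rfl
  rw [e, T.mem_or, T.mem_or] at h3
  rcases h3 with h3 | h3 | h3
  · exact hD h3
  · exact hψ' (x.mem_mp (hx h3) ((x.mem_and).2 ⟨hx', hφ⟩))
  · exact hφ' (y.mem_mp (hy h3) ((y.mem_and).2 ⟨hy', hψ⟩))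

include hL in
theorem one_var (T : PT A) {D : Form} (hD : neg D ∉ T.s) (φ : Form) (hφ : bd 1 φ) :
    (∀ x : PT A, T ≤ x → neg D ∈ x.s → φ ∉ x.s) ∨ (∀ x : PT A, T ≤ x → neg D ∈ x.s → φ ∈ x.s) ∨
      (∀ x : PT A, T ≤ x → neg D ∈ x.s → (φ ∈ x.s ↔ var 0 ∈ x.s)) := by
  induction φ with
  | var i =>
    have : i < 1 := hφ
    have : i = 0 := by omega
    rw [this]
    exact Or.inr (Or.inr fun _ _ _ => Iff.rfl)
  | bot => exact Or.inl fun x _ _ => x.cons
  | con a b iha ihb =>
    rcases iha hφ.1 with h1 | h1 | h1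
    · exact Or.inl fun x hx hx' h => h1 x hx hx' ((x.mem_and).1 h).1
    · rcases ihb hφ.2 with h2 | h2 | h2
      · exact Or.inl fun x hx hx' h => h2 x hx hx' ((x.mem_and).1 h).2
      · exact Or.inr (Or.inl fun x hx hx' => (x.mem_and).2 ⟨h1 x hx hx', h2 x hx hx'⟩)
      · refine Or.inr (Or.inr fun x hx hx' => ?_)
        rw [x.mem_and, h2 x hx hx']
        exact ⟨fun h => h.2, fun h => ⟨h1 x hx hx', h⟩⟩
    · rcases ihb hφ.2 with h2 | h2 | h2
      · exact Or.inl fun x hx hx' h => h2 x hx hx' ((x.mem_and).1 h).2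
      · refine Or.inr (Or.inr fun x hx hx' => ?_)
        rw [x.mem_and, h1 x hx hx']
        exact ⟨fun h => h.1, fun h => ⟨h, h2 x hx hx'⟩⟩
      · refine Or.inr (Or.inr fun x hx hx' => ?_)
        rw [x.mem_and, h1 x hx hx', h2 x hx hx']
        exact ⟨fun h => h.1, fun h => ⟨h, h⟩⟩
  | dis a b iha ihb =>
    rcases iha hφ.1 with h1 | h1 | h1
    · rcases ihb hφ.2 with h2 | h2 | h2
      · refine Or.inl fun x hx hx' h => ?_
        rcases (x.mem_or).1 h with h | h
        · exact h1 x hx hx' h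
        · exact h2 x hx hx' h
      · exact Or.inr (Or.inl fun x hx hx' => (x.mem_or).2 (Or.inr (h2 x hx hx')))
      · refine Or.inr (Or.inr fun x hx hx' => ?_)
        rw [x.mem_or, h2 x hx hx']
        exact ⟨fun h => h.elim (fun h => (h1 x hx hx' h).elim) id, fun h => Or.inr h⟩
    · exact Or.inr (Or.inl fun x hx hx' => (x.mem_or).2 (Or.inl (h1 x hx hx')))
    · rcases ihb hφ.2 with h2 | h2 | h2
      · refine Or.inr (Or.inr fun x hx hx' => ?_)
        rw [x.mem_or, h1 x hx hx']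
        exact ⟨fun h => h.elim id (fun h => (h2 x hx hx' h).elim), fun h => Or.inl h⟩
      · exact Or.inr (Or.inl fun x hx hx' => (x.mem_or).2 (Or.inr (h2 x hx hx')))
      · refine Or.inr (Or.inr fun x hx hx' => ?_)
        rw [x.mem_or, h1 x hx hx', h2 x hx hx']
        exact ⟨fun h => h.elim id id, fun h => Or.inl h⟩
  | imp a b iha ihb =>
    -- if the truth set of `b` is one of the three kinds and `a` is not below `b`, then `a → b`
    -- has the same truth set as `b`
    have key : (∃ z : PT A, T ≤ z ∧ neg D ∈ z.s ∧ a ∈ z.s ∧ b ∉ z.s) →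
        ∀ x : PT A, T ≤ x → neg D ∈ x.s → (imp a b ∈ x.s ↔ b ∈ x.s) := by
      rintro ⟨z, hz, hz', hza, hzb⟩ x hx hx'
      constructor
      · intro h
        rcases region_chain hL T hD hx hz hx' hz' with h1 | h1
        · exact (hzb (z.mem_mp (h1 h) hza)).elim
        · exact x.mem_mp h (h1 hza)
      · exact fun h => x.cl _ (Der.mp (Der.thm (Logic.k _ _)) (Der.hyp h))
    by_cases hz : ∃ z : PT A, T ≤ z ∧ neg D ∈ z.s ∧ a ∈ z.s ∧ b ∉ z.s
    · have hk := key hz
      rcases ihb hφ.2 with h2 | h2 | h2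
      · exact Or.inl fun x hx hx' h => h2 x hx hx' ((hk x hx hx').1 h)
      · exact Or.inr (Or.inl fun x hx hx' => (hk x hx hx').2 (h2 x hx hx'))
      · exact Or.inr (Or.inr fun x hx hx' => (hk x hx hx').trans (h2 x hx hx'))
    · push Not at hz
      refine Or.inr (Or.inl fun x hx hx' => ?_)
      rw [x.mem_imp]
      exact fun y hy ha => hz y (hx.trans hy) (hy hx') ha

include hL in
/-- substitution instances of `W` in one variable are derivable -/
theorem W_one {K : ℕ} (hK : 1 ≤ K) (σ : ℕ → Form) (hσ : ∀ i, bd 1 (σ i)) :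
    Logic A ((fW K).subst σ) := by
  refine logic_of_canon fun T => ?_
  rw [frc_subst]
  set V : ℕ → PT A → Prop := fun i => frc (PT.cV A) (σ i) with hV
  have hVm : ∀ i (x : PT A), V i x ↔ σ i ∈ x.s := fun i x => x.truth (σ i)
  by_contra h
  have h1 : ¬ frc V fn T := fun h' => h (Or.inl h')
  have h2 : ¬ frc V (imp fn (var 1)) T := fun h' => h (Or.inr (Or.inl h'))
  have h3 : ¬ frc V (dj (fun j => imp (con fn (var (j + 1))) (var (j + 2))) (K + 1)) T :=
    fun h' => h (Or.inr (Or.inr (Or.inl h')))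
  rw [frc_dj] at h3
  have hfn : ∀ x : PT A, frc V fn x ↔ neg (σ 0) ∈ x.s := by
    intro x
    rw [← x.truth]
    rfl
  rw [hfn] at h1
  simp only [frc] at h2
  push Not at h2 h3
  obtain ⟨y, hTy, hy, hy1⟩ := h2
  have h3' : ∀ j < K + 1, ∃ u, T ≤ u ∧ frc V fn u ∧ V (j + 1) u ∧ ¬ V (j + 2) u := by
    intro j hj
    have h5 := h3 j hj
    simp only [frc] at h5
    push Not at h5
    obtain ⟨u, hTu, ⟨hu1, hu2⟩, hu3⟩ := h5
    exact ⟨u, hTu, hu1, hu2, hu3⟩
  obtain ⟨u, hTu, hu, hu1, hu2⟩ := h3' 0 (by omega)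
  obtain ⟨v, hTv, hv, hv1, _⟩ := h3' 1 (by omega)
  rw [hfn] at hy hu hv
  rw [hVm] at hy1 hu1 hu2 hv1
  simp only [Nat.zero_add] at hu1 hu2
  have e1 : (1 : ℕ) + 1 = 2 := rfl
  rw [e1] at hv1
  have g1 : ∀ x : PT A, T ≤ x → neg (σ 0) ∈ x.s → (σ 1 ∈ x.s ↔ var 0 ∈ x.s) := by
    rcases one_var hL T h1 (σ 1) (hσ 1) with h4 | h4 | h4
    · exact (h4 u hTu hu hu1).elim
    · exact (hy1 (h4 y hTy hy)).elim
    · exact h4
  have g2 : ∀ x : PT A, T ≤ x → neg (σ 0) ∈ x.s → (σ 2 ∈ x.s ↔ var 0 ∈ x.s) := by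
    rcases one_var hL T h1 (σ 2) (hσ 2) with h4 | h4 | h4
    · exact (h4 v hTv hv hv1).elim
    · exact (hu2 (h4 u hTu hu)).elim
    · exact h4
  exact hu2 ((g2 u hTu hu).2 ((g1 u hTu hu).1 hu1))

end region

section one

variable {A : Form} {K : ℕ} (hK : 1 ≤ K) (hT : Logic A fT) (hL : Logic A fL)
  (hA : Logic (fA0 K) A)

include hK hT hL in
theorem sub1 {φ : Form} (h : Logic (fA0 K) φ) : ∀ σ : ℕ → Form, (∀ i, bd 1 (σ i)) →
    Logic A (φ.subst σ) := by
  induction h with
  | inst τ =>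
    intro σ hσ
    rw [subst_subst]
    have hτ : ∀ i, bd 1 ((τ i).subst σ) := fun i => bd_subst1 hσ _
    exact Logic.mp _ _ (Logic.mp _ _ (Logic.andI _ _) (hT.sub _))
      (Logic.mp _ _ (Logic.mp _ _ (Logic.andI _ _) (hL.sub _)) (W_one hL hK _ hτ))
  | k a b => exact fun σ _ => Logic.k _ _
  | s a b c => exact fun σ _ => Logic.s _ _ _
  | andL a b => exact fun σ _ => Logic.andL _ _
  | andR a b => exact fun σ _ => Logic.andR _ _
  | andI a b => exact fun σ _ => Logic.andI _ _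
  | orL a b => exact fun σ _ => Logic.orL _ _
  | orR a b => exact fun σ _ => Logic.orR _ _
  | orE a b c => exact fun σ _ => Logic.orE _ _ _
  | botE a => exact fun σ _ => Logic.botE _
  | mp a b _ _ ih1 ih2 => exact fun σ hσ => Logic.mp _ _ (ih1 σ hσ) (ih2 σ hσ)

include hK hT hL hA in
/-- Visser's rule `V_1` is admissible with respect to substitutions in one variable -/
theorem v1_one (σ : ℕ → Form) (hσ : ∀ i, bd 1 (σ i)) (h : Logic A ((vPrem 0).subst σ)) :
    Logic A ((vConc 0).subst σ) := by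
  have h1 : Logic (fA0 K) ((vConc 0).subst σ) := admits_fA0 K 0 σ (Logic.le hA h)
  have h2 := sub1 hK hT hL h1 (fun _ => var 0) (fun _ => by change 0 < 1; omega)
  rwa [subst_one (bd_subst1 hσ _)] at h2

theorem pm_id : PM (fun g : G5 => g) :=
  ⟨fun _ _ h => h, fun _ g h => ⟨g, h, rfl⟩⟩

/-- the valuation defining the top `g0` -/
def Vp : ℕ → G5 → Prop := fun _ g => g = g0

theorem Vp_val : Val Vp := by
  intro i w w' h hw
  have hw' : w = g0 := hw
  rw [hw'] at h
  change w' = g0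
  revert h
  cases w' <;> decide

include hK hA in
/-- the frame validates all formulas whose instances in one variable are derivable -/
theorem g_of_one {φ : Form} (h : ∀ σ : ℕ → Form, (∀ i, bd 1 (σ i)) → Logic A (φ.subst σ))
    {V : ℕ → G5 → Prop} (hV : Val V) (g : G5) : frc V φ g := by
  have h1 := Logic.le hA (h (fun i => chiU (var 0) (V i)) (fun i => bd_chiU _))
  have h2 := g_valid Vp_val hK h1 g
  exact (frc_pull (V := Vp) (p := var 0) (f := fun g => g) pm_id (fun _ => Iff.rfl) hV φ g).1 h2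

end one

/-! ### the p-morphism from the canonical frame -/

section canon

variable {A : Form} {K : ℕ}

/-- the map -/
noncomputable def fmap (A : Form) (K : ℕ) (T : PT A) : G5 := by
  classical
  exact if fpi K ∈ T.s then g0
    else if neg (neg (fpi K)) ∈ T.s then g1
    else if neg (fpi K) ∈ T.s then g2
    else if imp (neg (neg (fpi K))) (fpi K) ∈ T.s then g3
    else g4

theorem mem_neg {T : PT A} {a : Form} : neg a ∈ T.s ↔ ∀ U : PT A, T ≤ U → a ∉ U.s := by
  unfold neg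
  rw [T.mem_imp]
  exact forall_congr' fun U => forall_congr' fun _ => ⟨fun h h' => U.cons (h h'), fun h h' => (h h').elim⟩

theorem mem_nn {T : PT A} {a : Form} (h : a ∈ T.s) : neg (neg a) ∈ T.s := by
  rw [mem_neg]
  intro U hU hn
  rw [mem_neg] at hn
  exact hn U le_rfl (hU h)

theorem fmap0 {T : PT A} : fmap A K T = g0 ↔ fpi K ∈ T.s := by
  unfold fmap
  split_ifs <;> simp [*]

theorem fmap1 {T : PT A} : fmap A K T = g1 ↔ fpi K ∉ T.s ∧ neg (neg (fpi K)) ∈ T.s := by
  unfold fmap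
  split_ifs <;> simp [*]

theorem fmap2 {T : PT A} : fmap A K T = g2 ↔ neg (fpi K) ∈ T.s := by
  unfold fmap
  split_ifs with h1 h2 h3 h4
  · simp only [reduceCtorEq, false_iff]
    intro h
    rw [mem_neg] at h
    exact h T le_rfl h1
  · simp only [reduceCtorEq, false_iff]
    intro h
    rw [mem_neg] at h2
    exact h2 T le_rfl h
  · simp [h3]
  · simp [h3]
  · simp [h3]

theorem fmap3 {T : PT A} : fmap A K T = g3 ↔ fpi K ∉ T.s ∧ neg (neg (fpi K)) ∉ T.s ∧
    neg (fpi K) ∉ T.s ∧ imp (neg (neg (fpi K))) (fpi K) ∈ T.s := by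
  unfold fmap
  split_ifs <;> simp [*]

theorem fmap4 {T : PT A} : fmap A K T = g4 ↔ fpi K ∉ T.s ∧ neg (neg (fpi K)) ∉ T.s ∧
    neg (fpi K) ∉ T.s ∧ imp (neg (neg (fpi K))) (fpi K) ∉ T.s := by
  unfold fmap
  split_ifs <;> simp [*]

theorem fmap_pm (hY : Logic A (fY K)) : PM (fmap A K) := by
  have up0 : ∀ T U : PT A, T ≤ U → fmap A K T = g0 → fmap A K U = g0 := by
    intro T U h hT
    rw [fmap0] at hT ⊢
    exact h hT
  -- seeing `g0`
  have see0 : ∀ T : PT A, neg (fpi K) ∉ T.s → ∃ U, T ≤ U ∧ fmap A K U = g0 := by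
    intro T h
    rw [mem_neg] at h
    push Not at h
    obtain ⟨U, hU, h1⟩ := h
    exact ⟨U, hU, fmap0.2 h1⟩
  have see2 : ∀ T : PT A, neg (neg (fpi K)) ∉ T.s → ∃ U, T ≤ U ∧ fmap A K U = g2 := by
    intro T h
    rw [mem_neg] at h
    push Not at h
    obtain ⟨U, hU, h1⟩ := h
    exact ⟨U, hU, fmap2.2 h1⟩
  refine ⟨fun T U h => ?_, fun T g h => ?_⟩
  · cases hT : fmap A K T with
    | g0 => rw [up0 T U h hT]
    | g1 =>
      rw [fmap1] at hT
      have h1 := h hT.2
      by_cases h2 : fpi K ∈ U.s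
      · rw [fmap0.2 h2]; decide
      · rw [fmap1.2 ⟨h2, h1⟩]
    | g2 =>
      rw [fmap2] at hT
      rw [fmap2.2 (h hT)]
    | g3 =>
      rw [fmap3] at hT
      have h1 := h hT.2.2.2
      by_cases h2 : fpi K ∈ U.s
      · rw [fmap0.2 h2]; decide
      · have h3 : neg (neg (fpi K)) ∉ U.s := fun h3 => h2 (U.mem_mp h1 h3)
        by_cases h4 : neg (fpi K) ∈ U.s
        · rw [fmap2.2 h4]; decide
        · rw [fmap3.2 ⟨h2, h3, h4, h1⟩]
    | g4 => exact G5.r_le _
  · cases hT : fmap A K T with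
    | g0 =>
      rw [hT] at h
      refine ⟨T, le_rfl, ?_⟩
      rw [hT]
      revert h
      cases g <;> decide
    | g1 =>
      rw [hT] at h
      have hT' := hT
      rw [fmap1] at hT'
      have h1 : neg (fpi K) ∉ T.s := by
        intro h1
        have h2 := hT'.2
        rw [mem_neg] at h2
        exact h2 T le_rfl h1
      cases g with
      | g0 => exact see0 T h1
      | g1 => exact ⟨T, le_rfl, hT⟩
      | g2 => exact absurd h (by decide)
      | g3 => exact absurd h (by decide)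
      | g4 => exact absurd h (by decide)
    | g2 =>
      rw [hT] at h
      refine ⟨T, le_rfl, ?_⟩
      rw [hT]
      revert h
      cases g <;> decide
    | g3 =>
      rw [hT] at h
      have hT' := hT
      rw [fmap3] at hT'
      cases g with
      | g0 => exact see0 T hT'.2.2.1
      | g1 => exact absurd h (by decide)
      | g2 => exact see2 T hT'.2.1
      | g3 => exact ⟨T, le_rfl, hT⟩
      | g4 => exact absurd h (by decide)
    | g4 =>
      have hT' := hT
      rw [fmap4] at hT'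
      cases g with
      | g0 => exact see0 T hT'.2.2.1
      | g1 =>
        have h1 := hT'.2.2.2
        rw [T.mem_imp] at h1
        push Not at h1
        obtain ⟨U, hU, h2, h3⟩ := h1
        exact ⟨U, hU, fmap1.2 ⟨h3, h2⟩⟩
      | g2 => exact see2 T hT'.2.1
      | g3 =>
        have hW : fW K ∉ T.s := by
          intro hW
          have h1 := W_imp (PT.cV_val A) ((T.truth (fW K)).2 hW)
          rw [T.truth, T.truth] at h1
          rcases h1 with h1 | h1
          · exact hT'.2.1 h1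
          · exact hT'.2.2.2 h1
        have h1 : imp (imp (neg (neg (fpi K))) (fpi K))
            (dis (neg (fpi K)) (neg (neg (fpi K)))) ∉ T.s := fun h1 =>
          hW (T.mem_mp (T.mem_thm hY) h1)
        rw [T.mem_imp] at h1
        push Not at h1
        obtain ⟨U, hU, h2, h3⟩ := h1
        rw [U.mem_or] at h3
        push Not at h3
        exact ⟨U, hU, fmap3.2 ⟨fun h4 => h3.2 (mem_nn h4), h3.2, h3.1, h2⟩⟩
      | g4 => exact ⟨T, le_rfl, hT⟩

/-- the formula refuted at the points of the last type -/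
def frho (K : ℕ) : Form :=
  dis (neg (fpi K)) (dis (neg (neg (fpi K))) (imp (neg (neg (fpi K))) (fpi K)))

theorem exists_g4 (h : ¬ Logic A (frho K)) : ∃ T : PT A, fmap A K T = g4 := by
  obtain ⟨T, hT⟩ := exists_pt_of_not_logic h
  refine ⟨T, fmap4.2 ?_⟩
  unfold frho at hT
  rw [T.mem_or, T.mem_or] at hT
  push Not at hT
  exact ⟨fun h1 => hT.2.1 (mem_nn h1), hT.2.1, hT.1, hT.2.2⟩

end canon

/-! ### deductive systems -/

theorem isDS_of (P : Set Form → Form → Prop) (h1 : ∀ Γ a, a ∈ Γ → P Γ a)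
    (h2 : ∀ Γ Δ a, Γ ⊆ Δ → P Γ a → P Δ a)
    (h3 : ∀ Γ Δ a, (∀ b ∈ Δ, P Γ b) → P Δ a → P Γ a)
    (h4 : ∀ (σ : ℕ → Form) Γ a, P Γ a → P ((fun b => b.subst σ) '' Γ) (a.subst σ)) :
    IsDS (fun Γ a => ∃ Δ : Set Form, Δ ⊆ Γ ∧ Δ.Finite ∧ P Δ a) where
  refl Γ a ha := ⟨{a}, by simpa using ha, Set.finite_singleton _, h1 _ _ rfl⟩
  cut Γ Δ a hb ha := by
    obtain ⟨Δ0, hΔ0, hf, hP⟩ := ha
    choose! E hE1 hE2 hE3 using hb
    refine ⟨⋃ b ∈ Δ0, E b, ?_, hf.biUnion (fun b hb' => hE2 b (hΔ0 hb')), ?_⟩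
    · exact Set.iUnion₂_subset fun b hb' => hE1 b (hΔ0 hb')
    · refine h3 _ Δ0 a (fun b hb' => ?_) hP
      exact h2 _ _ _ (Set.subset_biUnion_of_mem (u := fun b => E b) hb') (hE3 b (hΔ0 hb'))
  fin Γ a h := by
    obtain ⟨Δ, hΔ, hf, hP⟩ := h
    exact ⟨Δ, hΔ, hf, Δ, subset_rfl, hf, hP⟩
  sub σ Γ a h := by
    obtain ⟨Δ, hΔ, hf, hP⟩ := h
    exact ⟨_, Set.image_mono hΔ, hf.image _, h4 σ Δ a hP⟩

theorem cn_iff_logic {A a : Form} : Cn A ∅ a ↔ Logic A a := by
  constructor
  · intro h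
    generalize hΓ : (∅ : Set Form) = Γ at h
    induction h with
    | hyp a ha => subst hΓ; exact ha.elim
    | inst σ => exact Logic.inst _
    | k a b => exact Logic.k _ _
    | s a b c => exact Logic.s _ _ _
    | andL a b => exact Logic.andL _ _
    | andR a b => exact Logic.andR _ _
    | andI a b => exact Logic.andI _ _
    | orL a b => exact Logic.orL _ _
    | orR a b => exact Logic.orR _ _
    | orE a b c => exact Logic.orE _ _ _
    | botE a => exact Logic.botE _
    | mp a b _ _ ih1 ih2 => exact Logic.mp _ _ ih1 ih2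
  · intro h
    induction h with
    | inst σ => exact Cn.inst _
    | k a b => exact Cn.k _ _
    | s a b c => exact Cn.s _ _ _
    | andL a b => exact Cn.andL _ _
    | andR a b => exact Cn.andR _ _
    | andI a b => exact Cn.andI _ _
    | orL a b => exact Cn.orL _ _
    | orR a b => exact Cn.orR _ _
    | orE a b c => exact Cn.orE _ _ _
    | botE a => exact Cn.botE _
    | mp a b _ _ ih1 ih2 => exact Cn.mp _ _ ih1 ih2

/-- admissible rules of `L_A` -/
theorem adm_iff {A : Form} {Γ : Set Form} {a : Form} : Adm (Cn A) Γ a ↔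
    ∀ σ : ℕ → Form, (∀ b ∈ Γ, Logic A (b.subst σ)) → Logic A (a.subst σ) := by
  unfold Adm
  simp only [cn_iff_logic]

/-- the structural completion -/
def compl (A : Form) (Γ : Set Form) (a : Form) : Prop :=
  ∃ Δ : Set Form, Δ ⊆ Γ ∧ Δ.Finite ∧ Adm (Cn A) Δ a

theorem adm_mono {A : Form} {Γ Δ : Set Form} {a : Form} (h : Γ ⊆ Δ) (ha : Adm (Cn A) Γ a) :
    Adm (Cn A) Δ a := fun σ hσ => ha σ fun b hb => hσ b (h hb)

theorem compl_compl (A : Form) : Compl (Cn A) (compl A) where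
  ds := by
    refine isDS_of (Adm (Cn A)) (fun Γ a ha σ hσ => hσ a ha) (fun Γ Δ a h => adm_mono h)
      (fun Γ Δ a hb ha σ hσ => ha σ fun b hb' => hb b hb' σ hσ) (fun σ Γ a ha τ hτ => ?_)
    rw [subst_subst]
    refine ha _ fun b hb => ?_
    rw [← subst_subst]
    exact hτ _ ⟨b, hb, rfl⟩
  thm a := by
    constructor
    · rintro ⟨Δ, hΔ, _, h⟩
      have := h var (fun b hb => (hΔ hb).elim)
      rwa [subst_var] at this
    · intro h
      refine ⟨∅, Set.empty_subset _, Set.finite_empty, fun σ _ => ?_⟩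
      rw [cn_iff_logic] at h ⊢
      exact h.sub σ
  rule Γ hΓ a := by
    constructor
    · rintro ⟨Δ, hΔ, _, h⟩
      exact adm_mono hΔ h
    · exact fun h => ⟨Γ, subset_rfl, hΓ, h⟩

theorem compl_unique {d c c' : Set Form → Form → Prop} (h : Compl d c) (h' : Compl d c') :
    c = c' := by
  have key : ∀ {c c' : Set Form → Form → Prop}, Compl d c → Compl d c' → ∀ Γ a, c Γ a → c' Γ a := by
    intro c c' h h' Γ a ha
    obtain ⟨Δ, hΔ, hf, hd⟩ := h.ds.fin Γ a ha
    have h1 := (h'.rule Δ hf a).2 ((h.rule Δ hf a).1 hd)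
    exact h'.ds.cut Γ Δ a (fun b hb => h'.ds.refl Γ b (hΔ hb)) h1
  funext Γ a
  exact propext ⟨key h h' Γ a, key h' h Γ a⟩

/-- the valuation refuting `V_1` -/
def VG : ℕ → G5 → Prop
  | 0, g => g ≠ g4
  | 1, g => g = g0 ∨ g = g2 ∨ g = g3
  | 2, g => g = g0 ∨ g = g2
  | 3, g => g = g0 ∨ g = g2 ∨ g = g3
  | 5, g => g = g0 ∨ g = g1
  | _, _ => False

theorem VG_val : Val VG := by
  intro i w w' h hw
  match i, hw with
  | 0, hw => revert h hw; simp only [VG]; cases w <;> cases w' <;> decide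
  | 1, hw => revert h hw; simp only [VG]; cases w <;> cases w' <;> decide
  | 2, hw => revert h hw; simp only [VG]; cases w <;> cases w' <;> decide
  | 3, hw => revert h hw; simp only [VG]; cases w <;> cases w' <;> decide
  | 5, hw => revert h hw; simp only [VG]; cases w <;> cases w' <;> decide
  | 4, hw => exact hw.elim
  | _ + 6, hw => exact hw.elim

theorem VG_prem (g : G5) : frc VG (vPrem 0) g := by
  by_cases hg : g = g4
  · left
    intro g' _ hD
    have hD' : g' ≠ g4 := by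
      rintro rfl
      have h1 := hD g3 (G5.r_le _) (Or.inr (Or.inr rfl))
      rcases h1 with h1 | h1 <;> exact absurd h1 (by decide)
    cases g' with
    | g0 => exact Or.inl (Or.inl rfl)
    | g1 => exact Or.inr (Or.inr rfl)
    | g2 => exact Or.inl (Or.inr (Or.inl rfl))
    | g3 => exact Or.inl (Or.inr (Or.inr rfl))
    | g4 => exact (hD' rfl).elim
  · right
    exact hg

theorem VG_conc : ¬ frc VG (vConc 0) g4 := by
  have hD1 : frc VG (vA 0) g1 := by
    intro g hg h1
    have h1' : g = g0 ∨ g = g2 ∨ g = g3 := h1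
    change g = g0 ∨ g = g2
    revert hg h1'
    cases g <;> decide
  have hD2 : frc VG (vA 0) g2 := by
    intro g hg h1
    have h1' : g = g0 ∨ g = g2 ∨ g = g3 := h1
    change g = g0 ∨ g = g2
    revert hg h1'
    cases g <;> decide
  rintro (((h | h) | h) | h)
  · have h1 : g1 = g0 ∨ g1 = g2 ∨ g1 = g3 := h g1 (G5.r_le _) hD1
    exact absurd h1 (by decide)
  · have h1 : g1 = g0 ∨ g1 = g2 ∨ g1 = g3 := h g1 (G5.r_le _) hD1
    exact absurd h1 (by decide)
  · have h1 : g2 = g0 ∨ g2 = g1 := h g2 (G5.r_le _) hD2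
    exact absurd h1 (by decide)
  · exact h rfl

/-- the consequence relation of the frame and the one-generated free algebra -/
def P5 (A : Form) (Γ : Set Form) (a : Form) : Prop :=
  (∀ σ : ℕ → Form, (∀ i, bd 1 (σ i)) → (∀ b ∈ Γ, Logic A (b.subst σ)) → Logic A (a.subst σ)) ∧
    ∀ V : ℕ → G5 → Prop, Val V → (∀ b ∈ Γ, ∀ g, frc V b g) → ∀ g, frc V a g

/-- The structural completion is not hereditarily structurally complete. -/
theorem not_hstr {A : Form} {K : ℕ} (hK : 1 ≤ K) (hT : Logic A fT) (hL : Logic A fL)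
    (hA : Logic (fA0 K) A) (hY : Logic A (fY K)) (hr : ¬ Logic A (frho K))
    (c : Set Form → Form → Prop) (hc : Compl (Cn A) c) : ¬ HStrC c := by
  intro hH
  set d : Set Form → Form → Prop := fun Γ a => ∃ Δ : Set Form, Δ ⊆ Γ ∧ Δ.Finite ∧ P5 A Δ a with hd
  have hds : IsDS d := by
    refine isDS_of (P5 A) (fun Γ a ha => ⟨fun σ _ h => h a ha, fun V _ h => h a ha⟩)
      (fun Γ Δ a h ha => ⟨fun σ hσ h' => ha.1 σ hσ fun b hb => h' b (h hb),
        fun V hV h' => ha.2 V hV fun b hb => h' b (h hb)⟩)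
      (fun Γ Δ a hb ha => ⟨fun σ hσ h' => ha.1 σ hσ fun b hb' => (hb b hb').1 σ hσ h',
        fun V hV h' => ha.2 V hV fun b hb' => (hb b hb').2 V hV h'⟩)
      (fun σ Γ a ha => ⟨fun τ hτ h' => ?_, fun V hV h' g => ?_⟩)
    · rw [subst_subst]
      refine ha.1 _ (fun i => bd_subst1 hτ _) fun b hb => ?_
      rw [← subst_subst]
      exact h' _ ⟨b, hb, rfl⟩
    · rw [frc_subst]
      refine ha.2 _ (val_subst hV σ) (fun b hb g => ?_) g
      rw [← frc_subst]
      exact h' _ ⟨b, hb, rfl⟩ g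
  -- the extension
  have hext : ∀ Γ : Set Form, Γ.Finite → ∀ a, c Γ a → d Γ a := by
    intro Γ hΓ a ha
    have hadm := (adm_iff).1 ((hc.rule Γ hΓ a).1 ha)
    refine ⟨Γ, subset_rfl, hΓ, fun σ _ h => hadm σ h, fun V hV h g => ?_⟩
    have hpm := fmap_pm (A := A) hY
    have hp : ∀ T : PT A, frc (PT.cV A) (fpi K) T ↔ fmap A K T = g0 := fun T =>
      (T.truth _).trans fmap0.symm
    have h1 : Logic A (a.subst (fun i => chiU (fpi K) (V i))) := by
      refine hadm _ fun b hb => logic_of_canon fun T => ?_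
      rw [frc_pull hpm hp hV]
      exact h b hb _
    obtain ⟨T, hT4⟩ := exists_g4 hr
    obtain ⟨U, _, hU⟩ := hpm.back T g (by rw [hT4]; exact G5.r_le _)
    have h2 := canon_of h1 U
    rw [frc_pull hpm hp hV, hU] at h2
    exact h2
  have hsc := hH d hds hext {vPrem 0} (Set.finite_singleton _) (vConc 0) (by
    intro σ hσ
    obtain ⟨Δ, hΔ, _, h1⟩ := hσ (vPrem 0) rfl
    have hadm : ∀ τ : ℕ → Form, (∀ i, bd 1 (τ i)) → Logic A (((vConc 0).subst σ).subst τ) := by
      intro τ hτ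
      have h2 := h1.1 τ hτ (fun b hb => (hΔ hb).elim)
      rw [subst_subst] at h2 ⊢
      exact v1_one hK hT hL hA _ (fun i => bd_subst1 hτ _) h2
    exact ⟨∅, Set.empty_subset _, Set.finite_empty, fun τ hτ _ => hadm τ hτ,
      fun V hV _ g => g_of_one hK hA hadm hV g⟩)
  obtain ⟨Δ, hΔ, _, h1⟩ := hsc
  refine VG_conc (h1.2 VG VG_val (fun b hb g => ?_) g4)
  have := hΔ hb
  rw [Set.mem_singleton_iff] at this
  rw [this]
  exact VG_prem g

end Pool.Agent.W898.VR
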