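import Pool.Agent.W898.VR.Adm
import Pool.Agent.W898.VR.DDefs

/-!
# Systems deriving Visser's rules are structurally complete
-/

set_option autoImplicit false

namespace Pool.Agent.W898.VR

open Form

/-- disjunction of a list -/
def ldis : List Form → Form
  | [] => bot
  | a :: l => dis a (ldis l)

theorem frc_ldis {W : Type*} [Preorder W] (V : ℕ → W → Prop) {l : List Form} {w : W} :
    frc V (ldis l) w ↔ ∃ a ∈ l, frc V a w := by
  induction l with
  | nil => simp [ldis, frc]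
  | cons a l ih => simp [ldis, frc, ih]

theorem PT.mem_ldis {A : Form} (T : PT A) {l : List Form} : ldis l ∈ T.s ↔ ∃ a ∈ l, a ∈ T.s := by
  rw [← PT.truth, frc_ldis]
  simp only [PT.truth]

theorem PT.mem_bigAnd {A : Form} (T : PT A) {f : ℕ → Form} {n : ℕ} :
    bigAnd f n ∈ T.s ↔ ∀ i ≤ n, f i ∈ T.s := by
  rw [← PT.truth, frc_bigAnd]
  simp only [PT.truth]

theorem PT.mem_bigOr {A : Form} (T : PT A) {f : ℕ → Form} {n : ℕ} :
    bigOr f n ∈ T.s ↔ ∃ i ≤ n, f i ∈ T.s := by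
  rw [← PT.truth, frc_bigOr]
  simp only [PT.truth]

theorem PT.mem_lc {A : Form} (T : PT A) {l : List Form} : lc l ∈ T.s ↔ ∀ a ∈ l, a ∈ T.s := by
  rw [← PT.truth, frc_lc]
  simp only [PT.truth]

theorem PT.sound_der {A : Form} (T : PT A) {Γ : Set Form} {a : Form} (h : Der A Γ a)
    (hT : Γ ⊆ T.s) : a ∈ T.s := T.cl _ (h.mono hT)

theorem der_iff {A : Form} {Γ : Set Form} {a : Form} :
    Der A Γ a ↔ ∀ T : PT A, Γ ⊆ T.s → a ∈ T.s := by
  constructor
  · exact fun h T hT => T.sound_der h hT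
  · intro h
    by_contra hn
    obtain ⟨T, h1, h2⟩ := exists_pt hn
    exact h2 (h T h1)

/-- theories closed under Visser's rules -/
structure VT (Θ : Set Form) : Prop where
  ipc : ∀ a, Logic top a → a ∈ Θ
  mp : ∀ a b, imp a b ∈ Θ → a ∈ Θ → b ∈ Θ
  v : ∀ (n : ℕ) (σ : ℕ → Form), (vPrem n).subst σ ∈ Θ → (vConc n).subst σ ∈ Θ

namespace VT

variable {Θ : Set Form}

theorem der (h : VT Θ) {a : Form} (ha : Der top Θ a) : a ∈ Θ := by
  induction ha with
  | hyp h' => exact h'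
  | thm h' => exact h.ipc _ h'
  | mp _ _ ih1 ih2 => exact h.mp _ _ ih1 ih2

theorem sem (h : VT Θ) {a : Form} (ha : ∀ T : PT top, Θ ⊆ T.s → a ∈ T.s) : a ∈ Θ :=
  h.der (der_iff.2 ha)

theorem vprem_subst (n : ℕ) (σ : ℕ → Form) : (vPrem n).subst σ =
    dis (imp (bigAnd (fun i => imp (σ (2 * i + 1)) (σ (2 * i + 2))) n)
      (dis (σ (2 * (n + 1) + 1)) (σ (2 * (n + 2) + 1)))) (σ 0) := by
  unfold vPrem vA vr vp vq
  simp only [subst, subst_bigAnd]

theorem vconc_subst (n : ℕ) (σ : ℕ → Form) : (vConc n).subst σ =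
    dis (bigOr (fun j => imp (bigAnd (fun i => imp (σ (2 * i + 1)) (σ (2 * i + 2))) n)
      (σ (2 * j + 1))) (n + 2)) (σ 0) := by
  unfold vConc vA vr vp vq
  simp only [subst, subst_bigAnd, subst_bigOr]

theorem shift (h : VT Θ) (D : Form) : VT {φ | dis φ D ∈ Θ} where
  ipc a ha := h.mp _ _ (h.ipc _ (Logic.orL a D)) (h.ipc a ha)
  mp a b hab ha := by
    refine h.sem fun T hT => ?_
    have h1 : dis (imp a b) D ∈ T.s := hT hab
    have h2 : dis a D ∈ T.s := hT ha
    rw [T.mem_or] at h1 h2 ⊢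
    rcases h1 with h1 | h1
    · rcases h2 with h2 | h2
      · exact Or.inl (T.mem_mp h1 h2)
      · exact Or.inr h2
    · exact Or.inr h1
  v n σ hp := by
    set σ' : ℕ → Form := fun i => if i = 0 then dis (σ 0) D else σ i with hσ'
    have e0 : σ' 0 = dis (σ 0) D := rfl
    have e1 : ∀ i, σ' (2 * i + 1) = σ (2 * i + 1) := fun i => if_neg (by omega)
    have e2 : ∀ i, σ' (2 * i + 2) = σ (2 * i + 2) := fun i => if_neg (by omega)
    have h1 : (vPrem n).subst σ' ∈ Θ := by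
      refine h.sem fun T hT => ?_
      have h2 : dis ((vPrem n).subst σ) D ∈ T.s := hT hp
      rw [vprem_subst] at h2 ⊢
      simp only [e0, e1, e2]
      rw [T.mem_or, T.mem_or] at h2
      rw [T.mem_or, T.mem_or]
      tauto
    have h3 := h.v n σ' h1
    refine h.sem fun T hT => ?_
    have h4 := hT h3
    rw [vconc_subst] at h4 ⊢
    simp only [e0, e1, e2] at h4
    rw [T.mem_or, T.mem_or] at h4
    rw [T.mem_or, T.mem_or]
    tauto

end VT

theorem exists_max_VT {Θ0 : Set Form} {B : Form} (h0 : VT Θ0) (hB : B ∉ Θ0) :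
    ∃ Θ, Θ0 ⊆ Θ ∧ VT Θ ∧ B ∉ Θ ∧ ∀ C D, dis C D ∈ Θ → C ∈ Θ ∨ D ∈ Θ := by
  obtain ⟨Θ, hΘ0, hΘ⟩ := zorn_subset_nonempty {Θ : Set Form | VT Θ ∧ B ∉ Θ} (by
    intro c hc hch hne
    refine ⟨⋃₀ c, ⟨⟨?_, ?_, ?_⟩, ?_⟩, fun s hs => Set.subset_sUnion_of_mem hs⟩
    · intro a ha
      obtain ⟨s, hs⟩ := hne
      exact ⟨s, hs, (hc hs).1.ipc a ha⟩
    · rintro a b ⟨s, hs, h1⟩ ⟨t, ht, h2⟩
      rcases hch.total hs ht with h | h
      · exact ⟨t, ht, (hc ht).1.mp a b (h h1) h2⟩
      · exact ⟨s, hs, (hc hs).1.mp a b h1 (h h2)⟩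
    · rintro n σ ⟨s, hs, h1⟩
      exact ⟨s, hs, (hc hs).1.v n σ h1⟩
    · rintro ⟨s, hs, h1⟩
      exact (hc hs).2 h1) Θ0 ⟨h0, hB⟩
  have hV : VT Θ := hΘ.prop.1
  have hBn : B ∉ Θ := hΘ.prop.2
  -- a strictly larger closed theory contains `B`
  have hmax : ∀ Ξ : Set Form, VT Ξ → Θ ⊆ Ξ → (∃ x ∈ Ξ, x ∉ Θ) → B ∈ Ξ := by
    intro Ξ hΞ hsub ⟨x, hx, hxn⟩
    by_contra hcon
    have := hΘ.eq_of_subset (t := Ξ) ⟨hΞ, hcon⟩ hsub
    rw [this] at hxn
    exact hxn hx
  refine ⟨Θ, hΘ0, hV, hBn, ?_⟩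
  intro C D hCD
  by_contra hn
  push Not at hn
  obtain ⟨hC, hD⟩ := hn
  have h1 : B ∈ {φ | dis φ D ∈ Θ} := by
    refine hmax _ (hV.shift D) (fun φ hφ => ?_) ⟨C, hCD, hC⟩
    exact hV.mp _ _ (hV.ipc _ (Logic.orL φ D)) hφ
  have h1' : dis B D ∈ Θ := h1
  have h2 : B ∈ {φ | dis φ B ∈ Θ} := by
    refine hmax _ (hV.shift B) (fun φ hφ => ?_) ⟨D, ?_, hD⟩
    · exact hV.mp _ _ (hV.ipc _ (Logic.orL φ B)) hφ
    · refine hV.sem fun T hT => ?_
      have := hT h1'
      rw [T.mem_or] at this ⊢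
      exact this.symm
  have h2' : dis B B ∈ Θ := h2
  apply hBn
  refine hV.sem fun T hT => ?_
  have := hT h2'
  rw [T.mem_or] at this
  exact this.elim id id

theorem bigAnd_congr {f g : ℕ → Form} {n : ℕ} (h : ∀ i ≤ n, f i = g i) :
    bigAnd f n = bigAnd g n := by
  induction n with
  | zero => exact h 0 le_rfl
  | succ n ih =>
    rw [bigAnd, bigAnd, ih (fun i hi => h i (by omega)), h (n + 1) le_rfl]

section tight

variable {Θ : Set Form} (h : VT Θ) (hp : ∀ C D, dis C D ∈ Θ → C ∈ Θ ∨ D ∈ Θ) (hb : bot ∉ Θ)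

include hp in
theorem bigOr_mem {f : ℕ → Form} {n : ℕ} (hf : bigOr f n ∈ Θ) : ∃ i ≤ n, f i ∈ Θ := by
  induction n with
  | zero => exact ⟨0, le_rfl, hf⟩
  | succ n ih =>
    rcases hp _ _ hf with h1 | h1
    · obtain ⟨i, hi, h2⟩ := ih h1
      exact ⟨i, by omega, h2⟩
    · exact ⟨n + 1, le_rfl, h1⟩

include hp hb in
theorem ldis_mem {l : List Form} (hf : ldis l ∈ Θ) : ∃ c ∈ l, c ∈ Θ := by
  induction l with
  | nil => exact (hb hf).elim
  | cons a l ih =>
    rcases hp _ _ hf with h1 | h1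
    · exact ⟨a, by simp, h1⟩
    · obtain ⟨c, hc, h2⟩ := ih h1
      exact ⟨c, by simp [hc], h2⟩

/-- substitution for Visser's rules -/
def vsub (E F : ℕ → Form) (n : ℕ) (c d : Form) : ℕ → Form := fun j =>
  if j = 0 then bot
  else if j % 2 = 1 then (if j / 2 ≤ n then E (j / 2) else if j / 2 = n + 1 then c else d)
  else F (j / 2 - 1)

theorem vsub_odd (E F : ℕ → Form) (n : ℕ) (c d : Form) (i : ℕ) : vsub E F n c d (2 * i + 1) =
    if i ≤ n then E i else if i = n + 1 then c else d := by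
  unfold vsub
  have h1 : (2 * i + 1) / 2 = i := by omega
  rw [if_neg (by omega), if_pos (by omega), h1]

theorem vsub_even (E F : ℕ → Form) (n : ℕ) (c d : Form) (i : ℕ) :
    vsub E F n c d (2 * i + 2) = F i := by
  unfold vsub
  have h1 : (2 * i + 2) / 2 - 1 = i := by omega
  rw [if_neg (by omega), if_neg (by omega), h1]

include h hp hb in
theorem vis (E F : ℕ → Form) (n : ℕ) (J : List Form)
    (hJ : imp (bigAnd (fun i => imp (E i) (F i)) n) (ldis J) ∈ Θ) :
    ∃ C, (C ∈ J ∨ ∃ i ≤ n, C = E i) ∧ imp (bigAnd (fun i => imp (E i) (F i)) n) C ∈ Θ := by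
  induction J with
  | nil =>
    refine ⟨E 0, Or.inr ⟨0, by omega, rfl⟩, h.sem fun T hT => ?_⟩
    have h1 := hT hJ
    rw [T.mem_imp] at h1 ⊢
    intro T' hT' h2
    exact (T'.cons (h1 T' hT' h2)).elim
  | cons c J ih =>
    set X := bigAnd (fun i => imp (E i) (F i)) n with hX
    have e1 : bigAnd (fun i => imp (vsub E F n c (ldis J) (2 * i + 1))
        (vsub E F n c (ldis J) (2 * i + 2))) n = X := by
      refine bigAnd_congr fun i hi => ?_
      rw [vsub_odd, vsub_even, if_pos hi]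
    have h1 : (vPrem n).subst (vsub E F n c (ldis J)) ∈ Θ := by
      rw [VT.vprem_subst, e1, vsub_odd, vsub_odd, if_neg (by omega), if_pos rfl,
        if_neg (by omega), if_neg (by omega)]
      exact h.mp _ _ (h.ipc _ (Logic.orL _ _)) hJ
    have h2 := h.v n _ h1
    rw [VT.vconc_subst, e1] at h2
    rcases hp _ _ h2 with h3 | h3
    · obtain ⟨j, hj, h4⟩ := bigOr_mem hp h3
      rw [vsub_odd] at h4
      by_cases hj1 : j ≤ n
      · rw [if_pos hj1] at h4
        exact ⟨E j, Or.inr ⟨j, hj1, rfl⟩, h4⟩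
      · rw [if_neg hj1] at h4
        by_cases hj2 : j = n + 1
        · rw [if_pos hj2] at h4
          exact ⟨c, Or.inl (by simp), h4⟩
        · rw [if_neg hj2] at h4
          obtain ⟨C, hC, h5⟩ := ih h4
          refine ⟨C, ?_, h5⟩
          rcases hC with hC | hC
          · exact Or.inl (by simp [hC])
          · exact Or.inr hC
    · exact (hb h3).elim

include h in
/-- derivations from implications -/
theorem der_split {Δ : Set Form} (hΔ : ∀ a ∈ Δ, ∃ E F, a = imp E F) {b : Form}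
    (hd : Der top (Θ ∪ Δ) b) : b ∈ Θ ∨ ∃ (E F : ℕ → Form) (n : ℕ),
      (∀ i ≤ n, imp (E i) (F i) ∈ Δ) ∧ imp (bigAnd (fun i => imp (E i) (F i)) n) b ∈ Θ := by
  induction hd with
  | @hyp a ha =>
    rcases ha with ha | ha
    · exact Or.inl ha
    · obtain ⟨E, F, rfl⟩ := hΔ a ha
      refine Or.inr ⟨fun _ => E, fun _ => F, 0, fun _ _ => ha, ?_⟩
      exact h.ipc _ (Der.id' top _)
  | thm h' => exact Or.inl (h.ipc _ h')
  | @mp a b _ _ ih1 ih2 =>
    rcases ih1 with h1 | ⟨E, F, n, hE, h1⟩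
    · rcases ih2 with h2 | ⟨E', F', n', hE', h2⟩
      · exact Or.inl (h.mp _ _ h1 h2)
      · refine Or.inr ⟨E', F', n', hE', h.sem fun T hT => ?_⟩
        have g1 := hT h1
        have g2 := hT h2
        rw [T.mem_imp] at g1 g2 ⊢
        exact fun T' hT' h3 => g1 T' hT' (g2 T' hT' h3)
    · rcases ih2 with h2 | ⟨E', F', n', hE', h2⟩
      · refine Or.inr ⟨E, F, n, hE, h.sem fun T hT => ?_⟩
        have g1 := hT h1
        have g2 := hT h2
        rw [T.mem_imp] at g1 ⊢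
        exact fun T' hT' h3 => T'.mem_mp (g1 T' hT' h3) (hT' g2)
      · refine Or.inr ⟨fun i => if i ≤ n then E i else E' (i - n - 1),
          fun i => if i ≤ n then F i else F' (i - n - 1), n + n' + 1, fun i hi => ?_,
          h.sem fun T hT => ?_⟩
        · by_cases hin : i ≤ n
          · simp only [if_pos hin]; exact hE i hin
          · simp only [if_neg hin]; exact hE' _ (by omega)
        · have g1 := hT h1
          have g2 := hT h2
          rw [T.mem_imp] at g1 g2 ⊢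
          intro T' hT' h3
          rw [T'.mem_bigAnd] at h3
          refine T'.mem_mp (g1 T' hT' ?_) (g2 T' hT' ?_)
          · rw [T'.mem_bigAnd]
            intro i hi
            have := h3 i (by omega)
            simpa only [if_pos hi] using this
          · rw [T'.mem_bigAnd]
            intro i hi
            have := h3 (i + n + 1) (by omega)
            have e1 : ¬ (i + n + 1 ≤ n) := by omega
            have e2 : i + n + 1 - n - 1 = i := by omega
            simpa only [if_neg e1, e2] using this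

include h hp hb in
/-- tight predecessors -/
theorem tight (F : Set (PT top)) (hF : ∀ T ∈ F, Θ ⊆ T.s) : ∃ T : PT top, Θ ⊆ T.s ∧
    (∀ a ∈ T.s, ∀ S ∈ F, a ∈ S.s) ∧ ∀ E G, imp E G ∈ T.s ↔
      (∀ S ∈ F, imp E G ∈ S.s) ∧ (E ∈ T.s → G ∈ T.s) := by
  set I : Set Form := {a | ∀ S ∈ F, a ∈ S.s} with hI
  set Δ : Set Form := {a | ∃ E G, a = imp E G ∧ a ∈ I ∧ E ∉ I} with hΔ
  -- the key fact
  have key : ∀ J : List Form, (∀ c ∈ J, c ∉ I) → ¬ Der top (Θ ∪ Δ) (ldis J) := by
    intro J hJ hd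
    have hΔ' : ∀ a ∈ Δ, ∃ E F, a = imp E F := by
      intro a ha
      obtain ⟨E, G, h', _⟩ := ha
      exact ⟨E, G, h'⟩
    rcases der_split h hΔ' hd with h1 | ⟨E, G, n, hE, h1⟩
    · obtain ⟨c, hc, h2⟩ := ldis_mem hp hb h1
      exact hJ c hc (fun S hS => hF S hS h2)
    · obtain ⟨C, hC, h2⟩ := vis h hp hb E G n J h1
      have h3 : C ∈ I := by
        intro S hS
        refine S.mem_mp (hF S hS h2) ?_
        rw [S.mem_bigAnd]
        intro i hi
        obtain ⟨_, _, _, h4, _⟩ := hE i hi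
        exact h4 S hS
      rcases hC with hC | ⟨i, hi, rfl⟩
      · exact hJ C hC h3
      · obtain ⟨E', G', h5, _, h6⟩ := hE i hi
        simp only [imp.injEq] at h5
        rw [← h5.1] at h6
        exact h6 h3
  obtain ⟨T, hsub, hT⟩ := zorn_subset_nonempty
    {T : Set Form | ∀ J : List Form, (∀ c ∈ J, c ∉ I) → ¬ Der top T (ldis J)} (by
    intro c hc hch hne
    refine ⟨⋃₀ c, ?_, fun s hs => Set.subset_sUnion_of_mem hs⟩
    intro J hJ hd
    obtain ⟨D, hD, hf, hd'⟩ := hd.finite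
    obtain ⟨t, ht, hsub⟩ := DirectedOn.exists_mem_subset_of_finset_subset_biUnion (α := Form)
      (s := hf.toFinset) hne hch.directedOn (f := id) (by simpa [Set.sUnion_eq_biUnion] using hD)
    refine hc ht J hJ (hd'.mono ?_)
    simpa using hsub) (Θ ∪ Δ) key
  have hno : ∀ J : List Form, (∀ c ∈ J, c ∉ I) → ¬ Der top T (ldis J) := hT.prop
  have hmax : ∀ b, b ∉ T → ∃ J : List Form, (∀ c ∈ J, c ∉ I) ∧ Der top (insert b T) (ldis J) := by
    intro b hbT
    by_contra hcon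
    push Not at hcon
    have := hT.eq_of_subset (t := insert b T) hcon (Set.subset_insert _ _)
    exact hbT (this ▸ Set.mem_insert _ _)
  have hcl : ∀ b, Der top T b → b ∈ T := by
    intro b hbT
    by_contra hn
    obtain ⟨J, hJ, hd⟩ := hmax b hn
    exact hno J hJ (hd.cut hbT)
  refine ⟨⟨T, hcl, fun hbot => hno [] (by simp) (Der.hyp hbot), ?_⟩, ?_, ?_, ?_⟩
  · intro a b hab
    by_contra hn
    push Not at hn
    obtain ⟨J1, hJ1, hd1⟩ := hmax a hn.1
    obtain ⟨J2, hJ2, hd2⟩ := hmax b hn.2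
    refine hno (J1 ++ J2) (fun c hc => ?_) ?_
    · rcases List.mem_append.1 hc with h1 | h1
      · exact hJ1 c h1
      · exact hJ2 c h1
    · refine Der.orE (Der.hyp hab) ?_ ?_
      · rw [der_iff] at hd1 ⊢
        intro U hU
        obtain ⟨c, hc, h1⟩ := (U.mem_ldis).1 (hd1 U hU)
        exact (U.mem_ldis).2 ⟨c, List.mem_append.2 (Or.inl hc), h1⟩
      · rw [der_iff] at hd2 ⊢
        intro U hU
        obtain ⟨c, hc, h1⟩ := (U.mem_ldis).1 (hd2 U hU)
        exact (U.mem_ldis).2 ⟨c, List.mem_append.2 (Or.inr hc), h1⟩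
  · exact fun a ha => hsub (Or.inl ha)
  · intro a ha S hS
    by_contra hn
    refine hno [a] (fun c hc => ?_) ?_
    · simp only [List.mem_singleton] at hc
      rw [hc]
      exact fun h' => hn (h' S hS)
    · rw [der_iff]
      intro U hU
      exact (U.mem_ldis).2 ⟨a, by simp, hU ha⟩
  · intro E G
    have hTI : ∀ a ∈ T, a ∈ I := by
      intro a ha
      by_contra hn
      refine hno [a] (fun c hc => ?_) ?_
      · simp only [List.mem_singleton] at hc
        rw [hc]; exact hn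
      · rw [der_iff]
        intro U hU
        exact (U.mem_ldis).2 ⟨a, by simp, hU ha⟩
    constructor
    · exact fun h1 => ⟨hTI _ h1, fun h2 => hcl _ (Der.mp (Der.hyp h1) (Der.hyp h2))⟩
    · rintro ⟨h1, h2⟩
      change imp E G ∈ T
      have h1' : imp E G ∈ I := h1
      by_cases hE : E ∈ T
      · exact hcl _ (Der.mp (Der.thm (Logic.k _ _)) (Der.hyp (h2 hE)))
      · by_cases hEI : E ∈ I
        · have hG : G ∈ I := fun S hS => S.mem_mp (h1' S hS) (hEI S hS)
          obtain ⟨J, hJ, hd⟩ := hmax E hE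
          apply hcl
          refine Der.ded ?_
          rw [der_iff] at hd ⊢
          intro U hU
          obtain ⟨c, hc, h3⟩ := (U.mem_ldis).1 (hd U hU)
          have h4 : imp c G ∈ T := by
            apply hsub
            right
            exact ⟨c, G, rfl, fun S hS => S.cl _ (Der.mp (Der.thm (Logic.k _ _))
              (Der.hyp (hG S hS))), hJ c hc⟩
          exact U.mem_mp (hU (Set.mem_insert_of_mem _ h4)) h3
        · exact hsub (Or.inr ⟨E, G, rfl, h1', hEI⟩)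

end tight

end Pool.Agent.W898.VR
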