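import Pool.Agent.W898.VR.Frame

/-!
# The frame of an infinite run validates the axiom
-/

set_option autoImplicit false

namespace Pool.Agent.W898.VR

open Form Pt

variable {K : ℕ} {κ : ℕ → ℕ → ℕ}

/-- the top `a_0` -/
def a0 : Pt K κ := a ⟨0, by omega⟩

theorem v0_top {V : ℕ → Pt K κ → Prop} (hV : Val V) (j : ℕ) (w : Pt K κ) (h : V j w) :
    V j a0 ∨ V j b := by
  rcases le_a_b w with h1 | h1
  · exact Or.inl (hV j _ _ h1 h)
  · rw [h1] at h; exact Or.inr h

theorem fn_or {V : ℕ → Pt K κ → Prop} {w : Pt K κ} (h : frc V fn w) :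
    (w ≤ a0 ∧ ¬ V 0 a0) ∨ (w ≤ b ∧ ¬ V 0 b) := by
  rcases le_a_b w with h1 | h1
  · exact Or.inl ⟨h1, h _ h1⟩
  · rw [h1] at h ⊢; exact Or.inr ⟨le_rfl, h _ le_rfl⟩

/-- classification of the `¬ q`-region -/
theorem tops {V : ℕ → Pt K κ → Prop} (hV : Val V) (h1 : ∃ w, V 0 w) (h2 : ∃ w, frc V fn w) :
    ((∀ w, V 0 w ↔ w = b) ∧ ∀ w, frc V fn w → ∃ j, w = a j) ∨ ∀ w, frc V fn w → w = b := by
  obtain ⟨x, hx⟩ := h1
  obtain ⟨y, hy⟩ := h2
  by_cases hb : V 0 b
  · left
    have ha : ¬ V 0 (a0 : Pt K κ) := by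
      rcases fn_or hy with h | h
      · exact h.2
      · exact (h.2 hb).elim
    refine ⟨fun w => ⟨fun hw => ?_, fun hw => hw ▸ hb⟩, fun w hw => ?_⟩
    · rcases le_a_b w with h | h
      · exact (ha (hV 0 _ _ h hw)).elim
      · exact h
    · rcases le_b w with h | h
      · exact (hw _ h hb).elim
      · exact h
  · right
    have ha : V 0 (a0 : Pt K κ) := (v0_top hV 0 x hx).resolve_right hb
    intro w hw
    rcases le_a_b w with h | h
    · exact (hw _ h ha).elim
    · exact h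

theorem valid_T {V : ℕ → Pt K κ → Prop} (hV : Val V) (w : Pt K κ) : frc V fT w := by
  by_contra hcon
  simp only [fT, frc, not_or] at hcon
  obtain ⟨h1, h2, h3⟩ := hcon
  have h1' : ¬ frc V (neg (var 0)) w := h1
  have h2' : ¬ frc V (neg (con (neg (var 0)) (var 1))) w := h2
  have h3' : ¬ frc V (neg (con (neg (var 0)) (neg (var 1)))) w := h3
  rw [frc_neg] at h1' h2' h3'
  push Not at h1' h2' h3'
  obtain ⟨x, _, hx⟩ := h1'
  obtain ⟨y, _, hy1, hy2⟩ := h2'
  obtain ⟨z, _, hz1, hz2⟩ := h3'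
  have g1 := v0_top hV 0 x hx
  rcases fn_or hy1 with g2 | g2 <;> rcases fn_or hz1 with g3 | g3
  · exact hz2 _ g3.1 (hV 1 _ _ g2.1 hy2)
  · rcases g1 with g1 | g1
    · exact g2.2 g1
    · exact g3.2 g1
  · rcases g1 with g1 | g1
    · exact g3.2 g1
    · exact g2.2 g1
  · exact hz2 _ g3.1 (hV 1 _ _ g2.1 hy2)

theorem valid_L {V : ℕ → Pt K κ → Prop} (hV : Val V) (w : Pt K κ) : frc V fL w := by
  by_contra hcon
  have h1' : ¬ frc V (neg (var 0)) w := fun h => hcon (Or.inl h)
  have h2' : ¬ frc V (imp (con (neg (var 0)) (var 1)) (var 2)) w :=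
    fun h => hcon (Or.inr (Or.inl h))
  have h3' : ¬ frc V (imp (con (neg (var 0)) (var 2)) (var 1)) w :=
    fun h => hcon (Or.inr (Or.inr h))
  rw [frc_neg] at h1'
  simp only [frc] at h2' h3'
  push Not at h1' h2' h3'
  obtain ⟨x, _, hx⟩ := h1'
  obtain ⟨y, _, ⟨hy1, hy2⟩, hy3⟩ := h2'
  obtain ⟨z, _, ⟨hz1, hz2⟩, hz3⟩ := h3'
  have hy1' : frc V fn y := hy1
  have hz1' : frc V fn z := hz1
  rcases tops hV ⟨x, hx⟩ ⟨y, hy1'⟩ with ⟨_, h⟩ | h
  · obtain ⟨j, rfl⟩ := h y hy1'
    obtain ⟨j', rfl⟩ := h z hz1'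
    rcases le_total (j : ℕ) (j' : ℕ) with hj | hj
    · exact hy3 (hV 2 (a j') (a j) hj hz2)
    · exact hz3 (hV 1 (a j) (a j') hj hy2)
  · rw [h y hy1'] at hy2
    rw [h z hz1'] at hz3
    exact hz3 hy2

/-- the valuation is determined as far as possible -/
structure Pin (V : ℕ → Pt K κ → Prop) : Prop where
  q : ∀ w, V 0 w ↔ w = b
  p : ∀ j, 1 ≤ j → j ≤ K + 2 → ∀ i : Fin (K + 3), V j (a i) ↔ (i : ℕ) + j ≤ K + 2

theorem pin {V : ℕ → Pt K κ → Prop} (hV : Val V) {w : Pt K κ} (h : ¬ frc V (fW K) w) :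
    w = r ∧ Pin V := by
  have h1 : ¬ frc V fn w := fun h' => h (Or.inl h')
  have h2 : ¬ frc V (imp fn (var 1)) w := fun h' => h (Or.inr (Or.inl h'))
  have h3 : ¬ frc V (dj (fun j => imp (con fn (var (j + 1))) (var (j + 2))) (K + 1)) w :=
    fun h' => h (Or.inr (Or.inr (Or.inl h')))
  have h4 : ¬ frc V (neg (con fn (var (K + 2)))) w :=
    fun h' => h (Or.inr (Or.inr (Or.inr h')))
  rw [frc_dj] at h3
  rw [frc_neg] at h4
  have h1' : ∃ x, w ≤ x ∧ V 0 x := by
    by_contra hn
    push Not at hn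
    exact h1 hn
  simp only [frc] at h2
  push Not at h2 h3 h4
  obtain ⟨x, hwx, hx⟩ := h1'
  obtain ⟨y, hwy, hy, hy1⟩ := h2
  obtain ⟨z, hwz, hz, hz1⟩ := h4
  have h3' : ∀ j < K + 1, ∃ u, frc V fn u ∧ V (j + 1) u ∧ ¬ V (j + 2) u := by
    intro j hj
    have h5 := h3 j hj
    simp only [frc] at h5
    push Not at h5
    obtain ⟨u, _, ⟨hu1, hu2⟩, hu3⟩ := h5
    exact ⟨u, hu1, hu2, hu3⟩
  rcases tops hV ⟨x, hx⟩ ⟨y, hy⟩ with ⟨hq, ha⟩ | hb
  · -- the main case
    have hm : ∀ j, ∃ m : Fin (K + 3), (j = 0 → y = a m) ∧ (1 ≤ j → j ≤ K + 2 → V j (a m)) ∧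
        (j ≤ K + 1 → ¬ V (j + 1) (a m)) := by
      intro j
      rcases Nat.eq_zero_or_pos j with hj | hj
      · obtain ⟨m, hm⟩ := ha y hy
        refine ⟨m, fun _ => hm, fun h => by omega, fun _ => ?_⟩
        rw [hj, ← hm]
        exact hy1
      · rcases Nat.lt_or_ge j (K + 2) with hj2 | hj2
        · obtain ⟨u, hu1, hu2, hu3⟩ := h3' (j - 1) (by omega)
          obtain ⟨m, rfl⟩ := ha u hu1
          have e1 : j - 1 + 1 = j := by omega
          have e2 : j - 1 + 2 = j + 1 := by omega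
          rw [e1] at hu2
          rw [e2] at hu3
          exact ⟨m, fun h => by omega, fun _ _ => hu2, fun _ => hu3⟩
        · obtain ⟨m, rfl⟩ := ha z hz
          refine ⟨m, fun h => by omega, fun _ h' => ?_, fun h => by omega⟩
          have : j = K + 2 := by omega
          rw [this]; exact hz1
    choose m hm0 hm1 hm2 using hm
    have hdec : ∀ j, j ≤ K + 1 → (m (j + 1) : ℕ) < m j := by
      intro j hj
      by_contra hlt
      exact hm2 j hj (hV (j + 1) (a (m (j + 1))) (a (m j)) (not_lt.1 hlt)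
        (hm1 (j + 1) (by omega) (by omega)))
    have hup : ∀ j, j ≤ K + 2 → (m j : ℕ) + j ≤ K + 2 := by
      intro j
      induction j with
      | zero => intro _; have := (m 0).2; omega
      | succ j ih =>
        intro hj
        have := ih (by omega)
        have := hdec j (by omega)
        omega
    have hlow : ∀ d, d ≤ K + 2 → K + 2 ≤ (m (K + 2 - d) : ℕ) + (K + 2 - d) := by
      intro d
      induction d with
      | zero => intro _; simp
      | succ d ih =>
        intro hd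
        have h5 := ih (by omega)
        have h6 := hdec (K + 2 - (d + 1)) (by omega)
        have e1 : K + 2 - (d + 1) + 1 = K + 2 - d := by omega
        rw [e1] at h6
        omega
    have hm' : ∀ j, j ≤ K + 2 → (m j : ℕ) + j = K + 2 := by
      intro j hj
      have h5 := hlow (K + 2 - j) (by omega)
      have e1 : K + 2 - (K + 2 - j) = j := by omega
      rw [e1] at h5
      have := hup j hj
      omega
    have hpin : Pin V := by
      refine ⟨hq, fun j hj1 hj2 i => ⟨fun h5 => ?_, fun h5 => ?_⟩⟩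
      · by_contra hcon'
        have h6 := hm2 (j - 1) (by omega)
        have e1 : j - 1 + 1 = j := by omega
        rw [e1] at h6
        have h7 := hm' (j - 1) (by omega)
        apply h6
        refine hV j (a i) (a (m (j - 1))) ?_ h5
        change (m (j - 1) : ℕ) ≤ i
        omega
      · have h6 := hm1 j hj1 hj2
        have h7 := hm' j hj2
        refine hV j (a (m j)) (a i) ?_ h6
        change (i : ℕ) ≤ m j
        omega
    refine ⟨?_, hpin⟩
    apply eq_r
    · have h5 := hm' 0 (by omega)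
      have h6 := hm0 0 rfl
      have h7 : (m 0) = ⟨K + 2, by omega⟩ := Fin.ext (by simpa using h5)
      rw [← h7, ← h6]
      exact hwy
    · rw [hq x] at hx
      rw [← hx]
      exact hwx
  · exfalso
    obtain ⟨u, hu1, hu2, hu3⟩ := h3' 0 (by omega)
    rw [hb y hy] at hy1
    rw [hb u hu1] at hu2
    exact hy1 hu2

section eval

variable {V : ℕ → Pt K κ → Prop} (P : Pin V)

include P

theorem e_fn (w : Pt K κ) : frc V fn w ↔ ∃ i, w = a i := by
  unfold fn fq
  rw [frc_neg]
  simp only [frc, P.q]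
  constructor
  · intro h
    rcases le_b w with h1 | h1
    · exact (h b h1 rfl).elim
    · exact h1
  · rintro ⟨i, rfl⟩ w' hw' rfl
    exact not_a_le_b hw'

theorem e_fA {j : ℕ} (hj : j ≤ K + 1) (w : Pt K κ) :
    frc V (fA K j) w ↔ ∃ i : Fin (K + 3), w = a i ∧ (i : ℕ) ≤ j := by
  unfold fA
  rw [frc, e_fn P, frc]
  constructor
  · rintro ⟨⟨i, rfl⟩, h⟩
    rw [P.p _ (by omega) (by omega)] at h
    exact ⟨i, rfl, by omega⟩
  · rintro ⟨i, rfl, h⟩
    refine ⟨⟨i, rfl⟩, ?_⟩
    rw [P.p _ (by omega) (by omega)]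
    omega

theorem e_fN {j : ℕ} (hj : j ≤ K) (w : Pt K κ) :
    frc V (fN K j) w ↔ ¬ w ≤ a ⟨j + 1, by omega⟩ := by
  unfold fN
  simp only [frc, e_fA P (show j + 1 ≤ K + 1 by omega), e_fA P (show j ≤ K + 1 by omega)]
  constructor
  · intro h h1
    obtain ⟨i, hi, hij⟩ := h _ h1 ⟨_, rfl, le_rfl⟩
    simp only [a.injEq] at hi
    rw [← hi] at hij
    simp at hij
  · rintro h w' hw' ⟨i, rfl, hi⟩
    refine ⟨i, rfl, ?_⟩
    by_contra hlt
    apply h
    have : i = ⟨j + 1, by omega⟩ := Fin.ext (by simp; omega)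
    rw [← this]
    exact hw'

theorem e_cP (hK : 1 ≤ K) {j : ℕ} (hj : j ≤ K + 1) (w : Pt K κ) :
    frc V (cP K j) w ↔ ∀ i (h : i < j), ¬ w ≤ c ⟨i, by omega⟩ := by
  induction j generalizing w with
  | zero => exact ⟨fun _ i hi => by omega, fun _ => frc_top V w⟩
  | succ j ih =>
    have ih' := fun w => ih (by omega) w
    have hphi : ∀ w, (frc V (fN K j) w ∧ frc V (cP K j) w) ↔ c ⟨j, by omega⟩ ≤ w := by
      intro w
      rw [e_fN P (by omega), ih', c_iff (by omega) hK]
    rw [cP, frc, ih']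
    have h2 : frc V (imp (con (fN K j) (cP K j)) (dis (fA K j) fq)) w ↔
        ¬ w ≤ c ⟨j, by omega⟩ := by
      simp only [frc, hphi, e_fA P (show j ≤ K + 1 by omega), fq, P.q]
      constructor
      · intro h h1
        rcases h _ h1 le_rfl with ⟨i, hi, _⟩ | hi
        · cases hi
        · cases hi
      · intro h w' hw' h1
        rcases c_le h1 with ⟨j', rfl, hj'⟩ | rfl | rfl
        · exact Or.inl ⟨j', rfl, hj'⟩
        · exact Or.inr rfl
        · exact (h hw').elim
    rw [h2]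
    constructor
    · rintro ⟨h3, h4⟩ i hi
      rcases Nat.lt_succ_iff_lt_or_eq.1 hi with h5 | h5
      · exact h3 i h5
      · subst h5; exact h4
    · intro h3
      exact ⟨fun i hi => h3 i (by omega), h3 j (by omega)⟩

theorem e_phi (hK : 1 ≤ K) {j : ℕ} (hj : j ≤ K) (w : Pt K κ) :
    frc V (phi K j) w ↔ c ⟨j, by omega⟩ ≤ w := by
  unfold phi
  rw [frc, e_fN P hj, e_cP P hK (by omega), c_iff hj hK]

theorem e_psi (hK : 1 ≤ K) {j : ℕ} (hj : j ≤ K) (w : Pt K κ) :
    frc V (psi K j) w ↔ ¬ w ≤ c ⟨j, by omega⟩ := by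
  unfold psi
  simp only [frc, e_phi P hK hj, e_fA P (show j ≤ K + 1 by omega), fq, P.q]
  constructor
  · intro h h1
    rcases h _ h1 le_rfl with ⟨i, hi, _⟩ | hi
    · cases hi
    · cases hi
  · intro h w' hw' h1
    rcases c_le h1 with ⟨j', rfl, hj'⟩ | rfl | rfl
    · exact Or.inl ⟨j', rfl, hj'⟩
    · exact Or.inr rfl
    · exact (h hw').elim

theorem e_fO (hK : 1 ≤ K) (w : Pt K κ) : frc V (fO K) w ↔ isO w := by
  unfold fO
  rw [frc, e_fn P, e_phi P hK le_rfl]
  constructor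
  · rintro (⟨i, rfl⟩ | h)
    · trivial
    · rcases c_le h with ⟨j', rfl, hj'⟩ | rfl | rfl
      · trivial
      · trivial
      · exact rfl
  · intro h
    cases w with
    | a j => exact Or.inl ⟨j, rfl⟩
    | b => exact Or.inr trivial
    | c j =>
      right
      have h' : (j : ℕ) = K := h
      change K = (j : ℕ)
      omega
    | u i n => exact h.elim
    | e t => exact h.elim
    | r => exact h.elim

theorem e_fK (hK : 2 ≤ K) {i : ℕ} (hi : i < K) (w : Pt K κ) : frc V (fK K i) w ↔ reg i w := by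
  have h0 : frc V (fK K i) w ↔ ∀ j (h : j < K), j ≠ i → ¬ w ≤ c ⟨j, by omega⟩ := by
    unfold fK
    rw [frc_cj]
    refine forall_congr' fun j => forall_congr' fun hj => ?_
    by_cases hji : j = i
    · rw [if_pos hji]
      exact ⟨fun _ h => (h hji).elim, fun _ => frc_top V w⟩
    · rw [if_neg hji, e_psi P (by omega) (by omega)]
      exact ⟨fun h _ => h, fun h => h hji⟩
  rw [h0]
  constructor
  · intro h
    cases w with
    | a j => trivial
    | b => trivial
    | c j =>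
      change (j : ℕ) = i ∨ (j : ℕ) = K ∨ (j : ℕ) = K + 1
      by_contra hcon
      have hj := j.2
      refine h j (by omega) (by omega) ?_
      exact le_rfl
    | u i' n =>
      change (i' : ℕ) = i
      by_contra hcon
      exact h i' i'.2 hcon (Or.inl rfl)
    | e t =>
      exfalso
      by_cases h0 : i = 0
      · exact h 1 (by omega) (by omega) trivial
      · exact h 0 (by omega) (by omega) trivial
    | r =>
      exfalso
      by_cases h0 : i = 0
      · exact h 1 (by omega) (by omega) trivial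
      · exact h 0 (by omega) (by omega) trivial
  · intro h j hj hji hle
    cases w with
    | a j' => exact hle
    | b => exact hle
    | c j' =>
      have h1 : (j' : ℕ) = i ∨ (j' : ℕ) = K ∨ (j' : ℕ) = K + 1 := h
      have h2 : (j' : ℕ) = j := hle
      omega
    | u i' n =>
      have h1 : (i' : ℕ) = i := h
      have h2 : j = (i' : ℕ) ∨ (j = K ∧ n ≠ 1) ∨ (j = K + 1 ∧ 1 ≤ n) := hle
      omega
    | e t => exact h
    | r => exact h

theorem e_fS (hK : 2 ≤ K) (i : Fin K) (n : ℕ) : frc V (fS K i) (lad i n) ↔ n = 0 := by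
  unfold fS
  rw [frc, e_phi P (by omega) (by omega), e_fO P (by omega)]
  constructor
  · rintro (h | h)
    · have h1 : (lad i 0 : Pt K κ) ≤ lad i n := h
      rw [lad_le] at h1
      omega
    · exact (isO_lad i n h).elim
  · rintro rfl
    left
    exact le_rfl

theorem e_fH (hK : 2 ≤ K) (i : Fin K) (n : ℕ) : frc V (fH K) (lad i n) ↔ n = 1 := by
  have hi := i.2
  unfold fH
  rw [frc, e_cP P (by omega) le_rfl, e_fO P (by omega)]
  constructor
  · rintro (h | h)
    · rcases n with _ | _ | n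
      · exact (h i (by omega) (show (lad i 0 : Pt K κ) ≤ lad i 0 from le_rfl)).elim
      · rfl
      · exfalso
        have h1 : (lad i (n + 2) : Pt K κ) ≤ lad i 0 := (lad_le i _ _).2 (by omega)
        exact h i (by omega) h1
    · exact (isO_lad i n h).elim
  · rintro rfl
    left
    intro j hj h1
    have h2 : K + 1 = j := h1
    omega

theorem good_num (hV : Val V) (hK : 2 ≤ K) (i k : ℕ) : Good (fr2 V (numf K i k)) := by
  unfold numf
  rw [fr2_iter]
  apply Good.iter
  exact ⟨fun w w' hw h => frc_mono hV _ hw h, fun w w' hw h => frc_mono hV _ hw h,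
    fun w hw => Or.inr ((e_fO P (by omega) w).2 hw), fun w hw => Or.inr ((e_fO P (by omega) w).2 hw)⟩

theorem num_num (hV : Val V) (hK : 2 ≤ K) (i : Fin K) (k : ℕ) :
    Num i (fr2 V (numf K i k)) k := by
  have h0 : Num i (fr2 V (numf K i 0)) 0 := by
    intro n
    change (frc V (fS K i) (lad i n) ↔ _) ∧ (frc V (fH K) (lad i n) ↔ _)
    rw [e_fS P hK, e_fH P hK]
    omega
  have h1 := h0.iter (good_num P hV hK i 0) k
  rw [← fr2_iter] at h1
  rw [numf_add, zero_add] at h1
  exact h1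

theorem good_ph (hV : Val V) (hK : 2 ≤ K) (i : ℕ) : Good (fr2 V (ph K i)) :=
  ⟨fun w w' hw h => frc_mono hV _ hw h, fun w w' hw h => frc_mono hV _ hw h,
    fun w hw => Or.inr ((e_fO P (by omega) w).2 hw), fun w hw => Or.inr ((e_fO P (by omega) w).2 hw)⟩

theorem good_cur (hV : Val V) (hK : 2 ≤ K) (i : ℕ) (o : Op) : Good (fr2 V (o.cur K i)) := by
  cases o with
  | any v => exact good_ph P hV hK i
  | cst k k' => exact good_num P hV hK i k
  | dec v => rw [Op.cur, fr2_fsuc]; exact (good_ph P hV hK i).suc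

theorem good_nxt (hV : Val V) (hK : 2 ≤ K) (i : ℕ) (o : Op) : Good (fr2 V (o.nxt K i)) := by
  cases o with
  | any v => rw [Op.nxt, fr2_iter]; exact (good_ph P hV hK i).iter v
  | cst k k' => exact good_num P hV hK i k'
  | dec v => rw [Op.nxt, fr2_iter]; exact (good_ph P hV hK i).iter v

/-- reading off the value of a counter -/
theorem read (hV : Val V) (hK : 2 ≤ K) (i : Fin K) (o : Op) (n : ℕ)
    (hn : Num i (fr2 V (o.cur K i)) n) (hext : ¬ frc V (o.ext K i) (r : Pt K κ)) :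
    o.ok n ∧ Num i (fr2 V (o.nxt K i)) (o.new n) := by
  cases o with
  | any v =>
    refine ⟨trivial, ?_⟩
    rw [Op.nxt, fr2_iter]
    exact Num.iter (good_ph P hV hK i) hn v
  | cst k k' =>
    exact ⟨hn.unique (num_num P hV hK i k), num_num P hV hK i k'⟩
  | dec v =>
    rw [Op.cur, fr2_fsuc] at hn
    have h1 : ∃ w, reg i w ∧ (fr2 V (ph K i)).1 w ∧ ¬ (fr2 V (ph K i)).2 w := by
      by_contra hcon
      push Not at hcon
      apply hext
      intro w _ hw
      exact hcon w ((e_fK P hK i.2 w).1 hw.1) hw.2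
    obtain ⟨h2, h3⟩ := hn.pred (good_ph P hV hK i) h1
    refine ⟨h2, ?_⟩
    rw [Op.nxt, fr2_iter]
    exact h3.iter (good_ph P hV hK i) v

theorem e_E (hV : Val V) (hK : 2 ≤ K) (x : ℕ → Form × Form) (hx : ∀ i < K, Good (fr2 V (x i))) :
    ¬ frc V (fE K x) (r : Pt K κ) ↔ ∃ t, ∀ i : Fin K, Num i (fr2 V (x i)) (κ t i) := by
  have h1 := sE_r hK (fun i => fr2 V (x i)) hx
  rw [← h1, frc_fE]
  refine not_congr (sE_congr (fun i hi => ?_) (fun i _ => rfl) _)
  funext w
  exact propext (e_fK P hK hi w)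

end eval

/-- an infinite run -/
structure Run (K : ℕ) (l : List Ins) (c0 : ℕ → ℕ) (κ : ℕ → ℕ → ℕ) : Prop where
  init : ∀ i < K, κ 0 i = c0 i
  step : ∀ t, ∀ I ∈ l, I.ok K (κ t) → I.halt = false ∧ ∀ i < K, κ (t + 1) i = I.new (κ t) i

/-- the frame validates the axiom -/
theorem frame_B (hK : 2 ≤ K) {l : List Ins} {c0 : ℕ → ℕ} (R : Run K l c0 κ)
    {V : ℕ → Pt K κ → Prop} (hV : Val V) (w : Pt K κ) : frc V (fB K l c0) w := by
  refine ⟨⟨valid_T hV w, valid_L hV w, ?_, ?_⟩, ?_⟩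
  · -- base
    rw [frc_cj]
    intro i hi w1 _ h1
    by_contra h2
    obtain ⟨rfl, P⟩ := pin hV h2
    have h3 := h1 (lad ⟨i, hi⟩ 0) (r_le _) ⟨(e_fK P hK hi _).2 (reg_lad ⟨i, hi⟩ 0),
      (e_fS P hK ⟨i, hi⟩ 0).2 rfl⟩
    have h4 := (e_fH P hK ⟨i, hi⟩ 0).1 h3
    omega
  · -- instructions
    rw [frc_lc]
    intro f hf
    obtain ⟨I, hI, rfl⟩ := List.mem_map.1 hf
    -- the common part
    have key : ∀ w1 : Pt K κ, (¬ frc V (fE K (fun i => (I.op i).cur K i)) w1) →
        (¬ frc V (I.ext K) w1) → w1 = r ∧ I.halt = false ∧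
          ¬ frc V (fE K (fun i => (I.op i).nxt K i)) w1 := by
      intro w1 h1 h2
      have h3 : ¬ frc V (fW K) w1 := fun h => h2 (Or.inr h)
      obtain ⟨rfl, P⟩ := pin hV h3
      have h4 : ∀ i < K, ¬ frc V ((I.op i).ext K i) (r : Pt K κ) := by
        intro i hi h
        apply h2
        left
        rw [frc_dj]
        exact ⟨i, hi, h⟩
      rw [e_E P hV hK _ (fun i _ => good_cur P hV hK i (I.op i))] at h1
      obtain ⟨t, ht⟩ := h1
      have h5 : ∀ i : Fin K, (I.op i).ok (κ t i) ∧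
          Num i (fr2 V ((I.op i).nxt K i)) ((I.op i).new (κ t i)) := fun i =>
        read P hV hK i (I.op i) (κ t i) (ht i) (h4 i i.2)
      have h6 := R.step t I hI (fun i hi => (h5 ⟨i, hi⟩).1)
      refine ⟨rfl, h6.1, ?_⟩
      rw [e_E P hV hK _ (fun i _ => good_nxt P hV hK i (I.op i))]
      refine ⟨t + 1, fun i => ?_⟩
      rw [h6.2 i i.2]
      exact (h5 i).2
    unfold Ins.ax
    split_ifs with hh
    · by_contra hcon
      have h1 := key w (fun h => hcon (Or.inl h)) (fun h => hcon (Or.inr h))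
      rw [hh] at h1
      exact Bool.noConfusion h1.2.1
    · intro w1 _ h1
      by_contra hcon
      exact (key w1 (fun h => hcon (Or.inl h)) (fun h => hcon (Or.inr h))).2.2 h1
  · intro w1 _ h1
    by_contra h2
    obtain ⟨rfl, P⟩ := pin hV h2
    revert h1
    change ¬ _
    rw [e_E P hV hK _ (fun i _ => good_num P hV hK i _)]
    refine ⟨0, fun i => ?_⟩
    rw [R.init i i.2]
    exact num_num P hV hK i _

theorem frame_inst (hK : 2 ≤ K) {l : List Ins} {c0 : ℕ → ℕ} (R : Run K l c0 κ)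
    {V : ℕ → Pt K κ → Prop} (hV : Val V) (σ : ℕ → Form) (w : Pt K κ) :
    frc V ((fB K l c0).subst σ) w := by
  rw [frc_subst]
  exact frame_B hK R (val_subst hV σ) w

/-! ### Visser's rule fails -/

theorem subst_var (a : Form) : a.subst var = a := by
  induction a with
  | var i => rfl
  | bot => rfl
  | con a b iha ihb => rw [subst, iha, ihb]
  | dis a b iha ihb => rw [subst, iha, ihb]
  | imp a b iha ihb => rw [subst, iha, ihb]

/-- the special valuation -/
def V0 (K : ℕ) (κ : ℕ → ℕ → ℕ) (j : ℕ) (w : Pt K κ) : Prop :=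
  (j = 0 ∧ w = b) ∨ (1 ≤ j ∧ ∃ i : Fin (K + 3), w = a i ∧ (i : ℕ) + j ≤ K + 2)

theorem V0_val : Val (V0 K κ) := by
  intro j w w' hw h
  rcases h with ⟨h1, rfl⟩ | ⟨h1, i, rfl, h2⟩
  · exact Or.inl ⟨h1, b_le hw⟩
  · obtain ⟨j', rfl, h3⟩ := a_le hw
    exact Or.inr ⟨h1, j', rfl, by omega⟩

theorem V0_pin : Pin (V0 K κ) where
  q w := by
    constructor
    · rintro (h | h)
      · exact h.2
      · exact absurd h.1 (by omega)
    · exact fun h => Or.inl ⟨rfl, h⟩
  p j hj1 hj2 i := by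
    constructor
    · rintro (h | h)
      · exact absurd h.1 (by omega)
      · obtain ⟨_, i', h1, h2⟩ := h
        simp only [a.injEq] at h1
        rw [h1]; exact h2
    · exact fun h => Or.inr ⟨hj1, i, rfl, h⟩

/-- the substitution refuting the rule `V_1` -/
def sv (K : ℕ) (x : ℕ → Form × Form) : ℕ → Form
  | 1 => fEp K x
  | 2 => fEc K x
  | 3 => fn
  | 5 => fW1 K
  | _ => bot

theorem not_admits (hK : 2 ≤ K) {l : List Ins} {c0 : ℕ → ℕ} (R : Run K l c0 κ) :
    ¬ AdmitsVisser (fB K l c0) := by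
  intro hadm
  set x : ℕ → Form × Form := fun i => numf K i (c0 i) with hx
  have h1 : Logic (fB K l c0) ((vPrem 0).subst (sv K x)) := by
    have e1 : (vPrem 0).subst (sv K x) = dis (imp (fE K x) (fW K)) bot := rfl
    rw [e1]
    refine Logic.mp _ _ (Logic.orL _ _) ?_
    refine Logic.mp _ _ (Logic.andR (fB0 K l) _) ?_
    have := Logic.inst (A := fB K l c0) var
    rw [subst_var] at this
    exact this
  have h2 := hadm 0 (sv K x) h1
  have h3 := sound V0_val (frame_inst hK R V0_val) h2 (r : Pt K κ)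
  have e2 : (vConc 0).subst (sv K x) =
      dis (dis (dis (imp (fE K x) (fEp K x)) (imp (fE K x) fn)) (imp (fE K x) (fW1 K))) bot := rfl
  rw [e2] at h3
  have P : Pin (V0 K κ) := V0_pin
  have hE : ∀ w : Pt K κ, (∀ w', w ≤ w' → (∀ t, w' ≠ e t) ∧ w' ≠ r) →
      frc (V0 K κ) (fE K x) w := by
    intro w hw
    have h4 := sE_of hK (fun i => fr2 (V0 K κ) (x i)) (fun i _ => good_num P V0_val hK i _) w hw
    rw [frc_fE]
    refine (sE_congr (fun i hi => ?_) (fun i _ => rfl) _).1 h4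
    funext w
    exact (propext (e_fK P hK hi w)).symm
  rcases h3 with ((h3 | h3) | h3) | h3
  · -- the first ladder
    set k := c0 0 with hk
    have h5 := h3 (lad ⟨0, by omega⟩ (k + 3)) (r_le _) (hE _ (by
      intro w' hw'
      rcases above_lad _ _ hw' with h | ⟨n', rfl, _⟩
      · constructor
        · rintro t rfl; exact h
        · rintro rfl; exact h
      · have h6 := reg_lad (K := K) (κ := κ) ⟨0, by omega⟩ n'
        constructor
        · intro t ht
          rw [ht] at h6; exact h6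
        · intro ht
          rw [ht] at h6; exact h6))
    rw [frc_fEp] at h5
    have h6 := h5 0 (by omega) _ le_rfl ((e_fK P hK (by omega) _).2 (reg_lad ⟨0, by omega⟩ _))
    have hn := num_num P V0_val hK ⟨0, by omega⟩ k
    have hg : Good (fr2 (V0 K κ) (numf K 0 k)) := good_num P V0_val hK 0 k
    rcases h6 with h6 | h6
    · have := ((hn (k + 3)).2).1 h6
      omega
    · have h7 := (sI_lad hg ⟨0, by omega⟩ (k + 3)).1 h6 (k + 1) (by omega)
        (((hn (k + 1)).2).2 (Or.inr rfl))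
      have := ((hn (k + 1)).1).1 h7
      omega
  · have h4 := h3 b (r_le _) (hE _ (by
      intro w' hw'
      rw [b_le hw']
      exact ⟨fun t h => (by cases h), fun h => (by cases h)⟩))
    rw [e_fn P] at h4
    obtain ⟨i, hi⟩ := h4
    cases hi
  · have h4 := h3 (a ⟨K + 2, by omega⟩) (r_le _) (hE _ (by
      intro w' hw'
      obtain ⟨j', rfl, _⟩ := a_le hw'
      exact ⟨fun t h => (by cases h), fun h => (by cases h)⟩))
    rcases h4 with h4 | h4 | h4
    · have h5 := h4 _ le_rfl ((e_fn P _).2 ⟨_, rfl⟩)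
      have h6 := (P.p 1 le_rfl (by omega) _).1 h5
      simp at h6
    · rw [frc_dj] at h4
      obtain ⟨j, hj, h4⟩ := h4
      have h5 := h4 (a ⟨K + 1 - j, by omega⟩) (by change K + 1 - j ≤ K + 2; omega)
        ⟨(e_fn P _).2 ⟨_, rfl⟩, (P.p (j + 1) (by omega) (by omega) _).2 (by
          change K + 1 - j + (j + 1) ≤ K + 2; omega)⟩
      have h6 := (P.p (j + 2) (by omega) (by omega) _).1 h5
      simp only at h6
      omega
    · refine h4 (a ⟨0, by omega⟩) (Nat.zero_le _) ⟨(e_fn P _).2 ⟨_, rfl⟩,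
        (P.p (K + 2) (by omega) le_rfl _).2 ?_⟩
      simp
  · exact h3

end Pool.Agent.W898.VR
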