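import Pool.Agent.W898.VR.Defs

/-!
# Kripke models, soundness, prime theories, the canonical model
-/

set_option autoImplicit false

namespace Pool.Agent.W898.VR

open Form

/-! ### Kripke semantics -/

section kripke

variable {W : Type*} [Preorder W]

/-- forcing -/
def frc (V : ℕ → W → Prop) : Form → W → Prop
  | var i, w => V i w
  | bot, _ => False
  | con a b, w => frc V a w ∧ frc V b w
  | dis a b, w => frc V a w ∨ frc V b w
  | imp a b, w => ∀ w', w ≤ w' → frc V a w' → frc V b w'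

/-- `V` is a valuation (persistent) -/
def Val (V : ℕ → W → Prop) : Prop := ∀ i w w', w ≤ w' → V i w → V i w'

theorem frc_mono {V : ℕ → W → Prop} (hV : Val V) (a : Form) {w w' : W} (h : w ≤ w')
    (ha : frc V a w) : frc V a w' := by
  induction a with
  | var i => exact hV i w w' h ha
  | bot => exact ha
  | con a b iha ihb => exact ⟨iha ha.1, ihb ha.2⟩
  | dis a b iha ihb => exact ha.imp iha ihb
  | imp a b _ _ => exact fun w'' h' => ha w'' (h.trans h')

theorem frc_subst (V : ℕ → W → Prop) (σ : ℕ → Form) (a : Form) (w : W) :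
    frc V (a.subst σ) w ↔ frc (fun i => frc V (σ i)) a w := by
  induction a generalizing w with
  | var i => rfl
  | bot => rfl
  | con a b iha ihb => simp only [subst, frc, iha, ihb]
  | dis a b iha ihb => simp only [subst, frc, iha, ihb]
  | imp a b iha ihb => simp only [subst, frc, iha, ihb]

theorem val_subst {V : ℕ → W → Prop} (hV : Val V) (σ : ℕ → Form) :
    Val (fun i => frc V (σ i)) := fun _ _ _ h ha => frc_mono hV _ h ha

/-- soundness -/
theorem sound {A : Form} {V : ℕ → W → Prop} (hV : Val V)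
    (hA : ∀ (σ : ℕ → Form) (w : W), frc V (A.subst σ) w) {a : Form} (h : Logic A a) :
    ∀ w, frc V a w := by
  induction h with
  | inst σ => exact hA σ
  | k a b => exact fun w w1 h1 ha w2 h2 _ => frc_mono hV _ h2 ha
  | s a b c =>
    intro w w1 h1 h w2 h2 h' w3 h3 ha
    exact h w3 (h2.trans h3) ha w3 le_rfl (h' w3 h3 ha)
  | andL a b => exact fun w w1 h1 h => h.1
  | andR a b => exact fun w w1 h1 h => h.2
  | andI a b => exact fun w w1 h1 ha w2 h2 hb => ⟨frc_mono hV _ h2 ha, hb⟩
  | orL a b => exact fun w w1 h1 h => Or.inl h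
  | orR a b => exact fun w w1 h1 h => Or.inr h
  | orE a b c =>
    intro w w1 h1 h w2 h2 h' w3 h3 hab
    rcases hab with ha | hb
    · exact h w3 (h2.trans h3) ha
    · exact h' w3 h3 hb
  | botE a => exact fun w w1 h1 h => h.elim
  | mp a b _ _ ih1 ih2 => exact fun w => ih1 w w le_rfl (ih2 w)

end kripke

/-! ### Derivations from hypotheses -/

/-- derivability from the hypotheses `Γ` in `L_A` -/
inductive Der (A : Form) (Γ : Set Form) : Form → Prop
  | hyp {a : Form} : a ∈ Γ → Der A Γ a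
  | thm {a : Form} : Logic A a → Der A Γ a
  | mp {a b : Form} : Der A Γ (imp a b) → Der A Γ a → Der A Γ b

namespace Der

variable {A : Form} {Γ Δ : Set Form} {a b c : Form}

theorem mono (h : Γ ⊆ Δ) (ha : Der A Γ a) : Der A Δ a := by
  induction ha with
  | hyp h' => exact hyp (h h')
  | thm h' => exact thm h'
  | mp _ _ ih1 ih2 => exact mp ih1 ih2

theorem id' (A a : Form) : Logic A (imp a a) :=
  Logic.mp _ _ (Logic.mp _ _ (Logic.s a (imp a a) a) (Logic.k a (imp a a))) (Logic.k a a)

theorem ded (h : Der A (insert a Γ) b) : Der A Γ (imp a b) := by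
  induction h with
  | @hyp c h' =>
    rcases h' with rfl | h'
    · exact thm (id' A _)
    · exact mp (thm (Logic.k _ _)) (hyp h')
  | thm h' => exact mp (thm (Logic.k _ _)) (thm h')
  | mp _ _ ih1 ih2 => exact mp (mp (thm (Logic.s _ _ _)) ih1) ih2

theorem finite (h : Der A Γ a) : ∃ Δ : Set Form, Δ ⊆ Γ ∧ Δ.Finite ∧ Der A Δ a := by
  induction h with
  | @hyp a h' => exact ⟨{a}, by simpa using h', by simp, hyp rfl⟩
  | thm h' => exact ⟨∅, by simp, by simp, thm h'⟩
  | mp _ _ ih1 ih2 =>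
    obtain ⟨Δ1, h1, f1, d1⟩ := ih1
    obtain ⟨Δ2, h2, f2, d2⟩ := ih2
    exact ⟨Δ1 ∪ Δ2, Set.union_subset h1 h2, f1.union f2,
      mp (d1.mono Set.subset_union_left) (d2.mono Set.subset_union_right)⟩

theorem cut (h : Der A (insert a Γ) b) (ha : Der A Γ a) : Der A Γ b := mp h.ded ha

theorem andI (ha : Der A Γ a) (hb : Der A Γ b) : Der A Γ (con a b) :=
  mp (mp (thm (Logic.andI _ _)) ha) hb

theorem andL (h : Der A Γ (con a b)) : Der A Γ a := mp (thm (Logic.andL _ _)) h
theorem andR (h : Der A Γ (con a b)) : Der A Γ b := mp (thm (Logic.andR _ _)) h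
theorem orL (h : Der A Γ a) : Der A Γ (dis a b) := mp (thm (Logic.orL _ _)) h
theorem orR (h : Der A Γ b) : Der A Γ (dis a b) := mp (thm (Logic.orR _ _)) h

theorem orE (h : Der A Γ (dis a b)) (ha : Der A (insert a Γ) c) (hb : Der A (insert b Γ) c) :
    Der A Γ c :=
  mp (mp (mp (thm (Logic.orE _ _ _)) ha.ded) hb.ded) h

theorem of_empty (h : Der A ∅ a) : Logic A a := by
  generalize hΓ : (∅ : Set Form) = Γ at h
  induction h with
  | hyp h' => subst hΓ; exact h'.elim
  | thm h' => exact h'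
  | mp _ _ ih1 ih2 => exact Logic.mp _ _ ih1 ih2

end Der

/-! ### Prime theories -/

/-- prime theories of `L_A` -/
structure PT (A : Form) where
  s : Set Form
  cl : ∀ a, Der A s a → a ∈ s
  cons : bot ∉ s
  prime : ∀ a b, dis a b ∈ s → a ∈ s ∨ b ∈ s

namespace PT

variable {A : Form}

instance : Preorder (PT A) where
  le S T := S.s ⊆ T.s
  le_refl S := subset_rfl
  le_trans S T U h1 h2 := h1.trans h2

theorem le_def {S T : PT A} : S ≤ T ↔ S.s ⊆ T.s := Iff.rfl

theorem mem_thm (T : PT A) {a : Form} (h : Logic A a) : a ∈ T.s := T.cl _ (Der.thm h)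

theorem mem_mp (T : PT A) {a b : Form} (h : imp a b ∈ T.s) (ha : a ∈ T.s) : b ∈ T.s :=
  T.cl _ (Der.mp (Der.hyp h) (Der.hyp ha))

theorem mem_and (T : PT A) {a b : Form} : con a b ∈ T.s ↔ a ∈ T.s ∧ b ∈ T.s :=
  ⟨fun h => ⟨T.cl _ (Der.hyp h).andL, T.cl _ (Der.hyp h).andR⟩,
    fun h => T.cl _ (Der.andI (Der.hyp h.1) (Der.hyp h.2))⟩

theorem mem_or (T : PT A) {a b : Form} : dis a b ∈ T.s ↔ a ∈ T.s ∨ b ∈ T.s := by
  refine ⟨T.prime a b, ?_⟩
  rintro (h | h)
  · exact T.cl _ (Der.hyp h).orL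
  · exact T.cl _ (Der.hyp h).orR

end PT

/-- Lindenbaum's lemma -/
theorem exists_pt {A : Form} {Γ : Set Form} {a : Form} (h : ¬ Der A Γ a) :
    ∃ T : PT A, Γ ⊆ T.s ∧ a ∉ T.s := by
  obtain ⟨T, hΓT, hT⟩ := zorn_subset_nonempty {T : Set Form | ¬ Der A T a} (by
    intro c hc hch hne
    refine ⟨⋃₀ c, ?_, fun s hs => Set.subset_sUnion_of_mem hs⟩
    intro hd
    obtain ⟨Δ, hΔ, hf, hd'⟩ := hd.finite
    obtain ⟨t, ht, hsub⟩ := DirectedOn.exists_mem_subset_of_finset_subset_biUnion (α := Form)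
      (s := hf.toFinset) hne hch.directedOn (f := id) (by simpa [Set.sUnion_eq_biUnion] using hΔ)
    refine hc ht (hd'.mono ?_)
    simpa using hsub) Γ h
  have hmem : ¬ Der A T a := hT.prop
  have hmax : ∀ b, b ∉ T → Der A (insert b T) a := by
    intro b hb
    by_contra hcon
    have := hT.eq_of_subset (t := insert b T) hcon (Set.subset_insert _ _)
    exact hb (this ▸ Set.mem_insert _ _)
  have hcl : ∀ b, Der A T b → b ∈ T := by
    intro b hb
    by_contra hn
    exact hmem ((hmax b hn).cut hb)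
  refine ⟨⟨T, hcl, ?_, ?_⟩, hΓT, fun h => hmem (Der.hyp h)⟩
  · intro hb
    exact hmem (Der.mp (Der.thm (Logic.botE _)) (Der.hyp hb))
  · intro b c hbc
    by_contra hn
    push Not at hn
    exact hmem (Der.orE (Der.hyp hbc) (hmax b hn.1) (hmax c hn.2))

theorem exists_pt_of_not_logic {A a : Form} (h : ¬ Logic A a) : ∃ T : PT A, a ∉ T.s := by
  obtain ⟨T, _, hT⟩ := exists_pt (A := A) (Γ := ∅) (a := a) (fun hd => h hd.of_empty)
  exact ⟨T, hT⟩

namespace PT

variable {A : Form}

theorem mem_imp (T : PT A) {a b : Form} :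
    imp a b ∈ T.s ↔ ∀ T' : PT A, T ≤ T' → a ∈ T'.s → b ∈ T'.s := by
  constructor
  · exact fun h T' hT ha => T'.mem_mp (hT h) ha
  · intro h
    by_contra hn
    obtain ⟨T', h1, h2⟩ := exists_pt (A := A) (Γ := insert a T.s) (a := b)
      (fun hd => hn (T.cl _ hd.ded))
    exact h2 (h T' (fun x hx => h1 (Set.mem_insert_of_mem _ hx)) (h1 (Set.mem_insert _ _)))

/-- the canonical valuation -/
def cV (A : Form) : ℕ → PT A → Prop := fun i T => var i ∈ T.s

theorem cV_val (A : Form) : Val (cV A) := fun _ _ _ h ha => h ha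

theorem truth (T : PT A) (a : Form) : frc (cV A) a T ↔ a ∈ T.s := by
  induction a generalizing T with
  | var i => rfl
  | bot => exact ⟨fun h => h.elim, fun h => (T.cons h).elim⟩
  | con a b iha ihb => rw [mem_and, frc, iha, ihb]
  | dis a b iha ihb => rw [mem_or, frc, iha, ihb]
  | imp a b iha ihb =>
    rw [mem_imp, frc]
    constructor
    · intro h T' hT ha
      exact (ihb T').1 (h T' hT ((iha T').2 ha))
    · intro h T' hT ha
      exact (ihb T').2 (h T' hT ((iha T').1 ha))

/-- all instances of `A` are forced in the canonical model -/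
theorem canon_inst (σ : ℕ → Form) (T : PT A) : frc (cV A) (A.subst σ) T :=
  (truth T _).2 (T.mem_thm (Logic.inst σ))

/-- incompatible prime theories -/
theorem exists_sep (S T : PT A) (h : ∀ U : PT A, S ≤ U → T ≤ U → False) :
    ∃ a ∈ S.s, imp a bot ∈ T.s := by
  have hd : Der A (S.s ∪ T.s) bot := by
    by_contra hn
    obtain ⟨U, hU, _⟩ := exists_pt hn
    exact h U (Set.subset_union_left.trans hU) (Set.subset_union_right.trans hU)
  obtain ⟨Δ, hΔ, hf, hd'⟩ := hd.finite
  -- by induction on the finite set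
  have key : ∀ (F : Set Form), F.Finite → ∀ (b : Form), F ⊆ S.s ∪ T.s → Der A F b →
      ∃ a ∈ S.s, imp a b ∈ T.s := by
    intro F hF
    induction F, hF using Set.Finite.induction_on with
    | empty =>
      intro b _ hb
      refine ⟨imp bot bot, S.mem_thm (Logic.botE _), T.cl _ ?_⟩
      exact Der.mp (Der.thm (Logic.k _ _)) (Der.thm hb.of_empty)
    | @insert c F _ _ ih =>
      intro b hsub hb
      obtain ⟨a, ha, hab⟩ := ih (imp c b) (fun x hx => hsub (Set.mem_insert_of_mem _ hx)) hb.ded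
      rcases hsub (Set.mem_insert c F) with hc | hc
      · refine ⟨con a c, (S.mem_and).2 ⟨ha, hc⟩, T.cl _ (Der.ded ?_)⟩
        have h1 : Der A (insert (con a c) T.s) (con a c) := Der.hyp (Set.mem_insert _ _)
        exact Der.mp (Der.mp (Der.hyp (Set.mem_insert_of_mem _ hab)) h1.andL) h1.andR
      · refine ⟨a, ha, T.cl _ (Der.ded ?_)⟩
        have h1 : Der A (insert a T.s) a := Der.hyp (Set.mem_insert _ _)
        exact Der.mp (Der.mp (Der.hyp (Set.mem_insert_of_mem _ hab)) h1)
          (Der.hyp (Set.mem_insert_of_mem _ hc))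
  exact key Δ hf bot hΔ hd'

end PT

end Pool.Agent.W898.VR
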